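import Pool.Agent.Lib_helper86.K4.ParP

set_option autoImplicit false
set_option linter.unusedSectionVars false

/-!
Abstract layer of K4M: the coboundary of `t`.
If `δ C_P(a,b,c,d) = (S₃ - S₂) ∧ (S₁ - S₂)` for all pencils, then
`δ t(a,b) = g_a ∧ g_b + g_b ∧ g_{a+b} + g_{a+b} ∧ g_a`, and `ξ(a,b)` is closed.
-/

namespace Pool.Agent.K4ParP

open Finset

variable {A B G H W : Type*} [AddCommGroup A] [AddCommGroup B] [Module ℚ B]
  [AddCommGroup G] [Module ℚ G] [AddCommGroup H] [Module ℚ H] [AddCommGroup W] [Module ℚ W]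

/-- coboundary of the cross ratio symbols, for four points with pairwise distinct values. -/
def RelD (δ : B →ₗ[ℚ] W) (w : G →ₗ[ℚ] G →ₗ[ℚ] W) (t : A → A → B) (g : A → G) (P : A) : Prop :=
  ∀ a b c d : A, a ≠ b → a + b + P ≠ 0 → a ≠ c → a + c + P ≠ 0 → a ≠ d → a + d + P ≠ 0 →
    b ≠ c → b + c + P ≠ 0 → b ≠ d → b + d + P ≠ 0 → c ≠ d → c + d + P ≠ 0 →
    δ (CR t P a b c d) = w (ss g P a d + ss g P b c - ss g P a c - ss g P b d)
      (ss g P a b + ss g P c d - ss g P a c - ss g P b d)

/-- `g_a ∧ g_b + g_b ∧ g_{a+b} + g_{a+b} ∧ g_a` -/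
def om (w : G →ₗ[ℚ] G →ₗ[ℚ] W) (g : A → G) (a b : A) : W :=
  w (g a) (g b) + w (g b) (g (a + b)) + w (g (a + b)) (g a)

section om

variable {w : G →ₗ[ℚ] G →ₗ[ℚ] W} {g : A → G}

lemma w_swap (hw : ∀ x, w x x = 0) (x y : G) : w y x = - w x y := by
  have h := hw (x + y)
  simp only [map_add, LinearMap.add_apply, hw, zero_add, add_zero] at h
  rw [add_comm] at h
  exact eq_neg_of_add_eq_zero_left (by rw [add_comm]; exact h)

lemma om_isT (hw : ∀ x, w x x = 0) (hg : IsG g) : IsT (om w g) where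
  swap a b := by
    unfold om
    rw [add_comm b a, w_swap hw (g a) (g b), w_swap hw (g (a + b)) (g a),
      w_swap hw (g b) (g (a + b))]
    abel
  rot a b := by
    unfold om
    rw [show b + (-a - b) = -a by abel, hg a, show -a - b = -(a + b) by abel, hg (a + b)]
    abel
  even a b := by
    unfold om
    rw [hg a, hg b, show -a + -b = -(a + b) by abel, hg (a + b)]

lemma th_om (hg : IsG g) (P a b c : A) :
    th (om w g) P a b c = w (ss g P a b) (ss g P b c) + w (ss g P b c) (ss g P a c)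
      + w (ss g P a c) (ss g P a b) := by
  unfold th om ss
  have e1 : a - b + (b - c) = a - c := by abel
  have e2 : a - b + (b + c + P) = a + c + P := by abel
  have e3 : a + b + P + (-P - b - c) = a - c := by abel
  have e4 : -P - a - b + (b - c) = -(a + c + P) := by abel
  have e5 : -P - b - c = -(b + c + P) := by abel
  have e6 : -P - a - b = -(a + b + P) := by abel
  rw [e1, e2, e3, e4, e5, e6, hg, hg, hg]
  simp only [map_add, LinearMap.add_apply]
  abel

lemma CR_om (hw : ∀ x, w x x = 0) (hg : IsG g) (P a b c d : A) :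
    CR (om w g) P a b c d = w (ss g P a d + ss g P b c - ss g P a c - ss g P b d)
      (ss g P a b + ss g P c d - ss g P a c - ss g P b d) := by
  unfold CR
  rw [th_om hg, th_om hg, th_om hg, th_om hg]
  generalize ss g P a b = s1
  generalize ss g P a c = s2
  generalize ss g P a d = s3
  generalize ss g P b c = s4
  generalize ss g P b d = s5
  generalize ss g P c d = s6
  simp only [map_add, map_sub, LinearMap.add_apply, LinearMap.sub_apply, hw,
    w_swap hw s1 s2, w_swap hw s1 s3, w_swap hw s1 s4, w_swap hw s1 s5, w_swap hw s1 s6,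
    w_swap hw s2 s3, w_swap hw s2 s4, w_swap hw s2 s5, w_swap hw s2 s6,
    w_swap hw s3 s4, w_swap hw s3 s5, w_swap hw s3 s6,
    w_swap hw s4 s5, w_swap hw s4 s6, w_swap hw s5 s6]
  abel

end om

/-- if two values coincide, `C = 0`. -/
lemma CR_zero {t : A → A → B} (ht : IsT t) (P a b c d : A)
    (h : (a = b ∨ a + b + P = 0 ∨ a = c ∨ a + c + P = 0 ∨ a = d ∨ a + d + P = 0 ∨
      b = c ∨ b + c + P = 0 ∨ b = d ∨ b + d + P = 0 ∨ c = d ∨ c + d + P = 0)) :
    CR t P a b c d = 0 := by
  unfold CR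
  rcases h with (h | h | h | h | h | h | h | h | h | h | h | h)
  · subst h; rw [th_aa ht, th_aa ht]; abel
  · rw [refl_of P a b h, th_even1 ht, th_even1 ht, th_even1 ht, th_aa ht, th_aa ht]; abel
  · subst h; rw [th_aa ht, th_ac ht, th_swap12 ht P a b d]; abel
  · rw [refl_of P a c h, th_even1 ht, th_even1 ht, th_even1 ht, th_aa ht, th_ac ht,
      th_swap12 ht P c b d]
    abel
  · subst h; rw [th_ac ht, th_ac ht, th_swap23 ht P b a c, th_swap12 ht P a b c]; abel
  · rw [refl_of P a d h, th_even1 ht, th_even1 ht, th_even1 ht, th_ac ht, th_ac ht,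
      th_swap23 ht P b d c, th_swap12 ht P d b c]
    abel
  · subst h; rw [th_aa ht, th_bb ht]; abel
  · rw [refl_of P b c h, th_even1 ht, th_even2 ht, th_even2 ht, th_aa ht, th_bb ht]; abel
  · subst h; rw [th_ac ht, th_bb ht, th_swap23 ht P a b c]; abel
  · rw [refl_of P b d h, th_even1 ht, th_even2 ht, th_even2 ht, th_ac ht, th_bb ht,
      th_swap23 ht P a d c]
    abel
  · subst h; rw [th_bb ht, th_bb ht]; abel
  · rw [refl_of P c d h, th_even2 ht, th_even2 ht, th_even3 ht, th_bb ht, th_bb ht]; abel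

section fin

variable [Fintype A]

/-- An alternating even `u` with `C_P = 0` for all pencils vanishes. -/
lemma isT_zero {u : A → A → B} (hu : IsT u)
    (h : ∀ P a b c d, CR u P a b c d = 0) (x y : A) : u x y = 0 := by
  have hn : (Fintype.card A : ℚ) ≠ 0 := Nat.cast_ne_zero.mpr Fintype.card_ne_zero
  have hth : ∀ P a b c, th u P a b c = 0 := by
    intro P a b c
    have hs : ∑ d, CR u P a b c d = 0 := Finset.sum_eq_zero fun d _ => h P a b c d
    unfold CR at hs
    simp only [Finset.sum_add_distrib, Finset.sum_sub_distrib, sum_th3 hu, Finset.sum_const,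
      Finset.card_univ] at hs
    rw [← Nat.cast_smul_eq_nsmul ℚ] at hs
    have : (Fintype.card A : ℚ) • th u P a b c = 0 := by
      rw [← neg_eq_zero, ← hs]; abel
    exact (smul_eq_zero.mp this).resolve_left hn
  have hs : ∑ P, th u P (x + y) y 0 = 0 := Finset.sum_eq_zero fun P _ => hth P _ _ _
  unfold th at hs
  simp only [Finset.sum_add_distrib] at hs
  have e2 : ∑ P, u (x + y - y) (y + 0 + P) = 0 := by
    rw [← sum_t hu (x + y - y)]
    exact Equiv.sum_comp (Equiv.addLeft (y + 0)) (fun e => u (x + y - y) e)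
  have e3 : ∑ P, u (x + y + y + P) (-P - y - 0) = 0 := by
    rw [← sum_t hu (-(x + y))]
    conv_rhs => rw [← Equiv.sum_comp (Equiv.addLeft (x + y + y)) _]
    refine Finset.sum_congr rfl fun P _ => ?_
    simp only [Equiv.coe_addLeft]
    rw [← hu.rot (-(x + y)) (x + y + y + P)]
    congr 1; abel
  have e4 : ∑ P, u (-P - (x + y) - y) (y - 0) = 0 := by
    rw [← sum_t' hu (y - 0)]
    conv_rhs => rw [← Equiv.sum_comp (Equiv.subLeft (-(x + y) - y)) _]
    refine Finset.sum_congr rfl fun P _ => ?_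
    simp only [Equiv.subLeft_apply]
    congr 1; abel
  rw [e2, e3, e4] at hs
  simp only [Finset.sum_const, Finset.card_univ, add_zero, add_sub_cancel_right, sub_zero] at hs
  rw [← Nat.cast_smul_eq_nsmul ℚ] at hs
  exact (smul_eq_zero.mp hs).resolve_left hn

/-- **Coboundary of `t`.** -/
theorem delta_t {δ : B →ₗ[ℚ] W} {w : G →ₗ[ℚ] G →ₗ[ℚ] W} {t : A → A → B} {g : A → G}
    (hw : ∀ x, w x x = 0) (ht : IsT t) (hg : IsG g) (hr : ∀ P, RelD δ w t g P) (a b : A) :
    δ (t a b) = w (g a) (g b) + w (g b) (g (a + b)) + w (g (a + b)) (g a) := by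
  have ho := om_isT hw hg
  have hu : IsT (fun a b => δ (t a b) - om w g a b) := by
    refine ⟨fun a b => ?_, fun a b => ?_, fun a b => ?_⟩
    · simp only [ht.swap a b, ho.swap a b, map_neg]; abel
    · simp only [ht.rot a b, ho.rot a b]
    · simp only [ht.even a b, ho.even a b]
  have hth : ∀ P a b c, th (fun a b => δ (t a b) - om w g a b) P a b c =
      δ (th t P a b c) - th (om w g) P a b c := by
    intro P a b c
    unfold th
    simp only [map_add]
    abel
  have hCR : ∀ P a b c d, CR (fun a b => δ (t a b) - om w g a b) P a b c d =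
      δ (CR t P a b c d) - CR (om w g) P a b c d := by
    intro P a b c d
    unfold CR
    rw [hth, hth, hth, hth]
    simp only [map_add, map_sub]
    abel
  have hz := isT_zero hu (fun P a b c d => ?_) a b
  · have := sub_eq_zero.mp hz
    rw [this]; rfl
  · by_cases h : (a = b ∨ a + b + P = 0 ∨ a = c ∨ a + c + P = 0 ∨ a = d ∨ a + d + P = 0 ∨
      b = c ∨ b + c + P = 0 ∨ b = d ∨ b + d + P = 0 ∨ c = d ∨ c + d + P = 0)
    · exact CR_zero hu P a b c d h
    · push Not at h
      obtain ⟨h1, h2, h3, h4, h5, h6, h7, h8, h9, h10, h11, h12⟩ := h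
      rw [hCR, hr P a b c d h1 h2 h3 h4 h5 h6 h7 h8 h9 h10 h11 h12, CR_om hw hg, sub_self]

/-- **`ξ(a,b)` is closed.** -/
theorem xi_closed {W₃ : Type*} [AddCommGroup W₃] [Module ℚ W₃]
    {δ : B →ₗ[ℚ] W} {w : G →ₗ[ℚ] G →ₗ[ℚ] W} {w₃ : W →ₗ[ℚ] G →ₗ[ℚ] W₃} {t : A → A → B} {g : A → G}
    (hw : ∀ x, w x x = 0) (h3 : ∀ x y, w₃ (w x y) y = 0)
    (ht : IsT t) (hg : IsG g) (hr : ∀ P, RelD δ w t g P) (a b : A) :
    w₃ (δ (t a b)) (g b - g a) = 0 := by
  have h3' : ∀ x y, w₃ (w x y) x = 0 := fun x y => by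
    rw [w_swap hw y x, map_neg, LinearMap.neg_apply, h3, neg_zero]
  have h23 : ∀ x y z, w₃ (w x y) z = - w₃ (w x z) y := by
    intro x y z
    have h := h3 x (y + z)
    simp only [map_add, LinearMap.add_apply, h3, zero_add, add_zero] at h
    exact eq_neg_of_add_eq_zero_right h
  rw [delta_t hw ht hg hr]
  simp only [map_add, map_sub, LinearMap.add_apply, h3, h3']
  rw [h23 (g b) (g (a + b)) (g a), w_swap hw (g a) (g b), h23 (g (a + b)) (g a) (g b),
    w_swap hw (g b) (g (a + b))]
  simp only [map_neg, LinearMap.neg_apply, neg_neg]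
  rw [h23 (g b) (g (a + b)) (g a), w_swap hw (g a) (g b)]
  simp

/-- For `A` of odd order the pencil `P = 0` gives all pencils. -/
lemma relD_of_zero {δ : B →ₗ[ℚ] W} {w : G →ₗ[ℚ] G →ₗ[ℚ] W} {t : A → A → B} {g : A → G}
    (h2 : ∀ P : A, ∃ Q, Q + Q = P) (hr : RelD δ w t g 0) (P : A) : RelD δ w t g P := by
  obtain ⟨Q, rfl⟩ := h2 P
  intro a b c d h1 h2 h3 h4 h5 h6 h7 h8 h9 h10 h11 h12
  have key := hr (a + Q) (b + Q) (c + Q) (d + Q)
    (fun h => h1 (add_right_cancel h)) (fun h => h2 (by rw [← h]; abel))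
    (fun h => h3 (add_right_cancel h)) (fun h => h4 (by rw [← h]; abel))
    (fun h => h5 (add_right_cancel h)) (fun h => h6 (by rw [← h]; abel))
    (fun h => h7 (add_right_cancel h)) (fun h => h8 (by rw [← h]; abel))
    (fun h => h9 (add_right_cancel h)) (fun h => h10 (by rw [← h]; abel))
    (fun h => h11 (add_right_cancel h)) (fun h => h12 (by rw [← h]; abel))
  have eth : ∀ x y z : A, th t 0 (x + Q) (y + Q) (z + Q) = th t (Q + Q) x y z := by
    intro x y z
    unfold th
    congr 1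
    · congr 1
      · congr 1
        · congr 1 <;> abel
        · congr 1 <;> abel
      · congr 1 <;> abel
    · congr 1 <;> abel
  have ess : ∀ x y : A, ss g 0 (x + Q) (y + Q) = ss g (Q + Q) x y := by
    intro x y
    unfold ss
    congr 1
    · congr 1; abel
    · congr 1; abel
  unfold CR at key ⊢
  rw [eth, eth, eth, eth, ess, ess, ess, ess, ess, ess] at key
  exact key

end fin

end Pool.Agent.K4ParP
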