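import Pool.Agent.Lib_helper86.K4.TGlue
import Pool.Agent.Lib_helper60.K4M.GT2
import Pool.Agent.Lib_helper60.K4M.Main2

set_option autoImplicit false
set_option linter.unusedSectionVars false
set_option linter.unnecessarySeqFocus false

/-!
The honest `t : T → T → B₂(F)` on all torsion points of an elliptic curve over an algebraically
closed field of characteristic zero, and the relations of all pencils in `H(F)`.
-/

namespace Pool.Agent.K4ParP

open Finset K4M WeierstrassCurve.Affine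

section TRel

variable {F : Type*} [Field F] [DecidableEq F] [CharZero F] {W : WeierstrassCurve.Affine F}

/-- the symbol of the pencil `P` for torsion points -/
noncomputable def fT (h2 : ∀ P : W.Point, ∃ Q, Q + Q = P) (P a b c d : TP W) : B2 F :=
  ff h2 (P : W.Point) a b c d

lemma isF_fT (hP : PencilStatement W) (h2 : ∀ P : W.Point, ∃ Q, Q + Q = P) :
    IsF (fT h2 : TP W → TP W → TP W → TP W → TP W → B2 F) := (isF_ff hP h2).restrict (TP W)

lemma TP_half (h2 : ∀ P : W.Point, ∃ Q, Q + Q = P) (P : TP W) : ∃ R : TP W, R + R = P := by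
  obtain ⟨R, hR⟩ := h2 P
  have hR' : R ∈ TP W := by
    obtain ⟨n, hn, h⟩ := mem_TP.mp P.2
    rw [mem_TP]
    refine ⟨n * 2, by positivity, ?_⟩
    rw [mul_smul, two_smul, hR, h]
  exact ⟨⟨R, hR'⟩, Subtype.ext hR⟩

lemma TP_third (h3 : ∀ P : W.Point, ∃ Q, Q + Q + Q = P) (P : TP W) : ∃ R : TP W, R + R + R = P := by
  obtain ⟨R, hR⟩ := h3 P
  have hR' : R ∈ TP W := by
    obtain ⟨n, hn, h⟩ := mem_TP.mp P.2
    rw [mem_TP]
    refine ⟨n * 3, by positivity, ?_⟩
    rw [mul_smul, show (3 : ℕ) • R = R + R + R by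
      rw [show (3 : ℕ) = 2 + 1 from rfl, add_smul, two_smul, one_smul], hR, h]
  exact ⟨⟨R, hR'⟩, Subtype.ext hR⟩

/-- Existence and uniqueness of `t` on all torsion points. -/
theorem exists_unique_tB (hP : PencilStatement W) (h2 : ∀ P : W.Point, ∃ Q, Q + Q = P)
    (h3 : ∀ P : W.Point, ∃ Q, Q + Q + Q = P) :
    ∃! t : TP W → TP W → B2 F, IsT t ∧ ∀ P a b c d : TP W, fT h2 P a b c d = CR t P a b c d :=
  exists_unique_t (isF_fT hP h2) TP_tor (fun n hn => finite_torS' n hn) (TP_third h3)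

/-- `t` on all torsion points -/
noncomputable def tB (hP : PencilStatement W) (h2 : ∀ P : W.Point, ∃ Q, Q + Q = P)
    (h3 : ∀ P : W.Point, ∃ Q, Q + Q + Q = P) : TP W → TP W → B2 F :=
  (exists_unique_tB hP h2 h3).exists.choose

variable (hP : PencilStatement W) (h2 : ∀ P : W.Point, ∃ Q, Q + Q = P)
  (h3 : ∀ P : W.Point, ∃ Q, Q + Q + Q = P)

lemma tB_isT : IsT (tB hP h2 h3) := (exists_unique_tB hP h2 h3).exists.choose_spec.1

lemma tB_CR (P a b c d : TP W) : fT h2 P a b c d = CR (tB hP h2 h3) P a b c d :=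
  (exists_unique_tB hP h2 h3).exists.choose_spec.2 P a b c d

omit [CharZero F] in
lemma dxT_ne {x y : TP W} (h1 : x ≠ y) (h2 : x ≠ -y) : dx (x : W.Point) y ≠ 0 := by
  refine dx_ne (fun h => h1 (Subtype.ext h)) (fun h => h2 (Subtype.ext (by simpa using h)))

/-- the relations of all pencils, honestly in `H(F)` -/
theorem rel_of_CR {t : TP W → TP W → B2 F}
    (hC : ∀ P a b c d : TP W, ff h2 (P : W.Point) a b c d = CR t P a b c d) (P : TP W) :
    Rel (hkL F) t gT P := by
  obtain ⟨R, hR⟩ := TP_half h2 P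
  intro a b c d hab hab' hac hac' had had' hbc hbc' hbd hbd' hcd hcd'
  rw [← hC]
  have hf : ff h2 (P : W.Point) a b c d = cr (dx : W.Point → W.Point → F) ((a + R : TP W) : W.Point)
      ((b + R : TP W) : W.Point) ((c + R : TP W) : W.Point) ((d + R : TP W) : W.Point) :=
    ff_eq h2 (by rw [← hR]; rfl) _ _ _ _
  rw [hf]
  have hne : ∀ x y : TP W, x ≠ y → x + y + P ≠ 0 → x + R ≠ y + R ∧ x + R ≠ -(y + R) := by
    intro x y h1 h2
    refine ⟨fun h => h1 (add_right_cancel h), fun h => h2 ?_⟩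
    rw [← hR, show x + y + (R + R) = (x + R) + (y + R) by abel, h]; abel
  have hlg : ∀ x y : TP W, x ≠ y → x + y + P ≠ 0 →
      lg (dx ((x + R : TP W) : W.Point) ((y + R : TP W) : W.Point)) =
      ss gT P x y - (2 : ℚ) • gT (x + R) - (2 : ℚ) • gT (y + R) := by
    intro x y h1 h2
    rw [gT_rel (hne x y h1 h2).1 (hne x y h1 h2).2]
    unfold ss
    rw [show x + R + (y + R) = x + y + P by rw [← hR]; abel, show x + R - (y + R) = x - y by abel]
    abel
  have hdx : ∀ x y : TP W, x ≠ y → x + y + P ≠ 0 →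
      dx ((x + R : TP W) : W.Point) ((y + R : TP W) : W.Point) ≠ 0 := fun x y h1 h2 =>
    dxT_ne (hne x y h1 h2).1 (hne x y h1 h2).2
  have n1 := hdx a b hab hab'
  have n2 := hdx c d hcd hcd'
  have n3 := hdx a c hac hac'
  have n4 := hdx b d hbd hbd'
  have key : lg (dx ((a + R : TP W) : W.Point) ((b + R : TP W) : W.Point) *
      dx ((c + R : TP W) : W.Point) ((d + R : TP W) : W.Point) /
      (dx ((a + R : TP W) : W.Point) ((c + R : TP W) : W.Point) *
      dx ((b + R : TP W) : W.Point) ((d + R : TP W) : W.Point))) =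
      ss gT P a b + ss gT P c d - ss gT P a c - ss gT P b d := by
    rw [lg_div (mul_ne_zero n1 n2) (mul_ne_zero n3 n4), lg_mul n1 n2, lg_mul n3 n4,
      hlg a b hab hab', hlg c d hcd hcd', hlg a c hac hac', hlg b d hbd hbd']
    module
  rw [← key]
  exact hkL_self _

theorem rel_tB (P : TP W) : Rel (hkL F) (tB hP h2 h3) gT P :=
  rel_of_CR h2 (tB_CR hP h2 h3) P

end TRel

end Pool.Agent.K4ParP
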