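import Pool.Agent.Lib_helper86.K4.ParP

set_option autoImplicit false
set_option linter.unusedSectionVars false
set_option linter.unnecessarySeqFocus false
set_option linter.unreachableTactic false
set_option linter.unusedTactic false

/-!
K4M, S1: sums over all pencils `P` of the basic relations.
(F)  `n ξ(x,y) = 3 (γ(x,y) + γ(y,x))`.
(R4) for `x + y + z + w = 0`:
`F'(x,y;z,w) + F'(y,z;w,x) + 1/3 (ξ(x,y)+ξ(y,z)+ξ(z,w)+ξ(w,x)-2ξ(x,z)-2ξ(y,w)) = 0`.
-/

namespace Pool.Agent.K4ParP

open Finset

variable {A B G H : Type*} [AddCommGroup A] [AddCommGroup B] [Module ℚ B]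
  [AddCommGroup G] [Module ℚ G] [AddCommGroup H] [Module ℚ H]
  {m : B →ₗ[ℚ] G →ₗ[ℚ] H} {t : A → A → B} {g : A → G}

lemma th_eq' (ht : IsT t) (P x y z : A) :
    th t P x y z = t (x - y) (y - z) + t (x - y) (y + z + P) + t (z - x) (x + y + P)
      + t (y - z) (z + x + P) := by
  unfold th
  have h1 : t (x + y + P) (-P - y - z) = t (z - x) (x + y + P) := by
    rw [← ht.rot (z - x) (x + y + P)]; congr 1; abel
  have h2 : t (-P - x - y) (y - z) = t (y - z) (z + x + P) := by
    rw [← ht.rot (-P - x - y) (y - z)]; congr 1; abel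
  rw [h1, h2]

variable [Fintype A]

/-- `Φ(x,y,z;s)` -/
def Ph (m : B →ₗ[ℚ] G →ₗ[ℚ] H) (t : A → A → B) (g : A → G) (x y z s : A) : H :=
  gam m t g (x - y) (s - y - z) + gam m t g (z - x) (s - x - y) + gam m t g (y - z) (s - z - x)

lemma sum_shift_gam (u c s : A) : ∑ P, m (t u (c + P)) (g (s + P)) = gam m t g u (s - c) := by
  unfold gam
  conv_rhs => rw [← Equiv.sum_comp (Equiv.addLeft c) _]
  simp only [Equiv.coe_addLeft]
  refine Finset.sum_congr rfl fun P _ => ?_
  congr 2; abel

lemma sum_shift_t (ht : IsT t) (u c : A) (x : G) : ∑ P, m (t u (c + P)) x = 0 := by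
  refine sum_left _ _ ?_
  rw [← sum_t ht u]
  exact Equiv.sum_comp (Equiv.addLeft c) (fun e => t u e)

/-- the sum over all pencils of `th_P(x,y,z) ⊗ s_P(u,v)` -/
lemma sumP (ht : IsT t) (x y z u v : A) :
    ∑ P, m (th t P x y z) (ss g P u v) =
      (Fintype.card A : ℚ) • m (t (x - y) (y - z)) (g (u - v))
        + m (t (x - y) (y - z)) (∑ a, g a) + Ph m t g x y z (u + v) := by
  have h : ∀ P, m (th t P x y z) (ss g P u v) =
      m (t (x - y) (y - z)) (g (u - v)) + m (t (x - y) (y - z)) (g (u + v + P))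
      + m (t (x - y) (y + z + P)) (g (u - v)) + m (t (x - y) (y + z + P)) (g (u + v + P))
      + m (t (z - x) (x + y + P)) (g (u - v)) + m (t (z - x) (x + y + P)) (g (u + v + P))
      + m (t (y - z) (z + x + P)) (g (u - v)) + m (t (y - z) (z + x + P)) (g (u + v + P)) := by
    intro P
    rw [th_eq' ht]
    unfold ss
    simp only [map_add, LinearMap.add_apply]
    abel
  simp only [h, Finset.sum_add_distrib]
  rw [sum_shift_gam, sum_shift_gam, sum_shift_gam, sum_shift_t ht, sum_shift_t ht,
    sum_shift_t ht, Finset.sum_const, Finset.card_univ, ← Nat.cast_smul_eq_nsmul ℚ]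
  have e : ∑ P, m (t (x - y) (y - z)) (g (u + v + P)) = m (t (x - y) (y - z)) (∑ a, g a) := by
    rw [sum_right]
    congr 1
    exact Equiv.sum_comp (Equiv.addLeft (u + v)) g
  rw [e]
  unfold Ph
  rw [show u + v - (y + z) = u + v - y - z by abel, show u + v - (x + y) = u + v - x - y by abel,
    show u + v - (z + x) = u + v - z - x by abel]
  abel

lemma gam_uu (ht : IsT t) (hg : IsG g) (hr : ∀ P, Rel m t g P) (u : A) : gam m t g u u = 0 := by
  have := gam_refl (m := m) ht hg u 0
  rw [sub_zero, f_zero ht hg hr u, neg_zero] at this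
  exact this

lemma sumP_PP (ht : IsT t) (hg : IsG g) (hr : ∀ P, Rel m t g P) (a b : A) :
    ∑ P, PP m t g P a b = 0 := by
  simp only [PP_eq ht hg, f_zero ht hg hr, ← Finset.smul_sum, Finset.sum_sub_distrib,
    Finset.sum_add_distrib]
  have h1 : ∑ P, gam m t g (a - b) (a + b + P) = 0 := by
    rw [← sum_gam2 (m := m) (g := g) ht (a - b)]
    exact Equiv.sum_comp (Equiv.addLeft (a + b)) (fun u => gam m t g (a - b) u)
  have h2 : ∑ P, gam m t g (a + b + P) (a - b) = 0 := by
    rw [← sum_gam1 (m := m) (g := g) ht (a - b)]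
    exact Equiv.sum_comp (Equiv.addLeft (a + b)) (fun u => gam m t g u (a - b))
  rw [h1, h2]; simp

lemma sumP_RR (ht : IsT t) (hg : IsG g) (a b c : A) :
    ∑ P, RR m t g P a b c = (2 * (Fintype.card A : ℚ)) • gam m t g (a - b) (c - b) := by
  unfold RR
  rw [Finset.sum_comm]
  simp only [sumP ht, Finset.sum_add_distrib, ← Finset.smul_sum]
  have e1 : ∑ d, m (t (a - b) (b - d)) (g (c - d)) = gam m t g (a - b) (c - b) := by
    unfold gam
    conv_rhs => rw [← Equiv.sum_comp (Equiv.subLeft b) _]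
    simp only [Equiv.subLeft_apply]
    refine Finset.sum_congr rfl fun d _ => ?_
    congr 2; abel
  have e2 : ∑ d, m (t (a - b) (b - d)) (∑ a, g a) = 0 := by
    refine sum_left _ _ ?_
    rw [← sum_t ht (a - b)]
    exact Equiv.sum_comp (Equiv.subLeft b) (fun e => t (a - b) e)
  have e3 : ∑ d, Ph m t g a b d (c + d) = (Fintype.card A : ℚ) • gam m t g (a - b) (c - b) := by
    unfold Ph
    simp only [Finset.sum_add_distrib]
    have f1 : ∀ d, gam m t g (a - b) (c + d - b - d) = gam m t g (a - b) (c - b) := by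
      intro d; congr 1; abel
    have f2 : ∑ d, gam m t g (d - a) (c + d - a - b) = 0 := by
      have : ∀ d, gam m t g (d - a) (c + d - a - b) = - gam m t g (d - a) (b - c) := by
        intro d
        rw [← gam_refl ht hg]
        congr 1; abel
      simp only [this, Finset.sum_neg_distrib]
      rw [neg_eq_zero, ← sum_gam1 (m := m) (g := g) ht (b - c)]
      exact Equiv.sum_comp (Equiv.subRight a) (fun u => gam m t g u (b - c))
    have f3 : ∑ d, gam m t g (b - d) (c + d - d - a) = 0 := by
      have : ∀ d, gam m t g (b - d) (c + d - d - a) = gam m t g (b - d) (c - a) := by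
        intro d; congr 1; abel
      simp only [this]
      rw [← sum_gam1 (m := m) (g := g) ht (c - a)]
      exact Equiv.sum_comp (Equiv.subLeft b) (fun u => gam m t g u (c - a))
    simp only [f1]
    rw [f2, f3, Finset.sum_const, Finset.card_univ, ← Nat.cast_smul_eq_nsmul ℚ]
    abel
  rw [e1, e2, e3]; module

/-- (F) `n ξ(x,y) = 3 (γ(x,y) + γ(y,x))`. -/
theorem xi_gam (ht : IsT t) (hg : IsG g) (hr : ∀ P, Rel m t g P) (x y : A) :
    (Fintype.card A : ℚ) • xi m t g x y = (3 : ℚ) • (gam m t g x y + gam m t g y x) := by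
  have hn : (Fintype.card A : ℚ) ≠ 0 := Nat.cast_ne_zero.mpr Fintype.card_ne_zero
  have h : ∑ P, (Fintype.card A : ℚ) • m (th t P 0 (-y) x) (ss g P 0 (-y) - ss g P 0 x) =
      ∑ P, (- PP m t g P 0 x - PP m t g P 0 (-y) + RR m t g P 0 x (-y) + RR m t g P 0 (-y) x) :=
    Finset.sum_congr rfl fun P _ => formIII ht hg (hr P) 0 (-y) x
  simp only [map_sub, ← Finset.smul_sum, Finset.sum_sub_distrib, Finset.sum_add_distrib,
    Finset.sum_neg_distrib, sumP ht, sumP_PP ht hg hr, sumP_RR ht hg] at h
  have hxi : xi m t g x y = m (t (0 - -y) (-y - x)) (g (0 - -y)) - m (t (0 - -y) (-y - x)) (g (0 - x)) := by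
    unfold xi
    rw [← map_sub, zero_sub, zero_sub, neg_neg, hg x, ← ht.rot x y, show -x - y = -y - x by abel]
  have r1 : gam m t g x (x + y) = - gam m t g x (-y) := by
    rw [← gam_refl ht hg]; congr 1; abel
  have r2 : gam m t g y (x + y) = - gam m t g y (-x) := by
    rw [← gam_refl ht hg]; congr 1; abel
  have p1 : Ph m t g 0 (-y) x (0 + -y) = gam m t g y (-x) := by
    unfold Ph
    rw [show (0 : A) - -y = y by abel, show (0 : A) + -y - -y - x = -x by abel,
      show (0 : A) + -y - 0 - -y = 0 by abel, show (0 : A) + -y - x - 0 = -y - x by abel,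
      f_zero ht hg hr, gam_uu ht hg hr]
    abel
  have p2 : Ph m t g 0 (-y) x (0 + x) = - gam m t g x (-y) := by
    unfold Ph
    rw [show (0 : A) - -y = y by abel, show (0 : A) + x - -y - x = y by abel,
      show (0 : A) + x - 0 - -y = x + y by abel, show (0 : A) + x - x - 0 = 0 by abel,
      f_zero ht hg hr, gam_uu ht hg hr, show x - 0 = x by abel, r1]
    abel
  have q1 : gam m t g (0 - x) (-y - x) = - gam m t g x (-y) := by
    rw [zero_sub, gam_neg ht hg, show -(-y - x) = x + y by abel, r1]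
  have q2 : gam m t g (0 - -y) (x - -y) = - gam m t g y (-x) := by
    rw [show (0 : A) - -y = y by abel, show x - -y = x + y by abel, r2]
  rw [p1, p2, q1, q2] at h
  have key : gam m t g x y + gam m t g x (-y) + gam m t g y x + gam m t g y (-x) = 0 := by
    rw [formII' ht hg hr x y, f_zero ht hg hr, f_zero ht hg hr]; simp
  have h2 : (Fintype.card A : ℚ) • ((Fintype.card A : ℚ) • xi m t g x y
      - (3 : ℚ) • (gam m t g x y + gam m t g y x)) = 0 := by
    rw [hxi]
    linear_combination (norm := module) h - (3 * (Fintype.card A : ℚ)) • key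
  exact sub_eq_zero.mp ((smul_eq_zero.mp h2).resolve_left hn)

lemma R4_aux (ht : IsT t) (hg : IsG g) (hr : ∀ P, Rel m t g P) (x y z : A) :
    m (t x y) (g (-x - y - z) - g z) + m (t z (-x - y - z)) (g y - g x)
      + m (t y z) (g x - g (-x - y - z)) + m (t (-x - y - z) x) (g z - g y)
      + (1 / 3 : ℚ) • (xi m t g x y + xi m t g y z + xi m t g z (-x - y - z)
        + xi m t g (-x - y - z) x - (2 : ℚ) • xi m t g x z
        - (2 : ℚ) • xi m t g y (-x - y - z)) = 0 := by
  have hn : (Fintype.card A : ℚ) ≠ 0 := Nat.cast_ne_zero.mpr Fintype.card_ne_zero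
  have h : ∑ P, m (CR t P (x + y) y (-z) 0) (ss g P (x + y) y + ss g P (-z) 0
      - ss g P (x + y) (-z) - ss g P y 0) = 0 :=
    Finset.sum_eq_zero fun P _ => rel_all ht (hr P) (x + y) y (-z) 0
  unfold CR at h
  simp only [map_add, map_sub, LinearMap.add_apply, LinearMap.sub_apply, Finset.sum_add_distrib,
    Finset.sum_sub_distrib, sumP ht] at h
  have k1 : gam m t g (y - (-z)) (((x + y) + y) - (-z) - (0 : A)) = gam m t g (y + z) (x + (y + y) + z) := by
    congr 1 <;> abel
  have k2 : gam m t g ((0 : A) - y) (((x + y) + y) - y - (-z)) = - gam m t g (y) (x + (y + y) + z) := by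
    rw [← gam_refl ht hg, show (0 : A) - y = -(y) by abel, gam_neg ht hg]; congr 1 <;> abel
  have k3 : gam m t g ((-z) - (0 : A)) (((x + y) + y) - (0 : A) - y) = - gam m t g (z) (x + y + z) := by
    rw [← gam_refl ht hg, show (-z) - (0 : A) = -(z) by abel, gam_neg ht hg]; congr 1 <;> abel
  have f1 : Ph m t g y (-z) (0 : A) ((x + y) + y) = gam m t g (y + z) (x + (y + y) + z) - gam m t g (y) (x + (y + y) + z) - gam m t g (z) (x + y + z) := by
    unfold Ph; rw [k1, k2, k3]; abel
  have k4 : gam m t g ((x + y) - (-z)) (((x + y) + y) - (-z) - (0 : A)) = gam m t g (x + y + z) (x + (y + y) + z) := by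
    congr 1 <;> abel
  have k5 : gam m t g ((0 : A) - (x + y)) (((x + y) + y) - (x + y) - (-z)) = - gam m t g (x + y) (x + (y + y) + z) := by
    rw [← gam_refl ht hg, show (0 : A) - (x + y) = -(x + y) by abel, gam_neg ht hg]; congr 1 <;> abel
  have k6 : gam m t g ((-z) - (0 : A)) (((x + y) + y) - (0 : A) - (x + y)) = - gam m t g (z) (y + z) := by
    rw [← gam_refl ht hg, show (-z) - (0 : A) = -(z) by abel, gam_neg ht hg]; congr 1 <;> abel
  have f2 : Ph m t g (x + y) (-z) (0 : A) ((x + y) + y) = gam m t g (x + y + z) (x + (y + y) + z) - gam m t g (x + y) (x + (y + y) + z) - gam m t g (z) (y + z) := by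
    unfold Ph; rw [k4, k5, k6]; abel
  have k7 : gam m t g ((x + y) - y) (((x + y) + y) - y - (0 : A)) = gam m t g (x) (x + y) := by
    congr 1 <;> abel
  have k8 : gam m t g ((0 : A) - (x + y)) (((x + y) + y) - (x + y) - y) = 0 := by
    rw [show ((x + y) + y) - (x + y) - y = 0 by abel, f_zero ht hg hr]
  have k9 : gam m t g (y - (0 : A)) (((x + y) + y) - (0 : A) - (x + y)) = 0 := by
    rw [show ((x + y) + y) - (0 : A) - (x + y) = y - (0 : A) by abel, gam_uu ht hg hr]
  have f3 : Ph m t g (x + y) y (0 : A) ((x + y) + y) = gam m t g (x) (x + y) := by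
    unfold Ph; rw [k7, k8, k9]; abel
  have k10 : gam m t g ((x + y) - y) (((x + y) + y) - y - (-z)) = gam m t g (x) (x + y + z) := by
    congr 1 <;> abel
  have k11 : gam m t g ((-z) - (x + y)) (((x + y) + y) - (x + y) - y) = 0 := by
    rw [show ((x + y) + y) - (x + y) - y = 0 by abel, f_zero ht hg hr]
  have k12 : gam m t g (y - (-z)) (((x + y) + y) - (-z) - (x + y)) = 0 := by
    rw [show ((x + y) + y) - (-z) - (x + y) = y - (-z) by abel, gam_uu ht hg hr]
  have f4 : Ph m t g (x + y) y (-z) ((x + y) + y) = gam m t g (x) (x + y + z) := by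
    unfold Ph; rw [k10, k11, k12]; abel
  have k13 : gam m t g (y - (-z)) (((-z) + (0 : A)) - (-z) - (0 : A)) = 0 := by
    rw [show ((-z) + (0 : A)) - (-z) - (0 : A) = 0 by abel, f_zero ht hg hr]
  have k14 : gam m t g ((0 : A) - y) (((-z) + (0 : A)) - y - (-z)) = 0 := by
    rw [show ((-z) + (0 : A)) - y - (-z) = (0 : A) - y by abel, gam_uu ht hg hr]
  have k15 : gam m t g ((-z) - (0 : A)) (((-z) + (0 : A)) - (0 : A) - y) = gam m t g (z) (y + z) := by
    rw [show (-z) - (0 : A) = -(z) by abel, gam_neg ht hg]; congr 1 <;> abel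
  have f5 : Ph m t g y (-z) (0 : A) ((-z) + (0 : A)) = gam m t g (z) (y + z) := by
    unfold Ph; rw [k13, k14, k15]; abel
  have k16 : gam m t g ((x + y) - (-z)) (((-z) + (0 : A)) - (-z) - (0 : A)) = 0 := by
    rw [show ((-z) + (0 : A)) - (-z) - (0 : A) = 0 by abel, f_zero ht hg hr]
  have k17 : gam m t g ((0 : A) - (x + y)) (((-z) + (0 : A)) - (x + y) - (-z)) = 0 := by
    rw [show ((-z) + (0 : A)) - (x + y) - (-z) = (0 : A) - (x + y) by abel, gam_uu ht hg hr]
  have k18 : gam m t g ((-z) - (0 : A)) (((-z) + (0 : A)) - (0 : A) - (x + y)) = gam m t g (z) (x + y + z) := by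
    rw [show (-z) - (0 : A) = -(z) by abel, gam_neg ht hg]; congr 1 <;> abel
  have f6 : Ph m t g (x + y) (-z) (0 : A) ((-z) + (0 : A)) = gam m t g (z) (x + y + z) := by
    unfold Ph; rw [k16, k17, k18]; abel
  have k19 : gam m t g ((x + y) - y) (((-z) + (0 : A)) - y - (0 : A)) = - gam m t g (x) (x + y + z) := by
    rw [← gam_refl ht hg]; congr 1 <;> abel
  have k20 : gam m t g ((0 : A) - (x + y)) (((-z) + (0 : A)) - (x + y) - y) = gam m t g (x + y) (x + (y + y) + z) := by
    rw [show (0 : A) - (x + y) = -(x + y) by abel, gam_neg ht hg]; congr 1 <;> abel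
  have k21 : gam m t g (y - (0 : A)) (((-z) + (0 : A)) - (0 : A) - (x + y)) = - gam m t g (y) (x + (y + y) + z) := by
    rw [← gam_refl ht hg]; congr 1 <;> abel
  have f7 : Ph m t g (x + y) y (0 : A) ((-z) + (0 : A)) = -gam m t g (x) (x + y + z) + gam m t g (x + y) (x + (y + y) + z) - gam m t g (y) (x + (y + y) + z) := by
    unfold Ph; rw [k19, k20, k21]; abel
  have k22 : gam m t g ((x + y) - y) (((-z) + (0 : A)) - y - (-z)) = - gam m t g (x) (x + y) := by
    rw [← gam_refl ht hg]; congr 1 <;> abel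
  have k23 : gam m t g ((-z) - (x + y)) (((-z) + (0 : A)) - (x + y) - y) = gam m t g (x + y + z) (x + (y + y) + z) := by
    rw [show (-z) - (x + y) = -(x + y + z) by abel, gam_neg ht hg]; congr 1 <;> abel
  have k24 : gam m t g (y - (-z)) (((-z) + (0 : A)) - (-z) - (x + y)) = - gam m t g (y + z) (x + (y + y) + z) := by
    rw [← gam_refl ht hg]; congr 1 <;> abel
  have f8 : Ph m t g (x + y) y (-z) ((-z) + (0 : A)) = -gam m t g (x) (x + y) + gam m t g (x + y + z) (x + (y + y) + z) - gam m t g (y + z) (x + (y + y) + z) := by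
    unfold Ph; rw [k22, k23, k24]; abel
  have k25 : gam m t g (y - (-z)) (((x + y) + (-z)) - (-z) - (0 : A)) = gam m t g (y + z) (x + y) := by
    congr 1 <;> abel
  have k26 : gam m t g ((0 : A) - y) (((x + y) + (-z)) - y - (-z)) = - gam m t g (y) (x + y) := by
    rw [← gam_refl ht hg, show (0 : A) - y = -(y) by abel, gam_neg ht hg]; congr 1 <;> abel
  have k27 : gam m t g ((-z) - (0 : A)) (((x + y) + (-z)) - (0 : A) - y) = - gam m t g (z) (x) := by
    rw [← gam_refl ht hg, show (-z) - (0 : A) = -(z) by abel, gam_neg ht hg]; congr 1 <;> abel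
  have f9 : Ph m t g y (-z) (0 : A) ((x + y) + (-z)) = gam m t g (y + z) (x + y) - gam m t g (y) (x + y) - gam m t g (z) (x) := by
    unfold Ph; rw [k25, k26, k27]; abel
  have k28 : gam m t g ((x + y) - (-z)) (((x + y) + (-z)) - (-z) - (0 : A)) = gam m t g (x + y + z) (x + y) := by
    congr 1 <;> abel
  have k29 : gam m t g ((0 : A) - (x + y)) (((x + y) + (-z)) - (x + y) - (-z)) = 0 := by
    rw [show ((x + y) + (-z)) - (x + y) - (-z) = 0 by abel, f_zero ht hg hr]
  have k30 : gam m t g ((-z) - (0 : A)) (((x + y) + (-z)) - (0 : A) - (x + y)) = 0 := by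
    rw [show ((x + y) + (-z)) - (0 : A) - (x + y) = (-z) - (0 : A) by abel, gam_uu ht hg hr]
  have f10 : Ph m t g (x + y) (-z) (0 : A) ((x + y) + (-z)) = gam m t g (x + y + z) (x + y) := by
    unfold Ph; rw [k28, k29, k30]; abel
  have k31 : gam m t g ((x + y) - y) (((x + y) + (-z)) - y - (0 : A)) = gam m t g (x) (x - z) := by
    congr 1 <;> abel
  have k32 : gam m t g ((0 : A) - (x + y)) (((x + y) + (-z)) - (x + y) - y) = - gam m t g (x + y) (x - z) := by
    rw [← gam_refl ht hg, show (0 : A) - (x + y) = -(x + y) by abel, gam_neg ht hg]; congr 1 <;> abel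
  have k33 : gam m t g (y - (0 : A)) (((x + y) + (-z)) - (0 : A) - (x + y)) = - gam m t g (y) (y + z) := by
    rw [← gam_refl ht hg]; congr 1 <;> abel
  have f11 : Ph m t g (x + y) y (0 : A) ((x + y) + (-z)) = gam m t g (x) (x - z) - gam m t g (x + y) (x - z) - gam m t g (y) (y + z) := by
    unfold Ph; rw [k31, k32, k33]; abel
  have k34 : gam m t g ((x + y) - y) (((x + y) + (-z)) - y - (-z)) = 0 := by
    rw [show ((x + y) + (-z)) - y - (-z) = (x + y) - y by abel, gam_uu ht hg hr]
  have k35 : gam m t g ((-z) - (x + y)) (((x + y) + (-z)) - (x + y) - y) = - gam m t g (x + y + z) (x) := by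
    rw [← gam_refl ht hg, show (-z) - (x + y) = -(x + y + z) by abel, gam_neg ht hg]; congr 1 <;> abel
  have k36 : gam m t g (y - (-z)) (((x + y) + (-z)) - (-z) - (x + y)) = 0 := by
    rw [show ((x + y) + (-z)) - (-z) - (x + y) = 0 by abel, f_zero ht hg hr]
  have f12 : Ph m t g (x + y) y (-z) ((x + y) + (-z)) = -gam m t g (x + y + z) (x) := by
    unfold Ph; rw [k34, k35, k36]; abel
  have k37 : gam m t g (y - (-z)) ((y + (0 : A)) - (-z) - (0 : A)) = 0 := by
    rw [show (y + (0 : A)) - (-z) - (0 : A) = y - (-z) by abel, gam_uu ht hg hr]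
  have k38 : gam m t g ((0 : A) - y) ((y + (0 : A)) - y - (-z)) = - gam m t g (y) (y + z) := by
    rw [← gam_refl ht hg, show (0 : A) - y = -(y) by abel, gam_neg ht hg]; congr 1 <;> abel
  have k39 : gam m t g ((-z) - (0 : A)) ((y + (0 : A)) - (0 : A) - y) = 0 := by
    rw [show (y + (0 : A)) - (0 : A) - y = 0 by abel, f_zero ht hg hr]
  have f13 : Ph m t g y (-z) (0 : A) (y + (0 : A)) = -gam m t g (y) (y + z) := by
    unfold Ph; rw [k37, k38, k39]; abel
  have k40 : gam m t g ((x + y) - (-z)) ((y + (0 : A)) - (-z) - (0 : A)) = - gam m t g (x + y + z) (x) := by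
    rw [← gam_refl ht hg]; congr 1 <;> abel
  have k41 : gam m t g ((0 : A) - (x + y)) ((y + (0 : A)) - (x + y) - (-z)) = gam m t g (x + y) (x - z) := by
    rw [show (0 : A) - (x + y) = -(x + y) by abel, gam_neg ht hg]; congr 1 <;> abel
  have k42 : gam m t g ((-z) - (0 : A)) ((y + (0 : A)) - (0 : A) - (x + y)) = gam m t g (z) (x) := by
    rw [show (-z) - (0 : A) = -(z) by abel, gam_neg ht hg]; congr 1 <;> abel
  have f14 : Ph m t g (x + y) (-z) (0 : A) (y + (0 : A)) = -gam m t g (x + y + z) (x) + gam m t g (x + y) (x - z) + gam m t g (z) (x) := by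
    unfold Ph; rw [k40, k41, k42]
  have k43 : gam m t g ((x + y) - y) ((y + (0 : A)) - y - (0 : A)) = 0 := by
    rw [show (y + (0 : A)) - y - (0 : A) = 0 by abel, f_zero ht hg hr]
  have k44 : gam m t g ((0 : A) - (x + y)) ((y + (0 : A)) - (x + y) - y) = 0 := by
    rw [show (y + (0 : A)) - (x + y) - y = (0 : A) - (x + y) by abel, gam_uu ht hg hr]
  have k45 : gam m t g (y - (0 : A)) ((y + (0 : A)) - (0 : A) - (x + y)) = - gam m t g (y) (x + y) := by
    rw [← gam_refl ht hg]; congr 1 <;> abel
  have f15 : Ph m t g (x + y) y (0 : A) (y + (0 : A)) = -gam m t g (y) (x + y) := by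
    unfold Ph; rw [k43, k44, k45]; abel
  have k46 : gam m t g ((x + y) - y) ((y + (0 : A)) - y - (-z)) = - gam m t g (x) (x - z) := by
    rw [← gam_refl ht hg]; congr 1 <;> abel
  have k47 : gam m t g ((-z) - (x + y)) ((y + (0 : A)) - (x + y) - y) = gam m t g (x + y + z) (x + y) := by
    rw [show (-z) - (x + y) = -(x + y + z) by abel, gam_neg ht hg]; congr 1 <;> abel
  have k48 : gam m t g (y - (-z)) ((y + (0 : A)) - (-z) - (x + y)) = - gam m t g (y + z) (x + y) := by
    rw [← gam_refl ht hg]; congr 1 <;> abel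
  have f16 : Ph m t g (x + y) y (-z) (y + (0 : A)) = -gam m t g (x) (x - z) + gam m t g (x + y + z) (x + y) - gam m t g (y + z) (x + y) := by
    unfold Ph; rw [k46, k47, k48]; abel
  have k49 : gam m t g (x) (y) = - gam m t g (x) (x - y) := by
    rw [← gam_refl ht hg]; congr 1 <;> abel
  have k50 : gam m t g (x) (z) = - gam m t g (x) (x - z) := by
    rw [← gam_refl ht hg]; congr 1 <;> abel
  have k51 : gam m t g (x) ((-x - y - z)) = - gam m t g (x) ((x + x) + y + z) := by
    rw [← gam_refl ht hg]; congr 1 <;> abel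
  have k52 : gam m t g (y) (x) = gam m t g (y) (x) := by
    congr 1 <;> abel
  have k53 : gam m t g (y) (z) = - gam m t g (y) (y - z) := by
    rw [← gam_refl ht hg]; congr 1 <;> abel
  have k54 : gam m t g (y) ((-x - y - z)) = - gam m t g (y) (x + (y + y) + z) := by
    rw [← gam_refl ht hg]; congr 1 <;> abel
  have k55 : gam m t g (z) (x) = gam m t g (z) (x) := by
    congr 1 <;> abel
  have k56 : gam m t g (z) (y) = gam m t g (z) (y) := by
    congr 1 <;> abel
  have k57 : gam m t g (z) ((-x - y - z)) = - gam m t g (z) (x + y + (z + z)) := by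
    rw [← gam_refl ht hg]; congr 1 <;> abel
  have k58 : gam m t g ((-x - y - z)) (x) = - gam m t g (x + y + z) ((x + x) + y + z) := by
    rw [← gam_refl ht hg, show (-x - y - z) = -(x + y + z) by abel, gam_neg ht hg]; congr 1 <;> abel
  have k59 : gam m t g ((-x - y - z)) (y) = - gam m t g (x + y + z) (x + (y + y) + z) := by
    rw [← gam_refl ht hg, show (-x - y - z) = -(x + y + z) by abel, gam_neg ht hg]; congr 1 <;> abel
  have k60 : gam m t g ((-x - y - z)) (z) = - gam m t g (x + y + z) (x + y + (z + z)) := by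
    rw [← gam_refl ht hg, show (-x - y - z) = -(x + y + z) by abel, gam_neg ht hg]; congr 1 <;> abel
  have i1 : gam m t g x y + gam m t g x (-y) + gam m t g y x + gam m t g y (-x) = 0 := by
    rw [formII' ht hg hr, f_zero ht hg hr, f_zero ht hg hr]; simp
  have k61 : gam m t g (x) (y) = - gam m t g (x) (x - y) := by
    rw [← gam_refl ht hg]; congr 1 <;> abel
  have k62 : gam m t g (x) (-y) = - gam m t g (x) (x + y) := by
    rw [← gam_refl ht hg]; congr 1 <;> abel
  have k63 : gam m t g (y) (x) = gam m t g (y) (x) := by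
    congr 1 <;> abel
  have k64 : gam m t g (y) (-x) = - gam m t g (y) (x + y) := by
    rw [← gam_refl ht hg]; congr 1 <;> abel
  rw [k61, k62, k63, k64] at i1
  have i2 : gam m t g x (-x - y - z) + gam m t g x (-(-x - y - z)) + gam m t g (-x - y - z) x + gam m t g (-x - y - z) (-x) = 0 := by
    rw [formII' ht hg hr, f_zero ht hg hr, f_zero ht hg hr]; simp
  have k65 : gam m t g (x) ((-x - y - z)) = - gam m t g (x) ((x + x) + y + z) := by
    rw [← gam_refl ht hg]; congr 1 <;> abel
  have k66 : gam m t g (x) (-(-x - y - z)) = gam m t g (x) (x + y + z) := by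
    congr 1 <;> abel
  have k67 : gam m t g ((-x - y - z)) (x) = - gam m t g (x + y + z) ((x + x) + y + z) := by
    rw [← gam_refl ht hg, show (-x - y - z) = -(x + y + z) by abel, gam_neg ht hg]; congr 1 <;> abel
  have k68 : gam m t g ((-x - y - z)) (-x) = gam m t g (x + y + z) (x) := by
    rw [show (-x - y - z) = -(x + y + z) by abel, gam_neg ht hg]; congr 1 <;> abel
  rw [k65, k66, k67, k68] at i2
  have i3 : gam m t g y z + gam m t g y (-z) + gam m t g z y + gam m t g z (-y) = 0 := by
    rw [formII' ht hg hr, f_zero ht hg hr, f_zero ht hg hr]; simp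
  have k69 : gam m t g (y) (z) = - gam m t g (y) (y - z) := by
    rw [← gam_refl ht hg]; congr 1 <;> abel
  have k70 : gam m t g (y) (-z) = - gam m t g (y) (y + z) := by
    rw [← gam_refl ht hg]; congr 1 <;> abel
  have k71 : gam m t g (z) (y) = gam m t g (z) (y) := by
    congr 1 <;> abel
  have k72 : gam m t g (z) (-y) = - gam m t g (z) (y + z) := by
    rw [← gam_refl ht hg]; congr 1 <;> abel
  rw [k69, k70, k71, k72] at i3
  have i4 : gam m t g z (-x - y - z) + gam m t g z (-(-x - y - z)) + gam m t g (-x - y - z) z + gam m t g (-x - y - z) (-z) = 0 := by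
    rw [formII' ht hg hr, f_zero ht hg hr, f_zero ht hg hr]; simp
  have k73 : gam m t g (z) ((-x - y - z)) = - gam m t g (z) (x + y + (z + z)) := by
    rw [← gam_refl ht hg]; congr 1 <;> abel
  have k74 : gam m t g (z) (-(-x - y - z)) = gam m t g (z) (x + y + z) := by
    congr 1 <;> abel
  have k75 : gam m t g ((-x - y - z)) (z) = - gam m t g (x + y + z) (x + y + (z + z)) := by
    rw [← gam_refl ht hg, show (-x - y - z) = -(x + y + z) by abel, gam_neg ht hg]; congr 1 <;> abel
  have k76 : gam m t g ((-x - y - z)) (-z) = - gam m t g (x + y + z) (x + y) := by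
    rw [← gam_refl ht hg, show (-x - y - z) = -(x + y + z) by abel, gam_neg ht hg]; congr 1 <;> abel
  rw [k73, k74, k75, k76] at i4
  have i5 : gam m t g (x + y) (y + z) + gam m t g (x + y) (-(y + z)) + gam m t g (y + z) (x + y) + gam m t g (y + z) (-(x + y)) = 0 := by
    rw [formII' ht hg hr, f_zero ht hg hr, f_zero ht hg hr]; simp
  have k77 : gam m t g ((x + y)) ((y + z)) = - gam m t g (x + y) (x - z) := by
    rw [← gam_refl ht hg]; congr 1 <;> abel
  have k78 : gam m t g ((x + y)) (-(y + z)) = - gam m t g (x + y) (x + (y + y) + z) := by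
    rw [← gam_refl ht hg]; congr 1 <;> abel
  have k79 : gam m t g ((y + z)) ((x + y)) = gam m t g (y + z) (x + y) := by
    congr 1 <;> abel
  have k80 : gam m t g ((y + z)) (-(x + y)) = - gam m t g (y + z) (x + (y + y) + z) := by
    rw [← gam_refl ht hg]; congr 1 <;> abel
  rw [k77, k78, k79, k80] at i5

  have T1 : t (y - (-z)) (-z - 0) = - t y z := by
    calc t (y - (-z)) (-z - 0) = t (-(-y - z)) (-z) := by congr 1 <;> abel
      _ = t (-y - z) z := ht.even _ _
      _ = - t z (-y - z) := ht.swap _ _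
      _ = - t y z := by rw [ht.rot]
  have T2 : t (x + y - (-z)) (-z - 0) = - t z (-x - y - z) := by
    calc t (x + y - (-z)) (-z - 0) = t (-(-x - y - z)) (-z) := by congr 1 <;> abel
      _ = t (-x - y - z) z := ht.even _ _
      _ = - t z (-x - y - z) := ht.swap _ _
  have T3 : t (x + y - y) (y - 0) = t x y := by congr 1 <;> abel
  have T4 : t (x + y - y) (y - (-z)) = t (-x - y - z) x := by
    rw [← ht.rot (-x - y - z) x]; congr 1 <;> abel
  have G1 : g (x + y - y) = g x := by congr 1; abel
  have G2 : g (-z - 0) = g z := by rw [sub_zero, hg]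
  have G3 : g (x + y - (-z)) = g (-x - y - z) := by rw [← hg]; congr 1; abel
  have G4 : g (y - 0) = g y := by congr 1; abel
  rw [T1, T2, T3, T4, G1, G2, G3, G4, f1, f2, f3, f4, f5, f6, f7, f8, f9, f10, f11, f12, f13, f14,
    f15, f16] at h
  have X1 := xi_gam (m := m) ht hg hr x y
  have X2 := xi_gam (m := m) ht hg hr y z
  have X3 := xi_gam (m := m) ht hg hr z (-x - y - z)
  have X4 := xi_gam (m := m) ht hg hr (-x - y - z) x
  have X5 := xi_gam (m := m) ht hg hr x z
  have X6 := xi_gam (m := m) ht hg hr y (-x - y - z)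
  rw [k49, k52] at X1
  rw [k53, k56] at X2
  rw [k57, k60] at X3
  rw [k58, k51] at X4
  rw [k50, k55] at X5
  rw [k54, k59] at X6
  have xe : ∀ a b, xi m t g a b = m (t a b) (g b) - m (t a b) (g a) := by
    intro a b; unfold xi; rw [map_sub]
  rw [xe] at X1 X2 X3 X4
  rw [xe x y, xe y z, xe z, xe _ x]
  simp only [map_neg, LinearMap.neg_apply] at h
  simp only [map_sub]
  have h2 : (Fintype.card A : ℚ) • (m (t x y) (g (-x - y - z)) - m (t x y) (g z)
      + (m (t z (-x - y - z)) (g y) - m (t z (-x - y - z)) (g x))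
      + (m (t y z) (g x) - m (t y z) (g (-x - y - z)))
      + (m (t (-x - y - z) x) (g z) - m (t (-x - y - z) x) (g y))
      + (1 / 3 : ℚ) • (m (t x y) (g y) - m (t x y) (g x) + (m (t y z) (g z) - m (t y z) (g y))
        + (m (t z (-x - y - z)) (g (-x - y - z)) - m (t z (-x - y - z)) (g z))
        + (m (t (-x - y - z) x) (g x) - m (t (-x - y - z) x) (g (-x - y - z)))
        - (2 : ℚ) • xi m t g x z - (2 : ℚ) • xi m t g y (-x - y - z))) = 0 := by
    linear_combination (norm := module) -h - (2 : ℚ) • (i1 + i2 + i3 + i4 + i5)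
      - (2 / 3 : ℚ) • (X1 + X2 + X3 + X4 + X5 + X6)
  exact (smul_eq_zero.mp h2).resolve_left hn

/-- (R4), for all `x + y + z + w = 0`. -/
theorem R4 (ht : IsT t) (hg : IsG g) (hr : ∀ P, Rel m t g P) (x y z w : A)
    (hs : x + y + z + w = 0) :
    m (t x y) (g w - g z) + m (t z w) (g y - g x)
      + m (t y z) (g x - g w) + m (t w x) (g z - g y)
      + (1 / 3 : ℚ) • (xi m t g x y + xi m t g y z + xi m t g z w
        + xi m t g w x - (2 : ℚ) • xi m t g x z
        - (2 : ℚ) • xi m t g y w) = 0 := by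
  have hw : w = -x - y - z := by
    have := eq_neg_of_add_eq_zero_right hs
    rw [this]; abel
  rw [hw]
  exact R4_aux ht hg hr x y z

section

variable (ht : IsT t) (hg : IsG g) (hr : ∀ P, Rel m t g P)
include ht hg

lemma xi_symm (a b : A) : xi m t g b a = xi m t g a b := by
  unfold xi
  rw [ht.swap a b, ← neg_sub (g b) (g a)]
  simp only [map_neg, LinearMap.neg_apply, neg_neg]

lemma xi_neg_neg (a b : A) : xi m t g (-a) (-b) = xi m t g a b := by
  unfold xi
  rw [ht.even, hg, hg]

/-- three term relation -/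
lemma xi_tri (a b : A) : xi m t g a b + xi m t g b (-a - b) + xi m t g (-a - b) a = 0 := by
  unfold xi
  have h1 : t b (-a - b) = t a b := ht.rot a b
  have h2 : t (-a - b) a = t a b := by
    have := ht.rot (-a - b) a
    rw [show -(-a - b) - a = b by abel] at this
    exact this.symm
  rw [h1, h2, ← map_add, ← map_add]
  rw [show g b - g a + (g (-a - b) - g b) + (g a - g (-a - b)) = 0 by abel, map_zero]

include hr

lemma xi_neg_left (a b : A) : xi m t g (-a) b = - xi m t g a b := by
  rw [← xi_neg_neg ht hg, neg_neg, parity ht hg hr]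

/-- (R4) in the form of helper24. -/
theorem R4' (e q s : A) :
    m (t (e + s) q) (g s - g (e + q)) + m (t (e + q) s) (g q - g (e + s))
      + m (t e q) (g (e + s) - g s) + m (t e s) (g (e + q) - g q)
      + (1 / 3 : ℚ) • (xi m t g (e + s) q - xi m t g q (e + q) + xi m t g (e + q) s
        - xi m t g s (e + s) + (2 : ℚ) • xi m t g (e + s) (e + q) + (2 : ℚ) • xi m t g q s) = 0 := by
  have h := R4 ht hg hr (e + s) q (-(e + q)) (-s) (by abel)
  have t1 : t (-(e + q)) (-s) = t (e + q) s := ht.even _ _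
  have t2 : t q (-(e + q)) = t e q := by
    rw [← ht.rot e q]; congr 1; abel
  have t3 : t (-s) (e + s) = t e s := by
    rw [← ht.even, neg_neg, ← ht.rot e s]; congr 1; abel
  rw [t1, t2, t3, hg, hg, parity ht hg hr q (e + q), xi_neg_neg ht hg (e + q) s,
    xi_neg_left ht hg hr s (e + s), parity ht hg hr (e + s) (e + q), parity ht hg hr q s] at h
  linear_combination (norm := module) h

end

end Pool.Agent.K4ParP
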