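import Pool.Agent.Lib_helper86.K4.TGeo
import Pool.Agent.Lib_helper86.K4.S1

set_option autoImplicit false
set_option linter.unusedSectionVars false
set_option linter.unnecessarySeqFocus false

/-!
Gluing: for a torsion group `T` with finite torsion subgroups, divisible by three, the symbols
`f` of the pencils come from one alternating even function `t : T → T → B`.
-/

namespace Pool.Agent.K4ParP

open Finset

section Glue

variable {T B : Type*} [AddCommGroup T] [AddCommGroup B] [Module ℚ B]

/-- the `n`-torsion subgroup -/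
def torN (T : Type*) [AddCommGroup T] (n : ℕ) : AddSubgroup T where
  carrier := {x | n • x = 0}
  add_mem' := by
    intro a b ha hb
    show n • (a + b) = 0
    rw [smul_add, show n • a = 0 from ha, show n • b = 0 from hb, add_zero]
  zero_mem' := smul_zero n
  neg_mem' := by
    intro a ha
    show n • (-a) = 0
    rw [smul_neg, show n • a = 0 from ha, neg_zero]

lemma mem_torN {n : ℕ} {x : T} : x ∈ torN T n ↔ n • x = 0 := Iff.rfl

lemma torN_le {n m : ℕ} (h : n ∣ m) : torN T n ≤ torN T m := by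
  obtain ⟨k, rfl⟩ := h
  intro x hx
  rw [mem_torN] at hx ⊢
  rw [mul_comm, mul_smul, hx, smul_zero]

/-- uniqueness of `t` on a finite subgroup -/
lemma unique_sub {f : T → T → T → T → T → B} (A : AddSubgroup T) [Finite A]
    {t t' : A → A → B} (ht : IsT t) (ht' : IsT t')
    (h : ∀ P a b c d : A, f (P : T) a b c d = CR t P a b c d)
    (h' : ∀ P a b c d : A, f (P : T) a b c d = CR t' P a b c d) : t = t' := by
  classical
  have := Fintype.ofFinite A
  have hu : IsT (fun u v => t u v - t' u v) :=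
    { swap := fun a b => by
        show t b a - t' b a = -(t a b - t' a b)
        rw [ht.swap a b, ht'.swap a b]; abel
      rot := fun a b => by
        show t b (-a - b) - t' b (-a - b) = t a b - t' a b
        rw [ht.rot, ht'.rot]
      even := fun a b => by
        show t (-a) (-b) - t' (-a) (-b) = t a b - t' a b
        rw [ht.even, ht'.even] }
  have hz : ∀ P a b c d : A, CR (fun u v => t u v - t' u v) P a b c d = 0 := by
    intro P a b c d
    have e : CR (fun u v => t u v - t' u v) P a b c d = CR t P a b c d - CR t' P a b c d := by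
      unfold CR th
      dsimp only
      abel
    rw [e, ← h, ← h', sub_self]
  funext a b
  exact sub_eq_zero.mp (isT_zero hu hz a b)

/-- restriction of `IsF` to a subgroup -/
lemma IsF.restrict {f : T → T → T → T → T → B} (hf : IsF f) (A : AddSubgroup T) :
    IsF (fun P a b c d : A => f (P : T) a b c d) := by
  refine ⟨fun P a b c d => hf.s12 _ _ _ _ _, fun P a b c d => hf.s23 _ _ _ _ _,
    fun P a b c d => hf.s34 _ _ _ _ _, fun P a b c d => ?_, fun P a b c d e => ?_,
    fun P s a b c d => ?_, fun p0 p1 p2 p3 p4 => ?_⟩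
  · show f (P : T) ((-P - a : A) : T) b c d = f (P : T) a b c d
    have e : ((-P - a : A) : T) = -(P : T) - a := by simp
    rw [e]; exact hf.ev _ _ _ _ _
  · exact hf.coc _ _ _ _ _ _
  · show f ((P - (s + s) : A) : T) ((a + s : A) : T) ((b + s : A) : T)
      ((c + s : A) : T) ((d + s : A) : T) = f (P : T) a b c d
    rw [← hf.tr (P : T) s a b c d]; rfl
  · exact hf.pl _ _ _ _ _

lemma exists_torN {f : T → T → T → T → T → B} (hf : IsF f)
    (hfin : ∀ n : ℕ, 0 < n → Finite (torN T n)) (h3 : ∀ x : T, ∃ s, s + s + s = x)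
    {n : ℕ} (hn : 0 < n) :
    ∃ t : torN T n → torN T n → B, IsT t ∧ ∀ P a b c d : torN T n,
      f (P : T) a b c d = CR t P a b c d := by
  classical
  have := hfin (3 * n) (by positivity)
  have := Fintype.ofFinite (torN T (3 * n))
  have hA : torN T n ≤ torN T (3 * n) := torN_le (Dvd.intro_left 3 rfl)
  have h3' : ∀ x : torN T n, T3 (AddSubgroup.inclusion hA x) := by
    intro x
    obtain ⟨s, hs⟩ := h3 x
    have hs' : (3 * n) • s = 0 := by
      have hx : n • (x : T) = 0 := x.2
      rw [← hs] at hx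
      rw [mul_comm, mul_smul]
      rw [show (3 : ℕ) • s = s + s + s by rw [show (3 : ℕ) = 2 + 1 from rfl, add_smul, two_smul, one_smul]]
      exact hx
    exact ⟨⟨s, hs'⟩, Subtype.ext hs.symm⟩
  obtain ⟨hT, hC⟩ := exists_isT (hf.restrict (torN T (3 * n))) (AddSubgroup.inclusion hA) h3'
  exact ⟨_, hT, fun P a b c d => hC P a b c d⟩

/-- Existence and uniqueness of `t` on a torsion group. -/
theorem exists_unique_t {f : T → T → T → T → T → B} (hf : IsF f)
    (htor : ∀ x : T, ∃ n : ℕ, 0 < n ∧ n • x = 0)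
    (hfin : ∀ n : ℕ, 0 < n → Finite (torN T n)) (h3 : ∀ x : T, ∃ s, s + s + s = x) :
    ∃! t : T → T → B, IsT t ∧ ∀ P a b c d : T, f P a b c d = CR t P a b c d := by
  classical
  -- common level
  have hlev : ∀ s : Finset T, ∃ n : ℕ, 0 < n ∧ ∀ x ∈ s, x ∈ torN T n := by
    intro s
    induction s using Finset.induction_on with
    | empty => exact ⟨1, one_pos, by simp⟩
    | insert a s _ ih =>
      obtain ⟨n, hn, h⟩ := ih
      obtain ⟨m, hm, hm'⟩ := htor a
      refine ⟨n * m, Nat.mul_pos hn hm, ?_⟩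
      intro x hx
      rcases Finset.mem_insert.mp hx with rfl | hx
      · exact torN_le (Dvd.intro_left n rfl) hm'
      · exact torN_le (Dvd.intro m rfl) (h x hx)
  choose τ hτ using fun n : {n : ℕ // 0 < n} => exists_torN hf hfin h3 n.2
  -- restriction of a solution on level `m` to level `n ∣ m`
  have hres : ∀ (n m : {n : ℕ // 0 < n}) (h : (n : ℕ) ∣ m) (u v : torN T n),
      τ n u v = τ m (AddSubgroup.inclusion (torN_le h) u) (AddSubgroup.inclusion (torN_le h) v) := by
    intro n m h u v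
    have := hfin n n.2
    have e : τ n = fun u v => τ m (AddSubgroup.inclusion (torN_le h) u)
        (AddSubgroup.inclusion (torN_le h) v) := by
      refine unique_sub (f := f) (torN T n) (hτ n).1 ?_ (hτ n).2 ?_
      · refine ⟨fun a b => (hτ m).1.swap _ _, fun a b => ?_, fun a b => ?_⟩
        · rw [map_sub, map_neg]; exact (hτ m).1.rot _ _
        · rw [map_neg, map_neg]; exact (hτ m).1.even _ _
      · intro P a b c d
        have := (hτ m).2 (AddSubgroup.inclusion (torN_le h) P)
          (AddSubgroup.inclusion (torN_le h) a) (AddSubgroup.inclusion (torN_le h) b)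
          (AddSubgroup.inclusion (torN_le h) c) (AddSubgroup.inclusion (torN_le h) d)
        have e : CR (fun u v => τ m (AddSubgroup.inclusion (torN_le h) u)
            (AddSubgroup.inclusion (torN_le h) v)) P a b c d =
            CR (τ m) (AddSubgroup.inclusion (torN_le h) P)
            (AddSubgroup.inclusion (torN_le h) a) (AddSubgroup.inclusion (torN_le h) b)
            (AddSubgroup.inclusion (torN_le h) c) (AddSubgroup.inclusion (torN_le h) d) := by
          unfold CR th
          simp only [map_add, map_sub, map_neg]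
        rw [e, ← this]
        rfl
    rw [e]
  choose N hN0 hN using fun p : T × T => hlev {p.1, p.2}
  let t : T → T → B := fun u v =>
    τ ⟨N (u, v), hN0 (u, v)⟩ ⟨u, hN (u, v) u (by simp)⟩ ⟨v, hN (u, v) v (by simp)⟩
  have ht : ∀ (n : {n : ℕ // 0 < n}) (u v : torN T n), t u v = τ n u v := by
    intro n u v
    have h1 := hres ⟨N ((u : T), (v : T)), hN0 _⟩ ⟨N ((u : T), (v : T)) * n, Nat.mul_pos (hN0 _) n.2⟩
      (Dvd.intro _ rfl) ⟨u, hN ((u : T), (v : T)) u (by simp)⟩ ⟨v, hN ((u : T), (v : T)) v (by simp)⟩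
    have h2 := hres n ⟨N ((u : T), (v : T)) * n, Nat.mul_pos (hN0 _) n.2⟩
      (Dvd.intro_left _ rfl) u v
    exact h1.trans h2.symm
  refine ⟨t, ⟨⟨?_, ?_, ?_⟩, ?_⟩, ?_⟩
  · intro a b
    obtain ⟨n, hn, h⟩ := hlev {a, b}
    have ha := h a (by simp)
    have hb := h b (by simp)
    have e1 := ht ⟨n, hn⟩ ⟨a, ha⟩ ⟨b, hb⟩
    have e2 := ht ⟨n, hn⟩ ⟨b, hb⟩ ⟨a, ha⟩
    rw [show t b a = _ from e2, show t a b = _ from e1]
    exact (hτ ⟨n, hn⟩).1.swap _ _
  · intro a b
    obtain ⟨n, hn, h⟩ := hlev {a, b}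
    have ha := h a (by simp)
    have hb := h b (by simp)
    have e1 := ht ⟨n, hn⟩ ⟨a, ha⟩ ⟨b, hb⟩
    have e2 := ht ⟨n, hn⟩ ⟨b, hb⟩ (-⟨a, ha⟩ - ⟨b, hb⟩)
    rw [show t b (-a - b) = _ from e2, show t a b = _ from e1]
    exact (hτ ⟨n, hn⟩).1.rot _ _
  · intro a b
    obtain ⟨n, hn, h⟩ := hlev {a, b}
    have ha := h a (by simp)
    have hb := h b (by simp)
    have e1 := ht ⟨n, hn⟩ ⟨a, ha⟩ ⟨b, hb⟩
    have e2 := ht ⟨n, hn⟩ (-⟨a, ha⟩) (-⟨b, hb⟩)
    rw [show t (-a) (-b) = _ from e2, show t a b = _ from e1]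
    exact (hτ ⟨n, hn⟩).1.even _ _
  · intro P a b c d
    obtain ⟨n, hn, h⟩ := hlev {P, a, b, c, d}
    have hP := h P (by simp)
    have ha := h a (by simp)
    have hb := h b (by simp)
    have hc := h c (by simp)
    have hd := h d (by simp)
    have e := (hτ ⟨n, hn⟩).2 ⟨P, hP⟩ ⟨a, ha⟩ ⟨b, hb⟩ ⟨c, hc⟩ ⟨d, hd⟩
    rw [show f P a b c d = _ from e]
    unfold CR th
    simp only [← ht]
    rfl
  · rintro t' ⟨ht', hC'⟩
    funext u v
    obtain ⟨n, hn, h⟩ := hlev {u, v}
    have hu := h u (by simp)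
    have hv := h v (by simp)
    have := hfin n hn
    have e : (fun u v : torN T n => t' u v) = τ ⟨n, hn⟩ := by
      refine unique_sub (f := f) (torN T n) ?_ (hτ ⟨n, hn⟩).1 ?_ (hτ ⟨n, hn⟩).2
      · exact ⟨fun a b => ht'.swap _ _, fun a b => ht'.rot _ _, fun a b => ht'.even _ _⟩
      · intro P a b c d
        rw [hC']; rfl
    have e1 := ht ⟨n, hn⟩ ⟨u, hu⟩ ⟨v, hv⟩
    have e2 := congrFun (congrFun e ⟨u, hu⟩) ⟨v, hv⟩
    exact e2.trans e1.symm

end Glue

end Pool.Agent.K4ParP
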