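import Pool.Agent.Lib_helper86.K4.Z2

set_option autoImplicit false
set_option linter.unusedSectionVars false
set_option linter.unnecessarySeqFocus false

/-!
The honest second order relation for the 2-torsion of a torsion group, from the concurrency
relation and the distribution relation of `t`.
-/

namespace Pool.Agent.K4ParP

open Finset

section Z2b

variable {A B : Type*} [AddCommGroup A] [DecidableEq A] [AddCommGroup B] [Module ℚ B]
  {t : A → A → B} {K : Finset A}

/-- the defect of the second order relation, `K = T[2]` -/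
def zK (K : Finset A) (t : A → A → B) (u v : A) : B :=
  ∑ i ∈ K, t u (v + i) - t u (v + v) - t u (u + (v + v)) - ∑ i ∈ K, t (u + (v + v)) (-v + i)

omit [AddCommGroup B] [Module ℚ B] in
lemma K_eq (hK : ∀ x, x ∈ K ↔ x + x = 0) (hc : K.card = 4) {e f : A} (he : e + e = 0)
    (hf : f + f = 0) (e0 : e ≠ 0) (f0 : f ≠ 0) (ef : e ≠ f) :
    K = {0, e, f, e + f} := by
  symm
  refine Finset.eq_of_subset_of_card_le ?_ ?_
  · intro x hx
    simp only [Finset.mem_insert, Finset.mem_singleton] at hx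
    rw [hK]
    rcases hx with rfl | rfl | rfl | rfl
    · simp
    · exact he
    · exact hf
    · rw [show e + f + (e + f) = (e + e) + (f + f) by abel, he, hf, add_zero]
  · rw [hc]
    have h1 : e + f ≠ 0 := fun h => ef (by
      rw [eq_neg_of_add_eq_zero_left h]; exact (eq_neg_of_add_eq_zero_left hf).symm)
    have h2 : e ≠ e + f := fun h => f0 (by simpa using h)
    have h3 : f ≠ e + f := fun h => e0 (by simpa using h)
    rw [Finset.card_insert_of_notMem, Finset.card_insert_of_notMem, Finset.card_insert_of_notMem,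
      Finset.card_singleton]
    · simpa using h3
    · simp only [Finset.mem_insert, Finset.mem_singleton, not_or]
      exact ⟨ef, h2⟩
    · simp only [Finset.mem_insert, Finset.mem_singleton, not_or]
      exact ⟨e0.symm, f0.symm, h1.symm⟩

lemma sum_K (hK : ∀ x, x ∈ K ↔ x + x = 0) (hc : K.card = 4) {e f : A} (he : e + e = 0)
    (hf : f + f = 0) (e0 : e ≠ 0) (f0 : f ≠ 0) (ef : e ≠ f) (φ : A → B) :
    ∑ i ∈ K, φ i = φ 0 + φ e + φ f + φ (e + f) := by
  have h1 : e + f ≠ 0 := fun h => ef (by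
    rw [eq_neg_of_add_eq_zero_left h]; exact (eq_neg_of_add_eq_zero_left hf).symm)
  have h2 : e ≠ e + f := fun h => f0 (by simpa using h)
  have h3 : f ≠ e + f := fun h => e0 (by simpa using h)
  rw [K_eq hK hc he hf e0 f0 ef, Finset.sum_insert, Finset.sum_insert, Finset.sum_insert,
    Finset.sum_singleton]
  · abel
  · simpa using h3
  · simp only [Finset.mem_insert, Finset.mem_singleton, not_or]
    exact ⟨ef, h2⟩
  · simp only [Finset.mem_insert, Finset.mem_singleton, not_or]
    exact ⟨e0.symm, f0.symm, h1.symm⟩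

lemma zK_eq (hK : ∀ x, x ∈ K ↔ x + x = 0) (hc : K.card = 4) {e f : A} (he : e + e = 0)
    (hf : f + f = 0) (e0 : e ≠ 0) (f0 : f ≠ 0) (ef : e ≠ f) (u v : A) :
    zK K t u v = z4 t e f u v := by
  unfold zK z4
  rw [sum_K hK hc he hf e0 f0 ef, sum_K hK hc he hf e0 f0 ef]
  simp only [add_zero]
  abel

/-- the concurrency relation of the line, its opposite and the line of the 2-torsion -/
def Conc (t : A → A → B) : Prop :=
  ∀ e f u v : A, e + e = 0 → f + f = 0 → e ≠ 0 → f ≠ 0 → e ≠ f →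
    CR t e f (-u - v) (-v) (u + v) = CR t (u + v) v (-u - v) (-v) e

lemma zK_shift (ht : IsT t) (hK : ∀ x, x ∈ K ↔ x + x = 0) (hc : K.card = 4) (hconc : Conc t)
    {e : A} (he : e ∈ K) (u v : A) : zK K t (u + e) v = zK K t u v := by
  by_cases e0 : e = 0
  · rw [e0, add_zero]
  have he' : e + e = 0 := (hK e).mp he
  obtain ⟨f, hfK, hf⟩ : ∃ f ∈ K, f ∉ ({0, e} : Finset A) := by
    by_contra hcon
    push Not at hcon
    have : K ⊆ {0, e} := hcon
    have h1 := Finset.card_le_card this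
    have h2 : ({0, e} : Finset A).card ≤ 2 := Finset.card_le_two
    omega
  simp only [Finset.mem_insert, Finset.mem_singleton, not_or] at hf
  have hf' : f + f = 0 := (hK f).mp hfK
  have h := z4_shift ht he' hf' u v
  rw [hconc e f u v he' hf' e0 hf.1 (Ne.symm hf.2), sub_self] at h
  rw [zK_eq hK hc he' hf' e0 hf.1 (Ne.symm hf.2), zK_eq hK hc he' hf' e0 hf.1 (Ne.symm hf.2)]
  exact (sub_eq_zero.mp h.symm)

omit [Module ℚ B] in
/-- shift of a sum over `K` by an element of `K` -/
lemma sumK_shift (hK : ∀ x, x ∈ K ↔ x + x = 0) {e : A} (he : e ∈ K) (φ : A → B) :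
    ∑ i ∈ K, φ (e + i) = ∑ i ∈ K, φ i := by
  refine Finset.sum_bij' (fun i _ => e + i) (fun i _ => e + i) ?_ ?_ ?_ ?_ ?_
  · intro i hi
    rw [hK] at he hi ⊢
    rw [show e + i + (e + i) = (e + e) + (i + i) by abel, he, hi, add_zero]
  · intro i hi
    rw [hK] at he hi ⊢
    rw [show e + i + (e + i) = (e + e) + (i + i) by abel, he, hi, add_zero]
  · intro i _
    rw [← add_assoc, (hK e).mp he, zero_add]
  · intro i _
    rw [← add_assoc, (hK e).mp he, zero_add]
  · intro i _; rfl

/-- `Z(2v,u) = 4 Z(u,v)` -/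
lemma zK_four (ht : IsT t) (hK : ∀ x, x ∈ K ↔ x + x = 0) (hc : K.card = 4) (hconc : Conc t)
    (hd : ∀ a b, ∑ i ∈ K, ∑ j ∈ K, t (a + i) (b + j) = t (a + a) (b + b)) (u v : A) :
    zK K t (v + v) u = (4 : ℚ) • zK K t u v := by
  have hneg : ∀ i ∈ K, -i = i := fun i hi => (eq_neg_of_add_eq_zero_left ((hK i).mp hi)).symm
  -- sum over the shifts of `u` and `v`
  have h1 : ∑ e ∈ K, ∑ e' ∈ K, zK K t (u + e) (v + e') = (16 : ℚ) • zK K t u v := by
    have h2 : ∀ e ∈ K, ∀ e' ∈ K, zK K t (u + e) (v + e') = zK K t u v := by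
      intro e he e' he'
      rw [zK_shift ht hK hc hconc he]
      unfold zK
      have h3 : v + e' + (v + e') = v + v := by
        rw [show v + e' + (v + e') = v + v + (e' + e') by abel, (hK e').mp he', add_zero]
      rw [h3]
      have h4 : ∑ i ∈ K, t u (v + e' + i) = ∑ i ∈ K, t u (v + i) := by
        rw [← sumK_shift hK he' (fun i => t u (v + i))]
        exact Finset.sum_congr rfl fun i _ => by rw [add_assoc]
      have h5 : ∑ i ∈ K, t (u + (v + v)) (-(v + e') + i) = ∑ i ∈ K, t (u + (v + v)) (-v + i) := by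
        rw [← sumK_shift hK he' (fun i => t (u + (v + v)) (-v + i))]
        refine Finset.sum_congr rfl fun i _ => ?_
        rw [neg_add, hneg e' he', add_assoc]
      rw [h4, h5]
    rw [Finset.sum_congr rfl fun e he => Finset.sum_congr rfl fun e' he' => h2 e he e' he']
    simp only [Finset.sum_const, hc, ← Nat.cast_smul_eq_nsmul ℚ]
    rw [smul_smul]; norm_num
  -- the four parts
  have s1 : ∑ e ∈ K, ∑ e' ∈ K, ∑ i ∈ K, t (u + e) (v + e' + i) =
      (4 : ℚ) • t (u + u) (v + v) := by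
    rw [← hd u v, Finset.smul_sum]
    refine Finset.sum_congr rfl fun e _ => ?_
    have : ∀ e' ∈ K, ∑ i ∈ K, t (u + e) (v + e' + i) = ∑ i ∈ K, t (u + e) (v + i) := by
      intro e' he'
      rw [← sumK_shift hK he' (fun i => t (u + e) (v + i))]
      exact Finset.sum_congr rfl fun i _ => by rw [add_assoc]
    rw [Finset.sum_congr rfl this, Finset.sum_const, hc, ← Nat.cast_smul_eq_nsmul ℚ]
    norm_num
  have s2 : ∑ e ∈ K, ∑ e' ∈ K, t (u + e) (v + e' + (v + e')) =
      -((4 : ℚ) • ∑ e ∈ K, t (v + v) (u + e)) := by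
    rw [Finset.smul_sum, ← Finset.sum_neg_distrib]
    refine Finset.sum_congr rfl fun e _ => ?_
    have : ∀ e' ∈ K, t (u + e) (v + e' + (v + e')) = - t (v + v) (u + e) := by
      intro e' he'
      rw [show v + e' + (v + e') = v + v + (e' + e') by abel, (hK e').mp he', add_zero,
        ht.swap (u + e) (v + v), neg_neg]
    rw [Finset.sum_congr rfl this, Finset.sum_const, hc, ← Nat.cast_smul_eq_nsmul ℚ, smul_neg]
    norm_num
  have s3 : ∑ e ∈ K, ∑ e' ∈ K, t (u + e) (u + e + (v + e' + (v + e'))) =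
      (4 : ℚ) • ∑ i ∈ K, t (v + v + (u + u)) (-u + i) := by
    rw [Finset.smul_sum]
    refine Finset.sum_congr rfl fun e he => ?_
    have : ∀ e' ∈ K, t (u + e) (u + e + (v + e' + (v + e'))) = t (v + v + (u + u)) (-u + e) := by
      intro e' he'
      have he2 := (hK e).mp he
      have he2' := (hK e').mp he'
      exact t_can ht (by linear_combination (norm := module) (-1:ℤ) • he2' + (-1:ℤ) • he2)
        (by linear_combination (norm := module) (1:ℤ) • he2)
    rw [Finset.sum_congr rfl this, Finset.sum_const, hc, ← Nat.cast_smul_eq_nsmul ℚ]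
    norm_num
  have s4 : ∑ e ∈ K, ∑ e' ∈ K, ∑ i ∈ K, t (u + e + (v + e' + (v + e'))) (-(v + e') + i) =
      (4 : ℚ) • t (v + v) (v + v + (u + u)) := by
    have h6 := hd (u + (v + v)) (-v)
    have h7 : t (u + (v + v) + (u + (v + v))) (-v + -v) = t (v + v) (v + v + (u + u)) :=
      t_bcn ht (by module) (by module)
    rw [← h7, ← h6, Finset.smul_sum]
    refine Finset.sum_congr rfl fun e _ => ?_
    have : ∀ e' ∈ K, ∑ i ∈ K, t (u + e + (v + e' + (v + e'))) (-(v + e') + i) =
        ∑ i ∈ K, t (u + (v + v) + e) (-v + i) := by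
      intro e' he'
      rw [← sumK_shift hK he' (fun i => t (u + (v + v) + e) (-v + i))]
      refine Finset.sum_congr rfl fun i _ => ?_
      have he2' := (hK e').mp he'
      congr 1
      · linear_combination (norm := module) (1:ℤ) • he2'
      · linear_combination (norm := module) (-1:ℤ) • he2'
    rw [Finset.sum_congr rfl this, Finset.sum_const, hc, ← Nat.cast_smul_eq_nsmul ℚ]
    norm_num
  have h5 : ∑ e ∈ K, ∑ e' ∈ K, zK K t (u + e) (v + e') =
      (4 : ℚ) • t (u + u) (v + v) + (4 : ℚ) • ∑ e ∈ K, t (v + v) (u + e)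
        - (4 : ℚ) • ∑ i ∈ K, t (v + v + (u + u)) (-u + i)
        - (4 : ℚ) • t (v + v) (v + v + (u + u)) := by
    unfold zK
    simp only [Finset.sum_sub_distrib]
    rw [s1, s2, s3, s4, sub_neg_eq_add]
  have h6 : zK K t (v + v) u = ∑ i ∈ K, t (v + v) (u + i) + t (u + u) (v + v)
      - t (v + v) (v + v + (u + u)) - ∑ i ∈ K, t (v + v + (u + u)) (-u + i) := by
    unfold zK
    rw [ht.swap (u + u) (v + v), sub_neg_eq_add]
  have h7 : (16 : ℚ) • zK K t u v = (4 : ℚ) • zK K t (v + v) u := by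
    rw [← h1, h5, h6]; module
  have h8 : zK K t (v + v) u = (4 : ℚ)⁻¹ • ((16 : ℚ) • zK K t u v) := by
    rw [h7, smul_smul]; norm_num
  rw [h8, smul_smul]; norm_num

/-- a function on a torsion group with `Z(2v,u) = 4 Z(u,v)` is zero -/
lemma zero_of_four {Z : A → A → B} (h : ∀ u v, Z (v + v) u = (4 : ℚ) • Z u v)
    (htor : ∀ a : A, ∃ n : ℕ, 0 < n ∧ n • a = 0) (u v : A) : Z u v = 0 := by
  have h1 : ∀ u v, Z (u + u) (v + v) = (16 : ℚ) • Z u v := by
    intro u v
    rw [h (v + v) u, h u v, smul_smul]; norm_num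
  have h2 : ∀ n : ℕ, ∀ u v, Z ((2 ^ n) • u) ((2 ^ n) • v) = ((16 : ℚ) ^ n) • Z u v := by
    intro n
    induction n with
    | zero => intro u v; simp
    | succ n ih =>
      intro u v
      have e1 : ∀ x : A, (2 ^ (n + 1)) • x = (2 ^ n) • x + (2 ^ n) • x := by
        intro x; rw [pow_succ, mul_smul, two_smul, smul_add]
      rw [e1, e1, h1, ih, smul_smul, pow_succ, mul_comm]
  obtain ⟨p, hp, hu⟩ := htor u
  obtain ⟨q, hq, hv⟩ := htor v
  set N := p * q with hN
  have hN0 : 0 < N := Nat.mul_pos hp hq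
  have hNu : N • u = 0 := by rw [hN, mul_comm, mul_smul, hu, smul_zero]
  have hNv : N • v = 0 := by rw [hN, mul_smul, hv, smul_zero]
  have : NeZero N := ⟨hN0.ne'⟩
  obtain ⟨i, j, hij, he⟩ := Finite.exists_ne_map_eq_of_infinite (fun n : ℕ => ((2 ^ n : ℕ) : ZMod N))
  have key : ∀ i j : ℕ, ((2 ^ i : ℕ) : ZMod N) = ((2 ^ j : ℕ) : ZMod N) → ∀ x : A, N • x = 0 →
      (2 ^ i) • x = (2 ^ j) • x := by
    intro i j he x hx
    have h3 : (2 ^ i) % N = (2 ^ j) % N := (ZMod.natCast_eq_natCast_iff' _ _ _).mp he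
    have h4 : ∀ m : ℕ, m • x = (m % N) • x := by
      intro m
      conv_lhs => rw [← Nat.mod_add_div m N, add_smul, mul_comm N, mul_smul, hx, smul_zero, add_zero]
    rw [h4 (2 ^ i), h4 (2 ^ j), h3]
  have h5 := h2 i u v
  have h6 := h2 j u v
  rw [key i j he u hNu, key i j he v hNv, h6] at h5
  have h7 : ((16 : ℚ) ^ j - (16 : ℚ) ^ i) • Z u v = 0 := by rw [sub_smul, h5, sub_self]
  rcases smul_eq_zero.mp h7 with h8 | h8
  · exfalso
    have h9 : (16 : ℚ) ^ j = (16 : ℚ) ^ i := sub_eq_zero.mp h8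
    exact hij (pow_right_injective₀ (by norm_num) (by norm_num) h9).symm
  · exact h8

/-- **The honest second order relation for the 2-torsion.** -/
theorem zK_zero (ht : IsT t) (hK : ∀ x, x ∈ K ↔ x + x = 0) (hc : K.card = 4) (hconc : Conc t)
    (hd : ∀ a b, ∑ i ∈ K, ∑ j ∈ K, t (a + i) (b + j) = t (a + a) (b + b))
    (htor : ∀ a : A, ∃ n : ℕ, 0 < n ∧ n • a = 0) (u v : A) :
    ∑ i ∈ K, t u (v + i) = t u (v + v) + t u (u + (v + v)) + ∑ i ∈ K, t (u + (v + v)) (-v + i) := by
  have h := zero_of_four (Z := zK K t) (zK_four ht hK hc hconc hd) htor u v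
  unfold zK at h
  rw [sub_sub, sub_sub, sub_eq_zero] at h
  rw [h]; abel

end Z2b

end Pool.Agent.K4ParP
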