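import Pool.Agent.Lib_helper86.K4.TStrP
import Pool.Agent.Lib_helper60.K4M.Asm
import Pool.Agent.Lib_helper60.K4M.Geo
import Pool.Agent.Lib_helper87.K4M.Pencil
import Pool.Agent.Lib_helper66.K4M.Div

set_option autoImplicit false
set_option linter.unusedSectionVars false
set_option linter.unnecessarySeqFocus false

/-!
The cross ratio symbols of all pencils of lines of an elliptic curve over an algebraically closed
field satisfy the abstract structure `IsF`; hence `f = CR t` for every finite group of points.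
-/

namespace Pool.Agent.K4ParP

open Finset K4M WeierstrassCurve.Affine

section Geo

variable {F : Type*} [Field F] [DecidableEq F] {W : WeierstrassCurve.Affine F}

/-- the translation by a point of order two is a Moebius map of the `x`-coordinate -/
theorem moebius {i : W.Point} (hii : i + i = 0) : ∃ k : F, k ≠ 0 ∧ ∃ h : W.Point → F,
    (∀ a, h a ≠ 0) ∧ ∀ a b, dx (a + i) (b + i) = k * h a * h b * dx a b := by
  by_cases hi : i = 0
  · subst hi
    exact ⟨1, one_ne_zero, fun _ => 1, fun _ => one_ne_zero, fun a b => by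
      rw [add_zero, add_zero]; ring⟩
  have hin : -i = i := neg_eq_of_add_eq_zero_left hii
  have hph := ph_ne_zero hi hii
  have hdi : ∀ a : W.Point, a ≠ i → dx a i ≠ 0 := fun a ha => dx_ne ha (by rw [hin]; exact ha)
  obtain ⟨h, hh0, hh1, hh2⟩ : ∃ h : W.Point → F, h 0 = 1 ∧ h i = (ph i)⁻¹ ∧
      ∀ a, a ≠ 0 → a ≠ i → h a = (dx a i)⁻¹ :=
    ⟨fun a => if a = 0 then 1 else if a = i then (ph i)⁻¹ else (dx a i)⁻¹, if_pos rfl,
      (if_neg hi).trans (if_pos rfl), fun a h0 h1 => (if_neg h0).trans (if_neg h1)⟩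
  refine ⟨-ph i, neg_ne_zero.mpr hph, h, ?_, ?_⟩
  · intro a
    by_cases h0 : a = 0
    · rw [h0, hh0]; exact one_ne_zero
    by_cases h1 : a = i
    · rw [h1, hh1]; exact inv_ne_zero hph
    · rw [hh2 a h0 h1]; exact inv_ne_zero (hdi a h1)
  -- the three values
  have v0 : ∀ b : W.Point, b ≠ 0 → b ≠ i →
      dx (0 + i) (b + i) = -ph i * 1 * (dx b i)⁻¹ * dx 0 b := by
    intro b hb0 hbi
    have h2 := F2 hb0 hi hii hbi
    rw [zero_add, dx_zero_left hb0, dx_comm' (b + i) i]
    have := hdi b hbi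
    rw [← h2]
    field_simp
  have v1 : ∀ b : W.Point, b ≠ 0 → b ≠ i →
      dx (i + i) (b + i) = -ph i * (ph i)⁻¹ * (dx b i)⁻¹ * dx i b := by
    intro b hb0 hbi
    have hbi' : b + i ≠ 0 := by
      intro h0; apply hbi; rw [eq_neg_of_add_eq_zero_left h0, hin]
    rw [hii, dx_zero_left hbi', dx_comm' b i]
    have := hdi b hbi
    field_simp
  have v2 : ∀ a b : W.Point, a ≠ 0 → a ≠ i → b ≠ 0 → b ≠ i →
      dx (a + i) (b + i) = -ph i * (dx a i)⁻¹ * (dx b i)⁻¹ * dx a b := by
    intro a b ha0 hai hb0 hbi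
    have h2 := F2 ha0 hi hii hai
    have h3 := F2 hb0 hi hii hbi
    have hai' : a + i ≠ 0 := by
      intro h0; apply hai; rw [eq_neg_of_add_eq_zero_left h0, hin]
    have hbi' : b + i ≠ 0 := by
      intro h0; apply hbi; rw [eq_neg_of_add_eq_zero_left h0, hin]
    have n1 := hdi a hai
    have n2 := hdi b hbi
    have e : ∀ x y : W.Point, x ≠ 0 → y ≠ 0 → dx x y = dx x i - dx y i := by
      intro x y hx hy
      rcases x with _ | ⟨x1, y1, h1⟩
      · exact absurd rfl hx
      rcases y with _ | ⟨x2, y2, h2⟩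
      · exact absurd rfl hy
      rcases i with _ | ⟨x3, y3, h3⟩
      · exact absurd rfl hi
      simp [dx, xv]
    rw [e (a + i) (b + i) hai' hbi', e a b ha0 hb0]
    field_simp
    linear_combination dx b i * h2 - dx a i * h3
  intro a b
  by_cases ha0 : a = 0
  · by_cases hb0 : b = 0
    · rw [ha0, hb0, dx_bracket.self, dx_bracket.self, mul_zero]
    by_cases hbi : b = i
    · rw [ha0, hbi, hh0, hh1, zero_add, hii, dx_comm' 0 i, dx_zero_left hi]
      field_simp
    · rw [ha0, hh0, hh2 b hb0 hbi]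
      exact v0 b hb0 hbi
  by_cases hai : a = i
  · by_cases hb0 : b = 0
    · rw [hai, hb0, hh0, hh1, zero_add, hii, dx_zero_left hi,
        dx_comm' 0 i, dx_zero_left hi]
      field_simp
    by_cases hbi : b = i
    · rw [hai, hbi, dx_bracket.self, dx_bracket.self, mul_zero]
    · rw [hai, hh1, hh2 b hb0 hbi]
      exact v1 b hb0 hbi
  by_cases hb0 : b = 0
  · rw [hb0, hh0, hh2 a ha0 hai, dx_comm' (0 + i) (a + i), v0 a ha0 hai,
      dx_comm' 0 a]
    ring
  by_cases hbi : b = i
  · rw [hbi, hh1, hh2 a ha0 hai, dx_comm' (i + i) (a + i),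
      v1 a ha0 hai, dx_comm' i a]
    ring
  · rw [hh2 a ha0 hai, hh2 b hb0 hbi]
    exact v2 a b ha0 hai hb0 hbi

/-- the cross ratio symbols are invariant under translation by the points of order two -/
lemma cr_add_two {i : W.Point} (hii : i + i = 0) (a b c d : W.Point) :
    cr (dx : W.Point → W.Point → F) (a + i) (b + i) (c + i) (d + i) = cr dx a b c d := by
  obtain ⟨k, hk, h, hh, e⟩ := moebius hii
  have : cr (dx : W.Point → W.Point → F) (a + i) (b + i) (c + i) (d + i) =
      cr (fun x y : W.Point => dx (x + i) (y + i)) a b c d := rfl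
  rw [this]
  exact cr_scale k h hk a b c d (hh a) (hh b) (hh c) (hh d) (fun x y _ _ => e x y)

/-- if every point is divisible by two: the symbol of the four lines through `P` and
`a, b, c, d` -/
noncomputable def ff (h2 : ∀ P : W.Point, ∃ Q, Q + Q = P) (P a b c d : W.Point) : B2 F :=
  cr dx (a + (h2 P).choose) (b + (h2 P).choose) (c + (h2 P).choose) (d + (h2 P).choose)

lemma ff_eq (h2 : ∀ P : W.Point, ∃ Q, Q + Q = P) {P R : W.Point} (hR : R + R = P)
    (a b c d : W.Point) : ff h2 P a b c d = cr dx (a + R) (b + R) (c + R) (d + R) := by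
  unfold ff
  have hS := (h2 P).choose_spec
  set S := (h2 P).choose
  have hii : S - R + (S - R) = 0 := by
    rw [show S - R + (S - R) = S + S - (R + R) by abel, hS, hR, sub_self]
  rw [← cr_add_two hii (a + R) (b + R) (c + R) (d + R)]
  congr 1 <;> abel

/-- three distinct collinear points have sum zero -/
lemma dt_zero (hP : PencilStatement W) (h2 : ∀ P : W.Point, ∃ Q, Q + Q = P) {x y z : W.Point}
    (hxy : x ≠ y) (hxz : x ≠ z) (hyz : y ≠ z) (h : dt x y z = 0) : x + y + z = 0 := by
  obtain ⟨q, hq, hq'⟩ : ∃ q : W.Point, x = -(q + q) ∧ (q = 0 ∨ q + q ≠ 0) := by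
    by_cases hx : x = 0
    · exact ⟨0, by rw [hx, add_zero, neg_zero], Or.inl rfl⟩
    · obtain ⟨q, hq⟩ := h2 (-x)
      refine ⟨q, by rw [hq, neg_neg], Or.inr ?_⟩
      rw [hq]; exact neg_ne_zero.mpr hx
  obtain ⟨k, hk, h', hh, e⟩ := hP q hq'
  subst hq
  rw [e y z hxy.symm hxz.symm] at h
  have h0 : dx (y - q) (z - q) = 0 := by
    rcases mul_eq_zero.mp h with h3 | h3
    · exact absurd h3 (mul_ne_zero (mul_ne_zero hk (hh y hxy.symm)) (hh z hxz.symm))
    · exact h3
  rw [dx_eq_zero_iff] at h0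
  rcases h0 with h0 | h0
  · exact absurd (sub_left_injective h0) hyz
  · have e3 : y = -(z - q) + q := by rw [← h0]; abel
    rw [e3]; abel

lemma dt_ntbracket (hP : PencilStatement W) (h2 : ∀ P : W.Point, ∃ Q, Q + Q = P) :
    NTBracket (dt : W.Point → W.Point → W.Point → F) :=
  { dt_bracket with
    no4 := by
      intro x y z w hxy hxz hxw hyz hyw hzw h h'
      have e1 := dt_zero hP h2 hxy hxz hyz h
      have e2 := dt_zero hP h2 hxy hxw hyw h'
      apply hzw
      have : x + y + z = x + y + w := by rw [e1, e2]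
      exact add_left_cancel this }

lemma cr_dt (hP : PencilStatement W) (h2 : ∀ P : W.Point, ∃ Q, Q + Q = P)
    {p a b c d : W.Point} (ha : p ≠ a) (hb : p ≠ b) (hc : p ≠ c) (hd : p ≠ d) :
    cr (dt p) a b c d = ff h2 p a b c d := by
  obtain ⟨q, hq, hq'⟩ : ∃ q : W.Point, p = -(q + q) ∧ (q = 0 ∨ q + q ≠ 0) := by
    by_cases hx : p = 0
    · exact ⟨0, by rw [hx, add_zero, neg_zero], Or.inl rfl⟩
    · obtain ⟨q, hq⟩ := h2 (-p)
      refine ⟨q, by rw [hq, neg_neg], Or.inr ?_⟩
      rw [hq]; exact neg_ne_zero.mpr hx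
  rw [ff_eq h2 (R := -q) (by rw [hq]; abel)]
  obtain ⟨k, hk, h', hh, e⟩ := hP q hq'
  subst hq
  have : cr (dx : W.Point → W.Point → F) (a + -q) (b + -q) (c + -q) (d + -q) =
      cr (fun x y : W.Point => dx (x - q) (y - q)) a b c d := by
    simp only [← sub_eq_add_neg]; rfl
  rw [this]
  apply cr_scale k h' hk a b c d (hh a ha.symm) (hh b hb.symm) (hh c hc.symm) (hh d hd.symm)
  intro x y hx hy
  have hne : ∀ z, z ∈ ({a, b, c, d} : Set W.Point) → z ≠ -(q + q) := by
    intro z hz
    simp only [Set.mem_insert_iff, Set.mem_singleton_iff] at hz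
    rcases hz with rfl | rfl | rfl | rfl
    · exact ha.symm
    · exact hb.symm
    · exact hc.symm
    · exact hd.symm
  exact e x y (hne x hx) (hne y hy)

/-- the structure of the cross ratio symbols of all pencils -/
theorem isF_ff [CharZero F] (hP : PencilStatement W) (h2 : ∀ P : W.Point, ∃ Q, Q + Q = P) :
    IsF (ff h2 : W.Point → W.Point → W.Point → W.Point → W.Point → B2 F) := by
  have hinf : Infinite F := inferInstance
  have s12 : ∀ P a b c d : W.Point, ff h2 P b a c d = - ff h2 P a b c d := fun P a b c d =>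
    cr_swap_ab dx_bracket _ _ _ _
  have s23 : ∀ P a b c d : W.Point, ff h2 P a c b d = - ff h2 P a b c d := fun P a b c d =>
    cr_swap_bc _ _ _ _
  have s34 : ∀ P a b c d : W.Point, ff h2 P a b d c = - ff h2 P a b c d := fun P a b c d =>
    cr_swap_cd dx_bracket _ _ _ _
  have z12 : ∀ P a c d : W.Point, ff h2 P a a c d = 0 := fun P a c d =>
    eq_zero_of_neg (s12 P a a c d)
  have z23 : ∀ P a b d : W.Point, ff h2 P a b b d = 0 := fun P a b d =>
    eq_zero_of_neg (s23 P a b b d)
  have z34 : ∀ P a b c : W.Point, ff h2 P a b c c = 0 := fun P a b c =>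
    eq_zero_of_neg (s34 P a b c c)
  have z13 : ∀ P a b d : W.Point, ff h2 P a b a d = 0 := fun P a b d => by
    rw [s23 P a a b d, z12, neg_zero]
  have z24 : ∀ P a b c : W.Point, ff h2 P a b c b = 0 := fun P a b c => by
    rw [s34 P a b b c, z23, neg_zero]
  have z14 : ∀ P a b c : W.Point, ff h2 P a b c a = 0 := fun P a b c => by
    rw [s34 P a b a c, z13, neg_zero]
  refine ⟨s12, s23, s34, ?_, ?_, ?_, ?_⟩
  · intro P a b c d
    obtain ⟨R, hR⟩ := h2 P
    rw [ff_eq h2 hR, ff_eq h2 hR]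
    have : -P - a + R = -(a + R) := by rw [← hR]; abel
    rw [this]
    unfold cr
    rw [dx_neg, dx_neg]
  · intro P a b c d e
    exact coc_eq_zero dx_nbracket _ _ _ _ _
  · intro P s a b c d
    obtain ⟨R, hR⟩ := h2 P
    rw [ff_eq h2 hR, ff_eq h2 (R := R - s) (by rw [← hR]; abel)]
    congr 1 <;> abel
  · intro p0 p1 p2 p3 p4
    by_cases h01 : p0 = p1
    · subst h01; rw [z12 p2 p0, z12 p3 p0, z12 p4 p0]; abel
    by_cases h02 : p0 = p2
    · subst h02; rw [z12 p1 p0, z13 p3 p0, z13 p4 p0, s12 p0 p0 p1 p3 p4]; abel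
    by_cases h03 : p0 = p3
    · subst h03
      rw [z13 p1 p0, z13 p2 p0, z14 p4 p0, s23 p0 p1 p0 p2 p4, s12 p0 p0 p1 p2 p4]; abel
    by_cases h04 : p0 = p4
    · subst h04
      rw [z14 p1 p0, z14 p2 p0, z14 p3 p0, s34 p0 p1 p2 p0 p3, s23 p0 p1 p0 p2 p3,
        s12 p0 p0 p1 p2 p3]; abel
    by_cases h12 : p1 = p2
    · subst h12; rw [z12 p0 p1, z23 p3 p0, z23 p4 p0]; abel
    by_cases h13 : p1 = p3
    · subst h13; rw [z13 p0 p1, z23 p2 p0, z24 p4 p0, s23 p1 p0 p1 p2 p4]; abel
    by_cases h14 : p1 = p4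
    · subst h14
      rw [z14 p0 p1, z24 p2 p0, z24 p3 p0, s34 p1 p0 p2 p1 p3, s23 p1 p0 p1 p2 p3]; abel
    by_cases h23 : p2 = p3
    · subst h23; rw [z23 p0 p1, z23 p1 p0, z34 p4 p0]; abel
    by_cases h24 : p2 = p4
    · subst h24; rw [z24 p0 p1, z24 p1 p0, z34 p3 p0, s34 p2 p0 p1 p2 p3]; abel
    by_cases h34 : p3 = p4
    · subst h34; rw [z34 p0 p1, z34 p1 p0, z34 p2 p0]; abel
    have hd : Dist5 p0 p1 p2 p3 p4 := ⟨h01, h02, h03, h04, h12, h13, h14, h23, h24, h34⟩
    have key := pl5_eq_zero (dt_ntbracket hP h2) hd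
    unfold pl5 at key
    rw [cr_dt hP h2 h01 h02 h03 h04, cr_dt hP h2 (Ne.symm h01) h12 h13 h14,
      cr_dt hP h2 (Ne.symm h02) (Ne.symm h12) h23 h24,
      cr_dt hP h2 (Ne.symm h03) (Ne.symm h13) (Ne.symm h23) h34,
      cr_dt hP h2 (Ne.symm h04) (Ne.symm h14) (Ne.symm h24) (Ne.symm h34)] at key
    exact key

/-- The structure theorem for every finite group of points, `F` algebraically closed of
characteristic zero: if `A` is contained in the multiples of three of a finite group `A₁`, then all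
cross ratio symbols of the pencils of lines through points of `A` come from one alternating even
function `t`, which is unique. -/
theorem exists_t [CharZero F] (hP : PencilStatement W) (h2 : ∀ P : W.Point, ∃ Q, Q + Q = P)
    (A A₁ : AddSubgroup W.Point) [Finite A₁]
    (h3 : ∀ a : A, ∃ s : A₁, (a : W.Point) = s + s + s) :
    ∃ t : A → A → B2 F, IsT t ∧ ∀ P a b c d : A,
      ff h2 (P : W.Point) a b c d = CR t P a b c d := by
  classical
  have := Fintype.ofFinite A₁
  have hf := isF_ff hP h2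
  let f : A₁ → A₁ → A₁ → A₁ → A₁ → B2 F := fun P a b c d => ff h2 (P : W.Point) a b c d
  have hf' : IsF f := by
    refine ⟨fun P a b c d => hf.s12 _ _ _ _ _, fun P a b c d => hf.s23 _ _ _ _ _,
      fun P a b c d => hf.s34 _ _ _ _ _, fun P a b c d => ?_, fun P a b c d e => ?_,
      fun P s a b c d => ?_, fun p0 p1 p2 p3 p4 => ?_⟩
    · show ff h2 (P : W.Point) ((-P - a : A₁) : W.Point) b c d = ff h2 (P : W.Point) a b c d
      have e : ((-P - a : A₁) : W.Point) = -(P : W.Point) - a := by simp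
      rw [e]; exact hf.ev _ _ _ _ _
    · exact hf.coc _ _ _ _ _ _
    · show ff h2 ((P - (s + s) : A₁) : W.Point) ((a + s : A₁) : W.Point) ((b + s : A₁) : W.Point)
        ((c + s : A₁) : W.Point) ((d + s : A₁) : W.Point) = ff h2 (P : W.Point) a b c d
      rw [← hf.tr (P : W.Point) s a b c d]; rfl
    · exact hf.pl _ _ _ _ _
  have hA : A ≤ A₁ := by
    intro a ha
    obtain ⟨s, hs⟩ := h3 ⟨a, ha⟩
    have : a = ((s + s + s : A₁) : W.Point) := by simpa using hs
    rw [this]
    exact SetLike.coe_mem _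
  have h3' : ∀ x : A, T3 (AddSubgroup.inclusion hA x) := by
    intro x
    obtain ⟨s, hs⟩ := h3 x
    refine ⟨s, Subtype.ext ?_⟩
    simpa using hs
  obtain ⟨hT, hC⟩ := exists_isT hf' (AddSubgroup.inclusion hA) h3'
  exact ⟨_, hT, fun P a b c d => hC P a b c d⟩

theorem unique_t (h2 : ∀ P : W.Point, ∃ Q, Q + Q = P) (A : AddSubgroup W.Point) [Finite A]
    {t t' : A → A → B2 F} (ht : IsT t) (ht' : IsT t')
    (h : ∀ P a b c d : A, ff h2 (P : W.Point) a b c d = CR t P a b c d)
    (h' : ∀ P a b c d : A, ff h2 (P : W.Point) a b c d = CR t' P a b c d) : t = t' := by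
  classical
  have := Fintype.ofFinite A
  have hu : IsT (fun u v => t u v - t' u v) :=
    { swap := fun a b => by
        show t b a - t' b a = -(t a b - t' a b)
        rw [ht.swap a b, ht'.swap a b]; abel
      rot := fun a b => by
        show t b (-a - b) - t' b (-a - b) = t a b - t' a b
        rw [ht.rot, ht'.rot]
      even := fun a b => by
        show t (-a) (-b) - t' (-a) (-b) = t a b - t' a b
        rw [ht.even, ht'.even] }
  have hz : ∀ P a b c d : A, CR (fun u v => t u v - t' u v) P a b c d = 0 := by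
    intro P a b c d
    have e : CR (fun u v => t u v - t' u v) P a b c d = CR t P a b c d - CR t' P a b c d := by
      unfold CR th
      dsimp only
      abel
    rw [e, ← h, ← h', sub_self]
  funext a b
  exact sub_eq_zero.mp (isT_zero hu hz a b)

end Geo

end Pool.Agent.K4ParP
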