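import Mathlib

set_option autoImplicit false
set_option linter.unusedSectionVars false

/-!
Abstract layer of K4M: parity of the classes `ξ(a,b) = t(a,b) ⊗ (g_b - g_a)`.
`A` finite abelian group, `B`, `G`, `H` vector spaces over `ℚ`, `m : B → G → H` bilinear,
`t : A → A → B` alternating in `(a, b, -a-b)` and even, `g : A → G` even.
The only relation: `C(a,b,c,d) ⊗ (S₁ - S₂) = 0` for pairwise distinct `x`-coordinates.
-/

namespace Pool.Agent.K4Par

open Finset

variable {A B G H : Type*} [AddCommGroup A] [AddCommGroup B] [Module ℚ B]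
  [AddCommGroup G] [Module ℚ G] [AddCommGroup H] [Module ℚ H]

/-- `t` is alternating in the triple `(a, b, -a-b)` and even. -/
structure IsT (t : A → A → B) : Prop where
  swap : ∀ a b, t b a = - t a b
  rot : ∀ a b, t b (-a - b) = t a b
  even : ∀ a b, t (-a) (-b) = t a b

/-- `g` is even. -/
def IsG (g : A → G) : Prop := ∀ a, g (-a) = g a

def th (t : A → A → B) (a b c : A) : B :=
  t (a - b) (b - c) + t (a - b) (b + c) + t (a + b) (-b - c) + t (-a - b) (b - c)

def CR (t : A → A → B) (a b c d : A) : B :=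
  th t b c d - th t a c d + th t a b d - th t a b c

def ss (g : A → G) (a b : A) : G := g (a + b) + g (a - b)

/-- The basic relation for four points with pairwise distinct `x`-coordinates. -/
def Rel (m : B →ₗ[ℚ] G →ₗ[ℚ] H) (t : A → A → B) (g : A → G) : Prop :=
  ∀ a b c d : A, a ≠ b → a ≠ -b → a ≠ c → a ≠ -c → a ≠ d → a ≠ -d → b ≠ c → b ≠ -c →
    b ≠ d → b ≠ -d → c ≠ d → c ≠ -d →
    m (CR t a b c d) (ss g a b + ss g c d - ss g a c - ss g b d) = 0

def xi (m : B →ₗ[ℚ] G →ₗ[ℚ] H) (t : A → A → B) (g : A → G) (a b : A) : H :=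
  m (t a b) (g b - g a)

section basics

variable {t : A → A → B} {g : A → G}

lemma IsT.swap13 (ht : IsT t) (a b : A) : t a (-a - b) = - t a b := by
  have h1 := ht.rot b a
  have h2 := ht.swap a b
  rw [show (-b - a : A) = -a - b by abel] at h1
  rw [h1, h2]

lemma th_even3 (ht : IsT t) (a b c : A) : th t a b (-c) = th t a b c := by
  unfold th
  have h3 : t (a + b) (-b - -c) = t (-a - b) (b - c) := by
    rw [← ht.even]; congr 1 <;> abel
  have h4 : t (-a - b) (b - -c) = t (a + b) (-b - c) := by
    rw [← ht.even]; congr 1 <;> abel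
  rw [h3, h4, show b - -c = b + c by abel, show b + -c = b - c by abel]
  abel

lemma th_swap12 (ht : IsT t) (a b c : A) : th t b a c = - th t a b c := by
  unfold th
  have h1 : t (b - a) (a - c) = - t (a - b) (b - c) := by
    have := ht.swap13 (-(a - b)) (-(b - c))
    rw [ht.even] at this
    rw [← this]; congr 1 <;> abel
  have h2 : t (b - a) (a + c) = - t (a - b) (b + c) := by
    have := ht.swap13 (-(a - b)) (-(b + c))
    rw [ht.even] at this
    rw [← this]; congr 1 <;> abel
  have h3 : t (b + a) (-a - c) = - t (-a - b) (b - c) := by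
    have := ht.swap13 (-(-a - b)) (-(b - c))
    rw [ht.even] at this
    rw [← this]; congr 1 <;> abel
  have h4 : t (-b - a) (a - c) = - t (a + b) (-b - c) := by
    have := ht.swap13 (-(a + b)) (-(-b - c))
    rw [ht.even] at this
    rw [← this]; congr 1 <;> abel
  rw [h1, h2, h3, h4]; abel

lemma th_swap23 (ht : IsT t) (a b c : A) : th t a c b = - th t a b c := by
  unfold th
  have h1 : t (a - c) (c - b) = - t (a - b) (b - c) := by
    have e4 := ht.rot (b - a) (a - c)
    rw [show -(b - a) - (a - c) = c - b by abel] at e4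
    rw [e4]
    have e5 := ht.swap13 (-(a - b)) (-(b - c))
    rw [ht.even] at e5
    rw [← e5]; congr 1 <;> abel
  have h2 : t (a - c) (c + b) = - t (a + b) (-b - c) := by
    have e4 := ht.rot (-a - b) (a - c)
    rw [show -(-a - b) - (a - c) = c + b by abel] at e4
    rw [e4]
    have e5 := ht.swap13 (-(a + b)) (-(-b - c))
    rw [ht.even] at e5
    rw [← e5]; congr 1 <;> abel
  have h3 : t (a + c) (-c - b) = - t (a - b) (b + c) := by
    have e4 := ht.rot (b - a) (a + c)
    rw [show -(b - a) - (a + c) = -c - b by abel] at e4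
    rw [e4]
    have e5 := ht.swap13 (-(a - b)) (-(b + c))
    rw [ht.even] at e5
    rw [← e5]; congr 1 <;> abel
  have h4 : t (-a - c) (c - b) = - t (-a - b) (b - c) := by
    have e4 := ht.rot (a + b) (-a - c)
    rw [show -(a + b) - (-a - c) = c - b by abel] at e4
    rw [e4]
    have e5 := ht.swap13 (-(-a - b)) (-(b - c))
    rw [ht.even] at e5
    rw [← e5]; congr 1 <;> abel
  rw [h1, h2, h3, h4]; abel

lemma th_even2 (ht : IsT t) (a b c : A) : th t a (-b) c = th t a b c := by
  rw [th_swap23 ht a c (-b), th_even3 ht, th_swap23 ht a b c, neg_neg]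

lemma th_even1 (ht : IsT t) (a b c : A) : th t (-a) b c = th t a b c := by
  rw [th_swap12 ht b (-a) c, th_even2 ht, th_swap12 ht a b c, neg_neg]

lemma eq_zero_of_neg {V : Type*} [AddCommGroup V] [Module ℚ V] {x : V} (h : x = -x) : x = 0 := by
  have h2 : (2 : ℚ) • x = 0 := by rw [two_smul]; nth_rw 1 [h]; abel
  exact (smul_eq_zero.mp h2).resolve_left (by norm_num)

lemma th_aa (ht : IsT t) (a c : A) : th t a a c = 0 :=
  eq_zero_of_neg (th_swap12 ht a a c)

lemma th_bb (ht : IsT t) (a b : A) : th t a b b = 0 :=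
  eq_zero_of_neg (th_swap23 ht a b b)

lemma th_ac (ht : IsT t) (a b : A) : th t a b a = 0 := by
  rw [th_swap23 ht a a b, th_aa ht, neg_zero]

end basics

section sums

variable [Fintype A] {t : A → A → B} {g : A → G}

lemma sum_t (ht : IsT t) (u : A) : ∑ e, t u e = 0 := by
  apply eq_zero_of_neg
  conv_lhs => rw [← Equiv.sum_comp (Equiv.subLeft (-u)) (fun e => t u e)]
  simp only [Equiv.subLeft_apply]
  rw [← Finset.sum_neg_distrib]
  exact Finset.sum_congr rfl fun e _ => ht.swap13 u e

lemma sum_t' (ht : IsT t) (e : A) : ∑ u, t u e = 0 := by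
  have : ∀ u, t u e = - t e u := fun u => ht.swap e u
  simp only [this, Finset.sum_neg_distrib, sum_t ht, neg_zero]

lemma sum_th3 (ht : IsT t) (a b : A) : ∑ d, th t a b d = 0 := by
  unfold th
  simp only [Finset.sum_add_distrib]
  have h1 : ∑ d, t (a - b) (b - d) = 0 := by
    rw [← sum_t ht (a - b)]
    exact Equiv.sum_comp (Equiv.subLeft b) (fun e => t (a - b) e)
  have h2 : ∑ d, t (a - b) (b + d) = 0 := by
    rw [← sum_t ht (a - b)]
    exact Equiv.sum_comp (Equiv.addLeft b) (fun e => t (a - b) e)
  have h3 : ∑ d, t (a + b) (-b - d) = 0 := by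
    rw [← sum_t ht (a + b)]
    exact Equiv.sum_comp (Equiv.subLeft (-b)) (fun e => t (a + b) e)
  have h4 : ∑ d, t (-a - b) (b - d) = 0 := by
    rw [← sum_t ht (-a - b)]
    exact Equiv.sum_comp (Equiv.subLeft b) (fun e => t (-a - b) e)
  rw [h1, h2, h3, h4]; simp

lemma sum_th2 (ht : IsT t) (a b : A) : ∑ d, th t a d b = 0 := by
  have : ∀ d, th t a d b = - th t a b d := fun d => th_swap23 ht a b d
  simp only [this, Finset.sum_neg_distrib, sum_th3 ht, neg_zero]

lemma sum_th1 (ht : IsT t) (a b : A) : ∑ d, th t d a b = 0 := by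
  have : ∀ d, th t d a b = - th t a d b := fun d => th_swap12 ht a d b
  simp only [this, Finset.sum_neg_distrib, sum_th2 ht, neg_zero]

lemma sum_ss (c : A) : ∑ d, ss g c d = (2 : ℚ) • ∑ a, g a := by
  unfold ss
  rw [Finset.sum_add_distrib, two_smul]
  congr 1
  · exact Equiv.sum_comp (Equiv.addLeft c) g
  · exact Equiv.sum_comp (Equiv.subLeft c) g

end sums

section relations

variable {m : B →ₗ[ℚ] G →ₗ[ℚ] H} {t : A → A → B} {g : A → G}

/-- The relation holds for all quadruples: if two `x`-coordinates coincide, `C = 0`. -/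
lemma rel_all (ht : IsT t) (hr : Rel m t g) (a b c d : A) :
    m (CR t a b c d) (ss g a b + ss g c d - ss g a c - ss g b d) = 0 := by
  by_cases h1 : a = b
  · subst h1
    have : CR t a a c d = 0 := by unfold CR; rw [th_aa ht, th_aa ht]; abel
    rw [this, map_zero, LinearMap.zero_apply]
  by_cases h2 : a = -b
  · subst h2
    have : CR t (-b) b c d = 0 := by
      unfold CR; rw [th_even1 ht, th_even1 ht, th_even1 ht, th_aa ht, th_aa ht]; abel
    rw [this, map_zero, LinearMap.zero_apply]
  by_cases h3 : a = c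
  · subst h3
    have : CR t a b a d = 0 := by
      unfold CR; rw [th_aa ht, th_ac ht, th_swap12 ht a b d]; abel
    rw [this, map_zero, LinearMap.zero_apply]
  by_cases h4 : a = -c
  · subst h4
    have : CR t (-c) b c d = 0 := by
      unfold CR; rw [th_even1 ht, th_even1 ht, th_even1 ht, th_aa ht, th_ac ht, th_swap12 ht c b d]
      abel
    rw [this, map_zero, LinearMap.zero_apply]
  by_cases h5 : a = d
  · subst h5
    have : CR t a b c a = 0 := by
      unfold CR; rw [th_ac ht, th_ac ht, th_swap23 ht b a c, th_swap12 ht a b c]; abel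
    rw [this, map_zero, LinearMap.zero_apply]
  by_cases h6 : a = -d
  · subst h6
    have : CR t (-d) b c d = 0 := by
      unfold CR
      rw [th_even1 ht, th_even1 ht, th_even1 ht, th_ac ht, th_ac ht, th_swap23 ht b d c,
        th_swap12 ht d b c]
      abel
    rw [this, map_zero, LinearMap.zero_apply]
  by_cases h7 : b = c
  · subst h7
    have : CR t a b b d = 0 := by unfold CR; rw [th_aa ht, th_bb ht]; abel
    rw [this, map_zero, LinearMap.zero_apply]
  by_cases h8 : b = -c
  · subst h8
    have : CR t a (-c) c d = 0 := by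
      unfold CR; rw [th_even1 ht, th_even2 ht, th_even2 ht, th_aa ht, th_bb ht]; abel
    rw [this, map_zero, LinearMap.zero_apply]
  by_cases h9 : b = d
  · subst h9
    have : CR t a b c b = 0 := by
      unfold CR; rw [th_ac ht, th_bb ht, th_swap23 ht a b c]; abel
    rw [this, map_zero, LinearMap.zero_apply]
  by_cases h10 : b = -d
  · subst h10
    have : CR t a (-d) c d = 0 := by
      unfold CR
      rw [th_even1 ht, th_even2 ht, th_even2 ht, th_ac ht, th_bb ht, th_swap23 ht a d c]; abel
    rw [this, map_zero, LinearMap.zero_apply]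
  by_cases h11 : c = d
  · subst h11
    have : CR t a b c c = 0 := by unfold CR; rw [th_bb ht, th_bb ht]; abel
    rw [this, map_zero, LinearMap.zero_apply]
  by_cases h12 : c = -d
  · subst h12
    have : CR t a b (-d) d = 0 := by
      unfold CR; rw [th_even2 ht, th_even2 ht, th_even3 ht, th_bb ht, th_bb ht]; abel
    rw [this, map_zero, LinearMap.zero_apply]
  exact hr a b c d h1 h2 h3 h4 h5 h6 h7 h8 h9 h10 h11 h12

variable [Fintype A]

def PP (m : B →ₗ[ℚ] G →ₗ[ℚ] H) (t : A → A → B) (g : A → G) (a b : A) : H :=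
  ∑ d, m (th t a b d) (ss g b d)

def RR (m : B →ₗ[ℚ] G →ₗ[ℚ] H) (t : A → A → B) (g : A → G) (a b c : A) : H :=
  ∑ d, m (th t a b d) (ss g c d)

def gam (m : B →ₗ[ℚ] G →ₗ[ℚ] H) (t : A → A → B) (g : A → G) (u v : A) : H :=
  ∑ e, m (t u e) (g (e + v))

lemma sum_left (F : A → B) (x : G) (h : ∑ d, F d = 0) : ∑ d, m (F d) x = 0 := by
  have : ∑ d, m (F d) x = m (∑ d, F d) x := by rw [map_sum, LinearMap.sum_apply]
  rw [this, h, map_zero, LinearMap.zero_apply]

lemma sum_right (b : B) (F : A → G) : ∑ d, m b (F d) = m b (∑ d, F d) := by rw [map_sum]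

/-- Formula (I). -/
lemma formI (ht : IsT t) (hr : Rel m t g) (a b c : A) :
    (Fintype.card A : ℚ) • m (th t a b c) (ss g a b - ss g a c) =
      PP m t g b c + PP m t g c b - PP m t g a c - PP m t g a b
        + RR m t g a c b + RR m t g a b c := by
  have h : ∑ d, m (CR t a b c d) (ss g a b + ss g c d - ss g a c - ss g b d) = 0 :=
    Finset.sum_eq_zero fun d _ => rel_all ht hr a b c d
  have e : ∀ d, m (CR t a b c d) (ss g a b + ss g c d - ss g a c - ss g b d) =
      m (th t b c d) (ss g a b - ss g a c) - m (th t a c d) (ss g a b - ss g a c)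
      + m (th t a b d) (ss g a b - ss g a c) - m (th t a b c) (ss g a b - ss g a c)
      + m (th t b c d) (ss g c d) + m (th t c b d) (ss g b d)
      - m (th t a c d) (ss g c d) + m (th t a c d) (ss g b d)
      + m (th t a b d) (ss g c d) - m (th t a b d) (ss g b d)
      - m (th t a b c) (ss g c d) + m (th t a b c) (ss g b d) := by
    intro d
    rw [th_swap12 ht b c d]
    unfold CR
    simp only [map_sub, map_add, map_neg, LinearMap.sub_apply, LinearMap.add_apply,
      LinearMap.neg_apply]
    abel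
  simp only [e] at h
  simp only [Finset.sum_add_distrib, Finset.sum_sub_distrib] at h
  rw [sum_left _ _ (sum_th3 ht b c), sum_left _ _ (sum_th3 ht a c),
    sum_left _ _ (sum_th3 ht a b), sum_right (th t a b c) (fun d => ss g c d),
    sum_right (th t a b c) (fun d => ss g b d), sum_ss, sum_ss] at h
  simp only [Finset.sum_const, Finset.card_univ] at h
  unfold PP RR
  rw [← Nat.cast_smul_eq_nsmul ℚ] at h
  rw [← sub_eq_zero, ← neg_eq_zero, ← h]
  abel

lemma ss_comm (hg : IsG g) (a b : A) : ss g a b = ss g b a := by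
  unfold ss
  rw [add_comm a b, ← hg (a - b)]; congr 2; abel

/-- Formula (II). -/
lemma formII (ht : IsT t) (hg : IsG g) (hr : Rel m t g) (a b : A) :
    PP m t g a b + PP m t g b a = 0 := by
  have h : ∑ c, (Fintype.card A : ℚ) • m (th t a b c) (ss g a b - ss g a c) =
      ∑ c, (PP m t g b c + PP m t g c b - PP m t g a c - PP m t g a b
        + RR m t g a c b + RR m t g a b c) :=
    Finset.sum_congr rfl fun c _ => formI ht hr a b c
  have e1 : ∑ c, (Fintype.card A : ℚ) • m (th t a b c) (ss g a b - ss g a c) =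
      (Fintype.card A : ℚ) • PP m t g b a := by
    rw [← Finset.smul_sum]
    congr 1
    unfold PP
    have : ∀ c, m (th t a b c) (ss g a b - ss g a c) =
        m (th t a b c) (ss g a b) + m (th t b a c) (ss g a c) := by
      intro c
      rw [th_swap12 ht a b c, map_sub, map_neg, LinearMap.neg_apply]; abel
    simp only [this, Finset.sum_add_distrib]
    rw [sum_left _ _ (sum_th3 ht a b), zero_add]
  have e2 : ∑ c, PP m t g b c = 0 := by
    apply eq_zero_of_neg
    unfold PP
    conv_lhs => rw [Finset.sum_comm]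
    rw [← Finset.sum_neg_distrib]
    refine Finset.sum_congr rfl fun c _ => ?_
    rw [← Finset.sum_neg_distrib]
    refine Finset.sum_congr rfl fun d _ => ?_
    rw [th_swap23 ht b c d, map_neg, LinearMap.neg_apply, ss_comm hg d c]
  have e3 : ∑ c, PP m t g c b = 0 := by
    unfold PP
    rw [Finset.sum_comm]
    exact Finset.sum_eq_zero fun d _ => sum_left _ _ (sum_th1 ht b d)
  have e4 : ∑ c, PP m t g a c = 0 := by
    apply eq_zero_of_neg
    unfold PP
    conv_lhs => rw [Finset.sum_comm]
    rw [← Finset.sum_neg_distrib]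
    refine Finset.sum_congr rfl fun c _ => ?_
    rw [← Finset.sum_neg_distrib]
    refine Finset.sum_congr rfl fun d _ => ?_
    rw [th_swap23 ht a c d, map_neg, LinearMap.neg_apply, ss_comm hg d c]
  have e5 : ∑ c, RR m t g a c b = 0 := by
    unfold RR
    rw [Finset.sum_comm]
    exact Finset.sum_eq_zero fun d _ => sum_left _ _ (sum_th2 ht a d)
  have e6 : ∑ c, RR m t g a b c = 0 := by
    unfold RR
    rw [Finset.sum_comm]
    have : ∀ d, ∑ c, m (th t a b d) (ss g c d) = m (th t a b d) ((2 : ℚ) • ∑ a, g a) := by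
      intro d
      rw [sum_right (th t a b d) (fun c => ss g c d), ← sum_ss d]
      congr 1
      exact Finset.sum_congr rfl fun c _ => ss_comm hg c d
    simp only [this]
    exact sum_left _ _ (sum_th3 ht a b)
  rw [e1] at h
  simp only [Finset.sum_add_distrib, Finset.sum_sub_distrib, e2, e3, e4, e5, e6, Finset.sum_const,
    Finset.card_univ] at h
  rw [← Nat.cast_smul_eq_nsmul ℚ] at h
  have h2 : (Fintype.card A : ℚ) • (PP m t g a b + PP m t g b a) = 0 := by
    rw [smul_add, h]; abel
  exact (smul_eq_zero.mp h2).resolve_left (Nat.cast_ne_zero.mpr Fintype.card_ne_zero)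

/-- Formula (III). -/
lemma formIII (ht : IsT t) (hg : IsG g) (hr : Rel m t g) (a b c : A) :
    (Fintype.card A : ℚ) • m (th t a b c) (ss g a b - ss g a c) =
      - PP m t g a c - PP m t g a b + RR m t g a c b + RR m t g a b c := by
  rw [formI ht hr, formII ht hg hr b c]; abel

/-- `γ(u,v) = -γ(u,u-v)`. -/
lemma gam_refl (ht : IsT t) (hg : IsG g) (u v : A) : gam m t g u (u - v) = - gam m t g u v := by
  unfold gam
  conv_lhs => rw [← Equiv.sum_comp (Equiv.subLeft (-u)) _]
  simp only [Equiv.subLeft_apply]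
  rw [← Finset.sum_neg_distrib]
  refine Finset.sum_congr rfl fun e _ => ?_
  rw [ht.swap13 u e, map_neg, LinearMap.neg_apply, ← hg (e + v)]
  congr 3; abel

lemma gam_neg (ht : IsT t) (hg : IsG g) (u v : A) : gam m t g (-u) v = gam m t g u (-v) := by
  unfold gam
  conv_lhs => rw [← Equiv.sum_comp (Equiv.neg A) _]
  simp only [Equiv.neg_apply]
  refine Finset.sum_congr rfl fun e _ => ?_
  rw [ht.even u e, ← hg (e + -v)]
  congr 2; abel

/-- `P(a,b) = 2[f(u)+f(v)-γ(u,v)-γ(v,u)]`, `u = a-b`, `v = a+b`. -/
lemma PP_eq (ht : IsT t) (hg : IsG g) (a b : A) :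
    PP m t g a b = (2 : ℚ) • (gam m t g (a - b) 0 + gam m t g (a + b) 0
      - gam m t g (a - b) (a + b) - gam m t g (a + b) (a - b)) := by
  have h1 : PP m t g a b = (2 : ℚ) • ∑ d, m (th t a b d) (g (b + d)) := by
    unfold PP ss
    simp only [map_add, Finset.sum_add_distrib]
    rw [two_smul]
    congr 1
    conv_lhs => rw [← Equiv.sum_comp (Equiv.neg A) _]
    simp only [Equiv.neg_apply]
    refine Finset.sum_congr rfl fun d _ => ?_
    rw [th_even3 ht, sub_neg_eq_add]
  rw [h1]
  congr 1
  unfold th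
  simp only [map_add, LinearMap.add_apply, Finset.sum_add_distrib]
  have e1 : ∑ d, m (t (a - b) (b - d)) (g (b + d)) = - gam m t g (a - b) (a + b) := by
    rw [← gam_refl ht hg]
    unfold gam
    conv_rhs => rw [← Equiv.sum_comp (Equiv.subLeft b) _]
    simp only [Equiv.subLeft_apply]
    refine Finset.sum_congr rfl fun d _ => ?_
    rw [← hg (b + d)]; congr 2; abel
  have e2 : ∑ d, m (t (a - b) (b + d)) (g (b + d)) = gam m t g (a - b) 0 := by
    unfold gam
    conv_rhs => rw [← Equiv.sum_comp (Equiv.addLeft b) _]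
    simp only [Equiv.coe_addLeft, add_zero]
  have e3 : ∑ d, m (t (a + b) (-b - d)) (g (b + d)) = gam m t g (a + b) 0 := by
    unfold gam
    conv_rhs => rw [← Equiv.sum_comp (Equiv.subLeft (-b)) _]
    simp only [Equiv.subLeft_apply, add_zero]
    refine Finset.sum_congr rfl fun d _ => ?_
    rw [← hg (b + d)]; congr 2; abel
  have e4 : ∑ d, m (t (-a - b) (b - d)) (g (b + d)) = - gam m t g (a + b) (a - b) := by
    rw [← gam_refl ht hg, show (a + b) - (a - b) = - (-b - b) by abel, ← gam_neg ht hg]
    unfold gam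
    conv_rhs => rw [← Equiv.sum_comp (Equiv.subLeft b) _]
    simp only [Equiv.subLeft_apply]
    refine Finset.sum_congr rfl fun d _ => ?_
    rw [← hg (b + d)]
    congr 2
    · congr 1; abel
    · abel
  rw [e1, e2, e3, e4]; abel

/-- `f = 0` for `A` of odd order (doubling injective). -/
lemma f_zero (ht : IsT t) (hg : IsG g) (hr : Rel m t g)
    (h2 : Function.Injective (fun a : A => a + a)) (s : A) : gam m t g s 0 = 0 := by
  have hb : Function.Bijective (fun a : A => a + a) := Finite.injective_iff_bijective.mp h2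
  have hS : ∑ a, PP m t g a (s - a) = 0 := by
    apply eq_zero_of_neg
    conv_lhs => rw [← Equiv.sum_comp (Equiv.subLeft s) _]
    simp only [Equiv.subLeft_apply, sub_sub_cancel]
    rw [← Finset.sum_neg_distrib]
    refine Finset.sum_congr rfl fun a _ => ?_
    exact eq_neg_of_add_eq_zero_left (formII ht hg hr (s - a) a)
  have hE : ∀ a, PP m t g a (s - a) = (2 : ℚ) • (gam m t g (a + a - s) 0 + gam m t g s 0
      - gam m t g (a + a - s) s - gam m t g s (a + a - s)) := by
    intro a
    rw [PP_eq ht hg, show a - (s - a) = a + a - s by abel, show a + (s - a) = s by abel]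
  simp only [hE] at hS
  rw [← Finset.smul_sum] at hS
  have hS2 := (smul_eq_zero.mp hS).resolve_left (by norm_num : (2 : ℚ) ≠ 0)
  let φ : A ≃ A := (Equiv.ofBijective _ hb).trans (Equiv.subRight s)
  have hφ : ∀ a, φ a = a + a - s := fun a => rfl
  simp only [← hφ] at hS2
  rw [Equiv.sum_comp φ (fun u => gam m t g u 0 + gam m t g s 0
      - gam m t g u s - gam m t g s u)] at hS2
  simp only [Finset.sum_add_distrib, Finset.sum_sub_distrib] at hS2
  have z1 : ∀ v, ∑ u, gam m t g u v = 0 := by
    intro v
    unfold gam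
    rw [Finset.sum_comm]
    exact Finset.sum_eq_zero fun e _ => sum_left _ _ (sum_t' ht e)
  have z2 : ∑ u, gam m t g s u = 0 := by
    unfold gam
    rw [Finset.sum_comm]
    have : ∀ e, ∑ u, m (t s e) (g (e + u)) = m (t s e) (∑ a, g a) := by
      intro e
      rw [sum_right (t s e) (fun u => g (e + u))]
      congr 1
      exact Equiv.sum_comp (Equiv.addLeft e) g
    simp only [this]
    exact sum_left _ _ (sum_t ht s)
  rw [z1, z1, z2] at hS2
  simp only [Finset.sum_const, Finset.card_univ] at hS2
  rw [← Nat.cast_smul_eq_nsmul ℚ] at hS2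
  have : (Fintype.card A : ℚ) • gam m t g s 0 = 0 := by
    rw [← hS2]; abel
  exact (smul_eq_zero.mp this).resolve_left (Nat.cast_ne_zero.mpr Fintype.card_ne_zero)

lemma th_zero (ht : IsT t) (b c : A) : th t 0 b c = -((2 : ℚ) • (t b c + t b (-c))) := by
  unfold th
  have e1 : t (0 - b) (b - c) = - t b (-c) := by
    have := ht.swap13 (-b) c
    rw [← ht.even b (-c), neg_neg, ← this]; congr 1 <;> abel
  have e2 : t (0 - b) (b + c) = - t b c := by
    have := ht.swap13 b c
    rw [← this, ← ht.even]; congr 1 <;> abel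
  have e3 : t (0 + b) (-b - c) = - t b c := by
    have := ht.swap13 b c
    rw [← this, zero_add]
  have e4 : t (-0 - b) (b - c) = - t b (-c) := by
    rw [← e1, neg_zero]
  rw [e1, e2, e3, e4, smul_add, two_smul, two_smul]; abel

/-- (II) for the pair `(0,b)`: `h(b) = 3 f(b)`. -/
lemma h_eq (ht : IsT t) (hg : IsG g) (hr : Rel m t g) (b : A) :
    gam m t g b (-b) = (3 : ℚ) • gam m t g b 0 := by
  have h := formII ht hg hr 0 b
  rw [PP_eq ht hg, PP_eq ht hg] at h
  simp only [zero_sub, zero_add, sub_zero, add_zero] at h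
  rw [gam_neg ht hg b 0, gam_neg ht hg b b, neg_zero] at h
  have e := gam_refl (m := m) ht hg b 0
  rw [sub_zero] at e
  rw [e] at h
  have h' : (4 : ℚ) • ((3 : ℚ) • gam m t g b 0 - gam m t g b (-b)) = 0 := by
    rw [← h]; module
  have h'' := (smul_eq_zero.mp h').resolve_left (by norm_num)
  exact (sub_eq_zero.mp h'').symm

lemma RR_zero (ht : IsT t) (hg : IsG g) (b c : A) :
    RR m t g 0 b c = -((4 : ℚ) • (gam m t g b c + gam m t g b (-c))) := by
  have h1 : RR m t g 0 b c = (2 : ℚ) • ∑ d, m (th t 0 b d) (g (d + c)) := by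
    unfold RR ss
    simp only [map_add, Finset.sum_add_distrib]
    rw [two_smul]
    congr 1
    · exact Finset.sum_congr rfl fun d _ => by rw [add_comm]
    · conv_lhs => rw [← Equiv.sum_comp (Equiv.neg A) _]
      simp only [Equiv.neg_apply]
      refine Finset.sum_congr rfl fun d _ => ?_
      rw [th_even3 ht, sub_neg_eq_add, add_comm]
  rw [h1]
  simp only [th_zero ht]
  simp only [map_neg, map_smul, map_add, LinearMap.neg_apply, LinearMap.smul_apply,
    LinearMap.add_apply, Finset.sum_neg_distrib, ← Finset.smul_sum, Finset.sum_add_distrib]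
  have e1 : ∑ d, m (t b d) (g (d + c)) = gam m t g b c := rfl
  have e2 : ∑ d, m (t b (-d)) (g (d + c)) = gam m t g b (-c) := by
    unfold gam
    conv_rhs => rw [← Equiv.sum_comp (Equiv.neg A) _]
    simp only [Equiv.neg_apply]
    refine Finset.sum_congr rfl fun d _ => ?_
    rw [← hg (d + c)]; congr 2; abel
  rw [e1, e2]; module

/-- **Parity**: `ξ(b,-c) = -ξ(b,c)` for `A` of odd order. -/
theorem parity (ht : IsT t) (hg : IsG g) (hr : Rel m t g)
    (h2 : Function.Injective (fun a : A => a + a)) (b c : A) :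
    xi m t g b (-c) = - xi m t g b c := by
  have hf := f_zero ht hg hr h2
  have h3 := formIII ht hg hr 0 b c
  have hb : Function.Bijective (fun a : A => a + a) := Finite.injective_iff_bijective.mp h2
  -- (II) for u+v in 2A
  have key : gam m t g b c + gam m t g b (-c) + gam m t g c b + gam m t g c (-b) = 0 := by
    obtain ⟨y, hy⟩ := hb.2 (b + c)
    have hy' : y + y = b + c := hy
    have hII := formII ht hg hr y (y - b)
    rw [PP_eq ht hg, PP_eq ht hg] at hII
    have s1 : y - (y - b) = b := by abel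
    have s2 : y + (y - b) = c := by rw [show y + (y - b) = y + y - b by abel, hy']; abel
    have s3 : y - b - y = -b := by abel
    have s4 : y - b + y = c := by rw [add_comm]; exact s2
    rw [s1, s2, s3, s4] at hII
    simp only [hf, gam_neg ht hg b c] at hII
    have : (2 : ℚ) • (gam m t g b c + gam m t g b (-c) + gam m t g c b + gam m t g c (-b)) = 0 := by
      rw [← neg_eq_zero, ← hII]; module
    exact (smul_eq_zero.mp this).resolve_left (by norm_num)
  have hPb : ∀ b, PP m t g 0 b = 0 := by
    intro b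
    rw [PP_eq ht hg]
    simp only [zero_sub, zero_add, hf, gam_neg ht hg b b, h_eq ht hg hr b]
    simp
  rw [hPb, hPb, RR_zero ht hg, RR_zero ht hg, th_zero ht] at h3
  have hs : ss g 0 b - ss g 0 c = (2 : ℚ) • (g b - g c) := by
    unfold ss
    rw [zero_add, zero_add, zero_sub, zero_sub, hg, hg]; module
  rw [hs] at h3
  simp only [map_neg, map_smul, map_add, LinearMap.neg_apply, LinearMap.smul_apply,
    LinearMap.add_apply] at h3
  have h4 : ((Fintype.card A : ℚ) * 4) • (xi m t g b c + xi m t g b (-c)) = 0 := by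
    unfold xi
    rw [hg c]
    have e1 : m (t b c) (g b - g c) = - m (t b c) (g c - g b) := by rw [← map_neg, neg_sub]
    have e2 : m (t b (-c)) (g b - g c) = - m (t b (-c)) (g c - g b) := by rw [← map_neg, neg_sub]
    rw [e1, e2] at h3
    have h5 : -(0 : H) - 0 + -((4 : ℚ) • (gam m t g c b + gam m t g c (-b)))
        + -((4 : ℚ) • (gam m t g b c + gam m t g b (-c))) = 0 := by
      have : -(0 : H) - 0 + -((4 : ℚ) • (gam m t g c b + gam m t g c (-b)))
        + -((4 : ℚ) • (gam m t g b c + gam m t g b (-c))) =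
        -((4 : ℚ) • (gam m t g b c + gam m t g b (-c) + gam m t g c b + gam m t g c (-b))) := by
        module
      rw [this, key]; simp
    rw [h5] at h3
    rw [← h3]; module
  have h6 := (smul_eq_zero.mp h4).resolve_left
    (mul_ne_zero (Nat.cast_ne_zero.mpr Fintype.card_ne_zero) (by norm_num))
  exact eq_neg_of_add_eq_zero_right h6

end relations

end Pool.Agent.K4Par
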