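import Mathlib

set_option autoImplicit false
set_option linter.unusedSectionVars false

/-!
Abstract layer of K4M, all pencils `a ~ -P-a`, `P ∈ A`, `A` a finite abelian group of ANY order.
`B`, `G`, `H` vector spaces over `ℚ`, `m : B → G → H` bilinear,
`t : A → A → B` alternating in `(a, b, -a-b)` and even, `g : A → G` even.
The only relation: `C_P(a,b,c,d) ⊗ (s_ab + s_cd - s_ac - s_bd) = 0` for pairwise distinct values.
Result: `ξ(a,b) = t(a,b) ⊗ (g_b - g_a)` satisfies `ξ(a,-b) = -ξ(a,b)`.
-/

namespace Pool.Agent.K4ParP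

open Finset

variable {A B G H : Type*} [AddCommGroup A] [AddCommGroup B] [Module ℚ B]
  [AddCommGroup G] [Module ℚ G] [AddCommGroup H] [Module ℚ H]

/-- `t` is alternating in the triple `(a, b, -a-b)` and even. -/
structure IsT (t : A → A → B) : Prop where
  swap : ∀ a b, t b a = - t a b
  rot : ∀ a b, t b (-a - b) = t a b
  even : ∀ a b, t (-a) (-b) = t a b

/-- `g` is even. -/
def IsG (g : A → G) : Prop := ∀ a, g (-a) = g a

/-- `th_P(a,b,c) = T(a,b,c) + T(a,b,c') + T(a,b',c) + T(a',b,c)`, `z' = -P-z`,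
`T(a,b,c) = t(a-b,b-c)`. -/
def th (t : A → A → B) (P a b c : A) : B :=
  t (a - b) (b - c) + t (a - b) (b + c + P) + t (a + b + P) (-P - b - c) + t (-P - a - b) (b - c)

def CR (t : A → A → B) (P a b c d : A) : B :=
  th t P b c d - th t P a c d + th t P a b d - th t P a b c

def ss (g : A → G) (P a b : A) : G := g (a - b) + g (a + b + P)

/-- The basic relation for four points with pairwise distinct values of the pencil `P`. -/
def Rel (m : B →ₗ[ℚ] G →ₗ[ℚ] H) (t : A → A → B) (g : A → G) (P : A) : Prop :=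
  ∀ a b c d : A, a ≠ b → a + b + P ≠ 0 → a ≠ c → a + c + P ≠ 0 → a ≠ d → a + d + P ≠ 0 →
    b ≠ c → b + c + P ≠ 0 → b ≠ d → b + d + P ≠ 0 → c ≠ d → c + d + P ≠ 0 →
    m (CR t P a b c d) (ss g P a b + ss g P c d - ss g P a c - ss g P b d) = 0

def xi (m : B →ₗ[ℚ] G →ₗ[ℚ] H) (t : A → A → B) (g : A → G) (a b : A) : H :=
  m (t a b) (g b - g a)

section basics

variable {t : A → A → B} {g : A → G}

lemma IsT.swap13 (ht : IsT t) (a b : A) : t a (-a - b) = - t a b := by
  have h1 := ht.rot b a
  have h2 := ht.swap a b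
  rw [show (-b - a : A) = -a - b by abel] at h1
  rw [h1, h2]

lemma th_even3 (ht : IsT t) (P a b c : A) : th t P a b (-P - c) = th t P a b c := by
  unfold th
  have h3 : t (a + b + P) (-P - b - (-P - c)) = t (-P - a - b) (b - c) := by
    rw [← ht.even]; congr 1 <;> abel
  have h4 : t (-P - a - b) (b - (-P - c)) = t (a + b + P) (-P - b - c) := by
    rw [← ht.even]; congr 1 <;> abel
  rw [h3, h4, show b - (-P - c) = b + c + P by abel, show b + (-P - c) + P = b - c by abel]
  abel

lemma th_swap12 (ht : IsT t) (P a b c : A) : th t P b a c = - th t P a b c := by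
  unfold th
  have h1 : t (b - a) (a - c) = - t (a - b) (b - c) := by
    have := ht.swap13 (-(a - b)) (-(b - c))
    rw [ht.even] at this
    rw [← this]; congr 1 <;> abel
  have h2 : t (b - a) (a + c + P) = - t (a - b) (b + c + P) := by
    have := ht.swap13 (-(a - b)) (-(b + c + P))
    rw [ht.even] at this
    rw [← this]; congr 1 <;> abel
  have h3 : t (b + a + P) (-P - a - c) = - t (-P - a - b) (b - c) := by
    have := ht.swap13 (-(-P - a - b)) (-(b - c))
    rw [ht.even] at this
    rw [← this]; congr 1 <;> abel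
  have h4 : t (-P - b - a) (a - c) = - t (a + b + P) (-P - b - c) := by
    have := ht.swap13 (-(a + b + P)) (-(-P - b - c))
    rw [ht.even] at this
    rw [← this]; congr 1 <;> abel
  rw [h1, h2, h3, h4]; abel

lemma th_swap23 (ht : IsT t) (P a b c : A) : th t P a c b = - th t P a b c := by
  unfold th
  have h1 : t (a - c) (c - b) = - t (a - b) (b - c) := by
    have e4 := ht.rot (b - a) (a - c)
    rw [show -(b - a) - (a - c) = c - b by abel] at e4
    rw [e4]
    have e5 := ht.swap13 (-(a - b)) (-(b - c))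
    rw [ht.even] at e5
    rw [← e5]; congr 1 <;> abel
  have h2 : t (a - c) (c + b + P) = - t (a + b + P) (-P - b - c) := by
    have e4 := ht.rot (-P - a - b) (a - c)
    rw [show -(-P - a - b) - (a - c) = c + b + P by abel] at e4
    rw [e4]
    have e5 := ht.swap13 (-(a + b + P)) (-(-P - b - c))
    rw [ht.even] at e5
    rw [← e5]; congr 1 <;> abel
  have h3 : t (a + c + P) (-P - c - b) = - t (a - b) (b + c + P) := by
    have e4 := ht.rot (b - a) (a + c + P)
    rw [show -(b - a) - (a + c + P) = -P - c - b by abel] at e4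
    rw [e4]
    have e5 := ht.swap13 (-(a - b)) (-(b + c + P))
    rw [ht.even] at e5
    rw [← e5]; congr 1 <;> abel
  have h4 : t (-P - a - c) (c - b) = - t (-P - a - b) (b - c) := by
    have e4 := ht.rot (a + b + P) (-P - a - c)
    rw [show -(a + b + P) - (-P - a - c) = c - b by abel] at e4
    rw [e4]
    have e5 := ht.swap13 (-(-P - a - b)) (-(b - c))
    rw [ht.even] at e5
    rw [← e5]; congr 1 <;> abel
  rw [h1, h2, h3, h4]; abel

lemma th_even2 (ht : IsT t) (P a b c : A) : th t P a (-P - b) c = th t P a b c := by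
  rw [th_swap23 ht P a c (-P - b), th_even3 ht, th_swap23 ht P a b c, neg_neg]

lemma th_even1 (ht : IsT t) (P a b c : A) : th t P (-P - a) b c = th t P a b c := by
  rw [th_swap12 ht P b (-P - a) c, th_even2 ht, th_swap12 ht P a b c, neg_neg]

lemma eq_zero_of_neg {V : Type*} [AddCommGroup V] [Module ℚ V] {x : V} (h : x = -x) : x = 0 := by
  have h2 : (2 : ℚ) • x = 0 := by rw [two_smul]; nth_rw 1 [h]; abel
  exact (smul_eq_zero.mp h2).resolve_left (by norm_num)

lemma th_aa (ht : IsT t) (P a c : A) : th t P a a c = 0 :=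
  eq_zero_of_neg (th_swap12 ht P a a c)

lemma th_bb (ht : IsT t) (P a b : A) : th t P a b b = 0 :=
  eq_zero_of_neg (th_swap23 ht P a b b)

lemma th_ac (ht : IsT t) (P a b : A) : th t P a b a = 0 := by
  rw [th_swap23 ht P a a b, th_aa ht, neg_zero]

lemma ss_comm (hg : IsG g) (P a b : A) : ss g P a b = ss g P b a := by
  unfold ss
  rw [add_comm a b, ← hg (a - b)]; congr 2; abel

end basics

section sums

variable [Fintype A] {t : A → A → B} {g : A → G}

lemma sum_t (ht : IsT t) (u : A) : ∑ e, t u e = 0 := by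
  apply eq_zero_of_neg
  conv_lhs => rw [← Equiv.sum_comp (Equiv.subLeft (-u)) (fun e => t u e)]
  simp only [Equiv.subLeft_apply]
  rw [← Finset.sum_neg_distrib]
  exact Finset.sum_congr rfl fun e _ => ht.swap13 u e

lemma sum_t' (ht : IsT t) (e : A) : ∑ u, t u e = 0 := by
  have : ∀ u, t u e = - t e u := fun u => ht.swap e u
  simp only [this, Finset.sum_neg_distrib, sum_t ht, neg_zero]

lemma sum_th3 (ht : IsT t) (P a b : A) : ∑ d, th t P a b d = 0 := by
  unfold th
  simp only [Finset.sum_add_distrib]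
  have h1 : ∑ d, t (a - b) (b - d) = 0 := by
    rw [← sum_t ht (a - b)]
    exact Equiv.sum_comp (Equiv.subLeft b) (fun e => t (a - b) e)
  have h2 : ∑ d, t (a - b) (b + d + P) = 0 := by
    rw [← sum_t ht (a - b), ← Equiv.sum_comp (Equiv.addLeft (b + P)) (fun e => t (a - b) e)]
    refine Finset.sum_congr rfl fun d _ => ?_
    simp only [Equiv.coe_addLeft]; congr 1; abel
  have h3 : ∑ d, t (a + b + P) (-P - b - d) = 0 := by
    rw [← sum_t ht (a + b + P)]
    exact Equiv.sum_comp (Equiv.subLeft (-P - b)) (fun e => t (a + b + P) e)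
  have h4 : ∑ d, t (-P - a - b) (b - d) = 0 := by
    rw [← sum_t ht (-P - a - b)]
    exact Equiv.sum_comp (Equiv.subLeft b) (fun e => t (-P - a - b) e)
  rw [h1, h2, h3, h4]; simp

lemma sum_th2 (ht : IsT t) (P a b : A) : ∑ d, th t P a d b = 0 := by
  have : ∀ d, th t P a d b = - th t P a b d := fun d => th_swap23 ht P a b d
  simp only [this, Finset.sum_neg_distrib, sum_th3 ht, neg_zero]

lemma sum_th1 (ht : IsT t) (P a b : A) : ∑ d, th t P d a b = 0 := by
  have : ∀ d, th t P d a b = - th t P a d b := fun d => th_swap12 ht P a d b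
  simp only [this, Finset.sum_neg_distrib, sum_th2 ht, neg_zero]

lemma sum_ss (P c : A) : ∑ d, ss g P c d = (2 : ℚ) • ∑ a, g a := by
  unfold ss
  rw [Finset.sum_add_distrib, two_smul]
  congr 1
  · exact Equiv.sum_comp (Equiv.subLeft c) g
  · rw [← Equiv.sum_comp (Equiv.addLeft (c + P)) g]
    refine Finset.sum_congr rfl fun d _ => ?_
    simp only [Equiv.coe_addLeft]; congr 1; abel

end sums

section relations

variable {m : B →ₗ[ℚ] G →ₗ[ℚ] H} {t : A → A → B} {g : A → G}

lemma refl_of (P a b : A) (h : a + b + P = 0) : a = -P - b := by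
  rw [eq_sub_iff_add_eq, eq_neg_iff_add_eq_zero]; exact h

/-- The relation holds for all quadruples: if two values coincide, `C = 0`. -/
lemma rel_all (ht : IsT t) {P : A} (hr : Rel m t g P) (a b c d : A) :
    m (CR t P a b c d) (ss g P a b + ss g P c d - ss g P a c - ss g P b d) = 0 := by
  suffices hz : (a = b ∨ a + b + P = 0 ∨ a = c ∨ a + c + P = 0 ∨ a = d ∨ a + d + P = 0 ∨
      b = c ∨ b + c + P = 0 ∨ b = d ∨ b + d + P = 0 ∨ c = d ∨ c + d + P = 0) →
      CR t P a b c d = 0 by
    by_cases h : (a = b ∨ a + b + P = 0 ∨ a = c ∨ a + c + P = 0 ∨ a = d ∨ a + d + P = 0 ∨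
      b = c ∨ b + c + P = 0 ∨ b = d ∨ b + d + P = 0 ∨ c = d ∨ c + d + P = 0)
    · rw [hz h, map_zero, LinearMap.zero_apply]
    · push Not at h
      obtain ⟨h1, h2, h3, h4, h5, h6, h7, h8, h9, h10, h11, h12⟩ := h
      exact hr a b c d h1 h2 h3 h4 h5 h6 h7 h8 h9 h10 h11 h12
  unfold CR
  rintro (h | h | h | h | h | h | h | h | h | h | h | h)
  · subst h; rw [th_aa ht, th_aa ht]; abel
  · rw [refl_of P a b h, th_even1 ht, th_even1 ht, th_even1 ht, th_aa ht, th_aa ht]; abel
  · subst h; rw [th_aa ht, th_ac ht, th_swap12 ht P a b d]; abel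
  · rw [refl_of P a c h, th_even1 ht, th_even1 ht, th_even1 ht, th_aa ht, th_ac ht,
      th_swap12 ht P c b d]
    abel
  · subst h; rw [th_ac ht, th_ac ht, th_swap23 ht P b a c, th_swap12 ht P a b c]; abel
  · rw [refl_of P a d h, th_even1 ht, th_even1 ht, th_even1 ht, th_ac ht, th_ac ht,
      th_swap23 ht P b d c, th_swap12 ht P d b c]
    abel
  · subst h; rw [th_aa ht, th_bb ht]; abel
  · rw [refl_of P b c h, th_even1 ht, th_even2 ht, th_even2 ht, th_aa ht, th_bb ht]; abel
  · subst h; rw [th_ac ht, th_bb ht, th_swap23 ht P a b c]; abel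
  · rw [refl_of P b d h, th_even1 ht, th_even2 ht, th_even2 ht, th_ac ht, th_bb ht,
      th_swap23 ht P a d c]
    abel
  · subst h; rw [th_bb ht, th_bb ht]; abel
  · rw [refl_of P c d h, th_even2 ht, th_even2 ht, th_even3 ht, th_bb ht, th_bb ht]; abel

variable [Fintype A]

def PP (m : B →ₗ[ℚ] G →ₗ[ℚ] H) (t : A → A → B) (g : A → G) (P a b : A) : H :=
  ∑ d, m (th t P a b d) (ss g P b d)

def RR (m : B →ₗ[ℚ] G →ₗ[ℚ] H) (t : A → A → B) (g : A → G) (P a b c : A) : H :=
  ∑ d, m (th t P a b d) (ss g P c d)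

def gam (m : B →ₗ[ℚ] G →ₗ[ℚ] H) (t : A → A → B) (g : A → G) (u v : A) : H :=
  ∑ e, m (t u e) (g (e + v))

lemma sum_left (F : A → B) (x : G) (h : ∑ d, F d = 0) : ∑ d, m (F d) x = 0 := by
  have : ∑ d, m (F d) x = m (∑ d, F d) x := by rw [map_sum, LinearMap.sum_apply]
  rw [this, h, map_zero, LinearMap.zero_apply]

lemma sum_right (b : B) (F : A → G) : ∑ d, m b (F d) = m b (∑ d, F d) := by rw [map_sum]

/-- Formula (I). -/
lemma formI (ht : IsT t) {P : A} (hr : Rel m t g P) (a b c : A) :
    (Fintype.card A : ℚ) • m (th t P a b c) (ss g P a b - ss g P a c) =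
      PP m t g P b c + PP m t g P c b - PP m t g P a c - PP m t g P a b
        + RR m t g P a c b + RR m t g P a b c := by
  have h : ∑ d, m (CR t P a b c d) (ss g P a b + ss g P c d - ss g P a c - ss g P b d) = 0 :=
    Finset.sum_eq_zero fun d _ => rel_all ht hr a b c d
  have e : ∀ d, m (CR t P a b c d) (ss g P a b + ss g P c d - ss g P a c - ss g P b d) =
      m (th t P b c d) (ss g P a b - ss g P a c) - m (th t P a c d) (ss g P a b - ss g P a c)
      + m (th t P a b d) (ss g P a b - ss g P a c) - m (th t P a b c) (ss g P a b - ss g P a c)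
      + m (th t P b c d) (ss g P c d) + m (th t P c b d) (ss g P b d)
      - m (th t P a c d) (ss g P c d) + m (th t P a c d) (ss g P b d)
      + m (th t P a b d) (ss g P c d) - m (th t P a b d) (ss g P b d)
      - m (th t P a b c) (ss g P c d) + m (th t P a b c) (ss g P b d) := by
    intro d
    rw [th_swap12 ht P b c d]
    unfold CR
    simp only [map_sub, map_add, map_neg, LinearMap.sub_apply, LinearMap.add_apply,
      LinearMap.neg_apply]
    abel
  simp only [e] at h
  simp only [Finset.sum_add_distrib, Finset.sum_sub_distrib] at h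
  rw [sum_left _ _ (sum_th3 ht P b c), sum_left _ _ (sum_th3 ht P a c),
    sum_left _ _ (sum_th3 ht P a b), sum_right (th t P a b c) (fun d => ss g P c d),
    sum_right (th t P a b c) (fun d => ss g P b d), sum_ss, sum_ss] at h
  simp only [Finset.sum_const, Finset.card_univ] at h
  unfold PP RR
  rw [← Nat.cast_smul_eq_nsmul ℚ] at h
  rw [← sub_eq_zero, ← neg_eq_zero, ← h]
  abel

/-- Formula (II). -/
lemma formII (ht : IsT t) (hg : IsG g) {P : A} (hr : Rel m t g P) (a b : A) :
    PP m t g P a b + PP m t g P b a = 0 := by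
  have h : ∑ c, (Fintype.card A : ℚ) • m (th t P a b c) (ss g P a b - ss g P a c) =
      ∑ c, (PP m t g P b c + PP m t g P c b - PP m t g P a c - PP m t g P a b
        + RR m t g P a c b + RR m t g P a b c) :=
    Finset.sum_congr rfl fun c _ => formI ht hr a b c
  have e1 : ∑ c, (Fintype.card A : ℚ) • m (th t P a b c) (ss g P a b - ss g P a c) =
      (Fintype.card A : ℚ) • PP m t g P b a := by
    rw [← Finset.smul_sum]
    congr 1
    unfold PP
    have : ∀ c, m (th t P a b c) (ss g P a b - ss g P a c) =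
        m (th t P a b c) (ss g P a b) + m (th t P b a c) (ss g P a c) := by
      intro c
      rw [th_swap12 ht P a b c, map_sub, map_neg, LinearMap.neg_apply]; abel
    simp only [this, Finset.sum_add_distrib]
    rw [sum_left _ _ (sum_th3 ht P a b), zero_add]
  have e2 : ∀ b, ∑ c, PP m t g P b c = 0 := by
    intro b
    apply eq_zero_of_neg
    unfold PP
    conv_lhs => rw [Finset.sum_comm]
    rw [← Finset.sum_neg_distrib]
    refine Finset.sum_congr rfl fun c _ => ?_
    rw [← Finset.sum_neg_distrib]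
    refine Finset.sum_congr rfl fun d _ => ?_
    rw [th_swap23 ht P b c d, map_neg, LinearMap.neg_apply, ss_comm hg P d c]
  have e3 : ∑ c, PP m t g P c b = 0 := by
    unfold PP
    rw [Finset.sum_comm]
    exact Finset.sum_eq_zero fun d _ => sum_left _ _ (sum_th1 ht P b d)
  have e5 : ∑ c, RR m t g P a c b = 0 := by
    unfold RR
    rw [Finset.sum_comm]
    exact Finset.sum_eq_zero fun d _ => sum_left _ _ (sum_th2 ht P a d)
  have e6 : ∑ c, RR m t g P a b c = 0 := by
    unfold RR
    rw [Finset.sum_comm]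
    have : ∀ d, ∑ c, m (th t P a b d) (ss g P c d) = m (th t P a b d) ((2 : ℚ) • ∑ a, g a) := by
      intro d
      rw [sum_right (th t P a b d) (fun c => ss g P c d), ← sum_ss P d]
      congr 1
      exact Finset.sum_congr rfl fun c _ => ss_comm hg P c d
    simp only [this]
    exact sum_left _ _ (sum_th3 ht P a b)
  rw [e1] at h
  simp only [Finset.sum_add_distrib, Finset.sum_sub_distrib, e2, e3, e5, e6, Finset.sum_const,
    Finset.card_univ] at h
  rw [← Nat.cast_smul_eq_nsmul ℚ] at h
  have h2 : (Fintype.card A : ℚ) • (PP m t g P a b + PP m t g P b a) = 0 := by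
    rw [smul_add, h]; abel
  exact (smul_eq_zero.mp h2).resolve_left (Nat.cast_ne_zero.mpr Fintype.card_ne_zero)

/-- Formula (III). -/
lemma formIII (ht : IsT t) (hg : IsG g) {P : A} (hr : Rel m t g P) (a b c : A) :
    (Fintype.card A : ℚ) • m (th t P a b c) (ss g P a b - ss g P a c) =
      - PP m t g P a c - PP m t g P a b + RR m t g P a c b + RR m t g P a b c := by
  rw [formI ht hr, formII ht hg hr b c]; abel

/-- `γ(u,v) = -γ(u,u-v)`. -/
lemma gam_refl (ht : IsT t) (hg : IsG g) (u v : A) : gam m t g u (u - v) = - gam m t g u v := by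
  unfold gam
  conv_lhs => rw [← Equiv.sum_comp (Equiv.subLeft (-u)) _]
  simp only [Equiv.subLeft_apply]
  rw [← Finset.sum_neg_distrib]
  refine Finset.sum_congr rfl fun e _ => ?_
  rw [ht.swap13 u e, map_neg, LinearMap.neg_apply, ← hg (e + v)]
  congr 3; abel

lemma gam_neg (ht : IsT t) (hg : IsG g) (u v : A) : gam m t g (-u) v = gam m t g u (-v) := by
  unfold gam
  conv_lhs => rw [← Equiv.sum_comp (Equiv.neg A) _]
  simp only [Equiv.neg_apply]
  refine Finset.sum_congr rfl fun e _ => ?_
  rw [ht.even u e, ← hg (e + -v)]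
  congr 2; abel

/-- `P(a,b) = 2[f(u)+f(v)-γ(u,v)-γ(v,u)]`, `u = a-b`, `v = a+b+P`. -/
lemma PP_eq (ht : IsT t) (hg : IsG g) (P a b : A) :
    PP m t g P a b = (2 : ℚ) • (gam m t g (a - b) 0 + gam m t g (a + b + P) 0
      - gam m t g (a - b) (a + b + P) - gam m t g (a + b + P) (a - b)) := by
  have h1 : PP m t g P a b = (2 : ℚ) • ∑ d, m (th t P a b d) (g (b + d + P)) := by
    unfold PP ss
    simp only [map_add, Finset.sum_add_distrib]
    rw [two_smul]
    congr 1
    conv_lhs => rw [← Equiv.sum_comp (Equiv.subLeft (-P)) _]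
    simp only [Equiv.subLeft_apply]
    refine Finset.sum_congr rfl fun d _ => ?_
    rw [th_even3 ht, show b - (-P - d) = b + d + P by abel]
  rw [h1]
  congr 1
  unfold th
  simp only [map_add, LinearMap.add_apply, Finset.sum_add_distrib]
  have e1 : ∑ d, m (t (a - b) (b - d)) (g (b + d + P)) = - gam m t g (a - b) (a + b + P) := by
    rw [← gam_refl ht hg]
    unfold gam
    conv_rhs => rw [← Equiv.sum_comp (Equiv.subLeft b) _]
    simp only [Equiv.subLeft_apply]
    refine Finset.sum_congr rfl fun d _ => ?_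
    rw [← hg (b + d + P)]; congr 2; abel
  have e2 : ∑ d, m (t (a - b) (b + d + P)) (g (b + d + P)) = gam m t g (a - b) 0 := by
    unfold gam
    conv_rhs => rw [← Equiv.sum_comp (Equiv.addLeft (b + P)) _]
    simp only [Equiv.coe_addLeft, add_zero]
    refine Finset.sum_congr rfl fun d _ => ?_
    rw [show b + P + d = b + d + P by abel]
  have e3 : ∑ d, m (t (a + b + P) (-P - b - d)) (g (b + d + P)) = gam m t g (a + b + P) 0 := by
    unfold gam
    conv_rhs => rw [← Equiv.sum_comp (Equiv.subLeft (-P - b)) _]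
    simp only [Equiv.subLeft_apply, add_zero]
    refine Finset.sum_congr rfl fun d _ => ?_
    rw [← hg (b + d + P)]; congr 2; abel
  have e4 : ∑ d, m (t (-P - a - b) (b - d)) (g (b + d + P)) =
      - gam m t g (a + b + P) (a - b) := by
    rw [← gam_refl ht hg, show (a + b + P) - (a - b) = - (-P - b - b) by abel, ← gam_neg ht hg]
    unfold gam
    conv_rhs => rw [← Equiv.sum_comp (Equiv.subLeft b) _]
    simp only [Equiv.subLeft_apply]
    refine Finset.sum_congr rfl fun d _ => ?_
    rw [← hg (b + d + P)]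
    congr 2
    · congr 1; abel
    · abel
  rw [e1, e2, e3, e4]; abel

lemma sum_gam1 (ht : IsT t) (v : A) : ∑ u, gam m t g u v = 0 := by
  unfold gam
  rw [Finset.sum_comm]
  exact Finset.sum_eq_zero fun e _ => sum_left _ _ (sum_t' ht e)

lemma sum_gam2 (ht : IsT t) (s : A) : ∑ u, gam m t g s u = 0 := by
  unfold gam
  rw [Finset.sum_comm]
  have : ∀ e, ∑ u, m (t s e) (g (e + u)) = m (t s e) (∑ a, g a) := by
    intro e
    rw [sum_right (t s e) (fun u => g (e + u))]
    congr 1
    exact Equiv.sum_comp (Equiv.addLeft e) g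
  simp only [this]
  exact sum_left _ _ (sum_t ht s)

/-- (II) for all pairs `u, v`. -/
lemma formII' (ht : IsT t) (hg : IsG g) (hr : ∀ P, Rel m t g P) (u v : A) :
    gam m t g u v + gam m t g u (-v) + gam m t g v u + gam m t g v (-u) =
      (2 : ℚ) • (gam m t g u 0 + gam m t g v 0) := by
  -- a - b = u, a + b + P = v with b = 0, a = u, P = v - u
  have hII := formII ht hg (hr (v - u)) u 0
  rw [PP_eq ht hg, PP_eq ht hg] at hII
  have s1 : u - 0 = u := sub_zero u
  have s2 : u + 0 + (v - u) = v := by abel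
  have s3 : 0 - u = -u := zero_sub u
  have s4 : 0 + u + (v - u) = v := by abel
  rw [s1, s2, s3, s4, gam_neg ht hg u 0, gam_neg ht hg u v, neg_zero] at hII
  have : (2 : ℚ) • ((gam m t g u v + gam m t g u (-v) + gam m t g v u + gam m t g v (-u)) -
      (2 : ℚ) • (gam m t g u 0 + gam m t g v 0)) = 0 := by
    rw [← neg_eq_zero, ← hII]; module
  exact sub_eq_zero.mp ((smul_eq_zero.mp this).resolve_left (by norm_num))

/-- `f = 0`. -/
lemma f_zero (ht : IsT t) (hg : IsG g) (hr : ∀ P, Rel m t g P) (s : A) : gam m t g s 0 = 0 := by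
  have h : ∑ u, (gam m t g u s + gam m t g u (-s) + gam m t g s u + gam m t g s (-u)) =
      ∑ u, (2 : ℚ) • (gam m t g u 0 + gam m t g s 0) :=
    Finset.sum_congr rfl fun u _ => formII' ht hg hr u s
  rw [← Finset.smul_sum] at h
  simp only [Finset.sum_add_distrib] at h
  have z3 : ∑ u, gam m t g s (-u) = 0 := by
    rw [← sum_gam2 (m := m) (g := g) ht s]
    exact Equiv.sum_comp (Equiv.neg A) (fun u => gam m t g s u)
  rw [sum_gam1 ht, sum_gam1 ht, sum_gam1 ht, sum_gam2 ht, z3] at h
  simp only [Finset.sum_const, Finset.card_univ] at h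
  rw [← Nat.cast_smul_eq_nsmul ℚ] at h
  have h' : (2 * (Fintype.card A : ℚ)) • gam m t g s 0 = 0 := by
    rw [mul_smul]
    simp only [zero_add, add_zero] at h
    exact h.symm
  exact (smul_eq_zero.mp h').resolve_left
    (mul_ne_zero (by norm_num) (Nat.cast_ne_zero.mpr Fintype.card_ne_zero))

lemma th_zero (ht : IsT t) (b c : A) : th t 0 0 b c = -((2 : ℚ) • (t b c + t b (-c))) := by
  unfold th
  have e1 : t (0 - b) (b - c) = - t b (-c) := by
    have := ht.swap13 (-b) c
    rw [← ht.even b (-c), neg_neg, ← this]; congr 1 <;> abel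
  have e2 : t (0 - b) (b + c + 0) = - t b c := by
    have := ht.swap13 b c
    rw [← this, ← ht.even]; congr 1 <;> abel
  have e3 : t (0 + b + 0) (-0 - b - c) = - t b c := by
    have := ht.swap13 b c
    rw [← this]; congr 1 <;> abel
  have e4 : t (-0 - 0 - b) (b - c) = - t b (-c) := by
    rw [← e1]; congr 1; abel
  rw [e1, e2, e3, e4, smul_add, two_smul, two_smul]; abel

lemma h_zero (ht : IsT t) (hg : IsG g) (hr : ∀ P, Rel m t g P) (b : A) :
    gam m t g b (-b) = 0 := by
  have h := formII' ht hg hr b b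
  have e := gam_refl (m := m) ht hg b 0
  rw [sub_zero] at e
  rw [e, f_zero ht hg hr b] at h
  have : (2 : ℚ) • gam m t g b (-b) = 0 := by
    rw [two_smul]
    have h' := h
    simp only [neg_zero, zero_add, add_zero, smul_zero] at h'
    exact h'
  exact (smul_eq_zero.mp this).resolve_left (by norm_num)

lemma RR_zero (ht : IsT t) (hg : IsG g) (b c : A) :
    RR m t g 0 0 b c = -((4 : ℚ) • (gam m t g b c + gam m t g b (-c))) := by
  have h1 : RR m t g 0 0 b c = (2 : ℚ) • ∑ d, m (th t 0 0 b d) (g (d + c)) := by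
    unfold RR ss
    simp only [map_add, Finset.sum_add_distrib]
    rw [two_smul]
    congr 1
    · conv_lhs => rw [← Equiv.sum_comp (Equiv.subLeft (-0)) _]
      simp only [Equiv.subLeft_apply]
      refine Finset.sum_congr rfl fun d _ => ?_
      rw [th_even3 ht]; congr 2; abel
    · exact Finset.sum_congr rfl fun d _ => by congr 2; abel
  rw [h1]
  simp only [th_zero ht]
  simp only [map_neg, map_smul, map_add, LinearMap.neg_apply, LinearMap.smul_apply,
    LinearMap.add_apply, Finset.sum_neg_distrib, ← Finset.smul_sum, Finset.sum_add_distrib]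
  have e1 : ∑ d, m (t b d) (g (d + c)) = gam m t g b c := rfl
  have e2 : ∑ d, m (t b (-d)) (g (d + c)) = gam m t g b (-c) := by
    unfold gam
    conv_rhs => rw [← Equiv.sum_comp (Equiv.neg A) _]
    simp only [Equiv.neg_apply]
    refine Finset.sum_congr rfl fun d _ => ?_
    rw [← hg (d + c)]; congr 2; abel
  rw [e1, e2]; module

/-- **Parity**: `ξ(b,-c) = -ξ(b,c)`, every finite `A`, from the relations of all pencils. -/
theorem parity (ht : IsT t) (hg : IsG g) (hr : ∀ P, Rel m t g P) (b c : A) :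
    xi m t g b (-c) = - xi m t g b c := by
  have hf := f_zero ht hg hr
  have h3 := formIII ht hg (hr 0) 0 b c
  have key : gam m t g b c + gam m t g b (-c) + gam m t g c b + gam m t g c (-b) = 0 := by
    rw [formII' ht hg hr b c, hf, hf]; simp
  have hPb : ∀ b, PP m t g 0 0 b = 0 := by
    intro b
    rw [PP_eq ht hg]
    simp only [zero_sub, zero_add, add_zero, hf, gam_neg ht hg b b, h_zero ht hg hr b]
    simp
  rw [hPb, hPb, RR_zero ht hg, RR_zero ht hg, th_zero ht] at h3
  have hs : ss g 0 0 b - ss g 0 0 c = (2 : ℚ) • (g b - g c) := by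
    unfold ss
    rw [zero_add, zero_add, zero_sub, zero_sub, hg, hg, add_zero, add_zero]; module
  rw [hs] at h3
  simp only [map_neg, map_smul, map_add, LinearMap.neg_apply, LinearMap.smul_apply,
    LinearMap.add_apply] at h3
  have h4 : ((Fintype.card A : ℚ) * 4) • (xi m t g b c + xi m t g b (-c)) = 0 := by
    unfold xi
    rw [hg c]
    have e1 : m (t b c) (g b - g c) = - m (t b c) (g c - g b) := by rw [← map_neg, neg_sub]
    have e2 : m (t b (-c)) (g b - g c) = - m (t b (-c)) (g c - g b) := by rw [← map_neg, neg_sub]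
    rw [e1, e2] at h3
    have h5 : -(0 : H) - 0 + -((4 : ℚ) • (gam m t g c b + gam m t g c (-b)))
        + -((4 : ℚ) • (gam m t g b c + gam m t g b (-c))) = 0 := by
      have : -(0 : H) - 0 + -((4 : ℚ) • (gam m t g c b + gam m t g c (-b)))
        + -((4 : ℚ) • (gam m t g b c + gam m t g b (-c))) =
        -((4 : ℚ) • (gam m t g b c + gam m t g b (-c) + gam m t g c b + gam m t g c (-b))) := by
        module
      rw [this, key]; simp
    rw [h5] at h3
    rw [← h3]; module
  have h6 := (smul_eq_zero.mp h4).resolve_left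
    (mul_ne_zero (Nat.cast_ne_zero.mpr Fintype.card_ne_zero) (by norm_num))
  exact eq_neg_of_add_eq_zero_right h6

/-- For `A` of odd order (every `P` is `2Q`) the pencil `P = 0` gives all pencils. -/
lemma rel_of_zero (h2 : ∀ P : A, ∃ Q, Q + Q = P) (hr : Rel m t g 0) (P : A) : Rel m t g P := by
  obtain ⟨Q, rfl⟩ := h2 P
  intro a b c d h1 h2 h3 h4 h5 h6 h7 h8 h9 h10 h11 h12
  have key := hr (a + Q) (b + Q) (c + Q) (d + Q)
    (fun h => h1 (add_right_cancel h)) (fun h => h2 (by rw [← h]; abel))
    (fun h => h3 (add_right_cancel h)) (fun h => h4 (by rw [← h]; abel))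
    (fun h => h5 (add_right_cancel h)) (fun h => h6 (by rw [← h]; abel))
    (fun h => h7 (add_right_cancel h)) (fun h => h8 (by rw [← h]; abel))
    (fun h => h9 (add_right_cancel h)) (fun h => h10 (by rw [← h]; abel))
    (fun h => h11 (add_right_cancel h)) (fun h => h12 (by rw [← h]; abel))
  have eth : ∀ x y z : A, th t 0 (x + Q) (y + Q) (z + Q) = th t (Q + Q) x y z := by
    intro x y z
    unfold th
    congr 1
    · congr 1
      · congr 1
        · congr 1 <;> abel
        · congr 1 <;> abel
      · congr 1 <;> abel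
    · congr 1 <;> abel
  have ess : ∀ x y : A, ss g 0 (x + Q) (y + Q) = ss g (Q + Q) x y := by
    intro x y
    unfold ss
    congr 1
    · congr 1; abel
    · congr 1; abel
  unfold CR at key ⊢
  rw [eth, eth, eth, eth, ess, ess, ess, ess] at key
  exact key

end relations

end Pool.Agent.K4ParP
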