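import Pool.Agent.Lib_helper86.K4.S1
import Pool.Agent.Lib_helper86.K4.Delta

set_option autoImplicit false
set_option linter.unusedSectionVars false

/-!
K4M, S2: distribution relations. `t = om w g`, `t(a,b) = g_a ∧ g_b + g_b ∧ g_{a+b} + g_{a+b} ∧ g_a`.
`dg(k)`: `∑_{i ∈ A[k]} g(a+i) = g(ka) + c + e [ka = 0]`.
(dt) `∑_{i,j ∈ A[k]} t(a+i,b+j) = t(ka,kb)`.
(D1) `∑_{i,j ∈ A[k]} ξ(a+i,b+j) = |A[k]|⁻¹ ξ(ka,kb)`.
-/

namespace Pool.Agent.K4ParP

open Finset

variable {A B G H : Type*} [AddCommGroup A] [AddCommGroup B] [Module ℚ B]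
  [AddCommGroup G] [Module ℚ G] [AddCommGroup H] [Module ℚ H]
  {m : B →ₗ[ℚ] G →ₗ[ℚ] H} {t : A → A → B} {g : A → G} [Fintype A] [DecidableEq A]

/-- the `k`-torsion of `A` -/
def tors (A : Type*) [AddCommGroup A] [Fintype A] [DecidableEq A] (k : ℕ) : Finset A :=
  univ.filter fun x => k • x = 0

lemma mem_tors {k : ℕ} {x : A} : x ∈ tors A k ↔ k • x = 0 := by simp [tors]

lemma tors_ne (k : ℕ) : ((tors A k).card : ℚ) ≠ 0 := by
  have : (0 : A) ∈ tors A k := mem_tors.mpr (smul_zero k)
  exact_mod_cast (Finset.card_pos.mpr ⟨0, this⟩).ne'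

/-- the distribution relation of `g` -/
def DG (g : A → G) (k : ℕ) (c e : G) : Prop :=
  ∀ a, ∑ i ∈ tors A k, g (a + i) = g (k • a) + c + if k • a = 0 then e else 0

lemma sum_tors_shift {M : Type*} [AddCommMonoid M] {k : ℕ} {j : A} (hj : k • j = 0) (f : A → M) :
    ∑ i ∈ tors A k, f (j + i) = ∑ i ∈ tors A k, f i := by
  refine Finset.sum_bij' (fun i _ => j + i) (fun i _ => -j + i) ?_ ?_ ?_ ?_ ?_
  · intro i hi; rw [mem_tors] at hi ⊢; rw [smul_add, hj, hi, add_zero]
  · intro i hi; rw [mem_tors] at hi ⊢; rw [smul_add, smul_neg, hj, hi, neg_zero, add_zero]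
  · intro i _; abel
  · intro i _; abel
  · intro i _; rfl

lemma om_shift {w : G →ₗ[ℚ] G →ₗ[ℚ] B} (hw : ∀ x, w x x = 0) (p q r c : G) :
    w (p + c) (q + c) + w (q + c) (r + c) + w (r + c) (p + c) = w p q + w q r + w r p := by
  simp only [map_add, LinearMap.add_apply, hw, w_swap hw p c, w_swap hw q c, w_swap hw r c]
  abel

/-- (dt) -/
theorem dt {w : G →ₗ[ℚ] G →ₗ[ℚ] B} (hw : ∀ x, w x x = 0) (hg : IsG g) {k : ℕ} {c e : G}
    (hd : DG g k c e) (a b : A) :
    ∑ i ∈ tors A k, ∑ j ∈ tors A k, om w g (a + i) (b + j) = om w g (k • a) (k • b) := by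
  obtain ⟨E, hE⟩ : ∃ E : A → G, ∀ x, E x = g (k • x) + c + if k • x = 0 then e else 0 :=
    ⟨_, fun _ => rfl⟩
  have hd : ∀ x, ∑ i ∈ tors A k, g (x + i) = E x := fun x => by rw [hE]; exact hd x
  have h1 : ∑ i ∈ tors A k, ∑ j ∈ tors A k, w (g (a + i)) (g (b + j)) = w (E a) (E b) := by
    rw [← hd a, map_sum, LinearMap.sum_apply]
    refine Finset.sum_congr rfl fun i _ => ?_
    rw [← hd b, map_sum]
  have h2 : ∑ i ∈ tors A k, ∑ j ∈ tors A k, w (g (b + j)) (g (a + i + (b + j))) =
      w (E b) (E (a + b)) := by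
    rw [Finset.sum_comm, ← hd b, map_sum, LinearMap.sum_apply]
    refine Finset.sum_congr rfl fun j hj => ?_
    rw [← hd (a + b), ← map_sum, ← sum_tors_shift (mem_tors.mp hj) (fun i => g (a + b + i))]
    congr 1
    refine Finset.sum_congr rfl fun i _ => ?_
    congr 1; abel
  have h3 : ∑ i ∈ tors A k, ∑ j ∈ tors A k, w (g (a + i + (b + j))) (g (a + i)) =
      w (E (a + b)) (E a) := by
    rw [← hd a, map_sum]
    refine Finset.sum_congr rfl fun i hi => ?_
    rw [← hd (a + b), ← sum_tors_shift (mem_tors.mp hi) (fun i => g (a + b + i)), map_sum,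
      LinearMap.sum_apply]
    refine Finset.sum_congr rfl fun j _ => ?_
    congr 3; abel
  have h4 : ∑ i ∈ tors A k, ∑ j ∈ tors A k, om w g (a + i) (b + j) =
      w (E a) (E b) + w (E b) (E (a + b)) + w (E (a + b)) (E a) := by
    rw [← h1, ← h2, ← h3]
    simp only [om, Finset.sum_add_distrib]
  rw [h4]
  have h5 : w (E a) (E b) + w (E b) (E (a + b)) + w (E (a + b)) (E a) =
      w (g (k • a) + if k • a = 0 then e else 0) (g (k • b) + if k • b = 0 then e else 0) +
      w (g (k • b) + if k • b = 0 then e else 0)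
        (g (k • (a + b)) + if k • (a + b) = 0 then e else 0) +
      w (g (k • (a + b)) + if k • (a + b) = 0 then e else 0)
        (g (k • a) + if k • a = 0 then e else 0) := by
    have e1 : ∀ x, E x = g (k • x) + (if k • x = 0 then e else 0) + c := fun x => by
      rw [hE]; abel
    rw [e1, e1, e1]
    exact om_shift hw _ _ _ c
  rw [h5]
  unfold om
  rw [← smul_add]
  by_cases ha : k • a = 0
  · rw [smul_add, ha, zero_add]
    rw [hw, w_swap hw (g (k • b) + if k • b = 0 then e else 0), hw, w_swap hw (g (k • b))]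
    abel
  by_cases hb : k • b = 0
  · rw [smul_add, hb, add_zero]
    rw [hw, w_swap hw (g (k • a) + if k • a = 0 then e else 0), hw, w_swap hw (g (k • a))]
    abel
  by_cases hc : k • (a + b) = 0
  · have hb' : k • b = -(k • a) := by
      rw [smul_add] at hc
      exact eq_neg_of_add_eq_zero_right hc
    rw [hc, hb', hg]
    simp only [neg_eq_zero, if_neg ha, add_zero, hw, w_swap hw (g (k • a))]
    simp only [ite_true]
    abel
  · simp only [if_neg ha, if_neg hb, if_neg hc, add_zero]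

/-- consequences of `hdt : ∑∑ t(a+i,b+j) = t(ka,kb)` and `DG`: the transformed sums. -/
lemma sum_t_mul (ht : IsT t) {k : ℕ}
    (hdt : ∀ a b, ∑ i ∈ tors A k, ∑ j ∈ tors A k, t (a + i) (b + j) = t (k • a) (k • b)) (a : A) :
    ∑ x, t (k • a) (k • x) = 0 := by
  simp only [← hdt]
  rw [Finset.sum_comm]
  refine Finset.sum_eq_zero fun i _ => ?_
  rw [Finset.sum_comm]
  refine Finset.sum_eq_zero fun j _ => ?_
  rw [← sum_t ht (a + i)]
  exact Equiv.sum_comp (Equiv.addRight j) (fun e => t (a + i) e)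

/-- the sum of `γ` over the torsion -/
lemma sum_gam_tors (ht : IsT t) {k : ℕ} {c e : G} (hd : DG g k c e)
    (hdt : ∀ a b, ∑ i ∈ tors A k, ∑ j ∈ tors A k, t (a + i) (b + j) = t (k • a) (k • b)) (a b : A) :
    ((tors A k).card : ℚ) • ∑ i ∈ tors A k, ∑ j ∈ tors A k, gam m t g (a + i) (b + j) =
      ∑ x, m (t (k • a) (k • x)) (g (k • x + k • b))
        + ((tors A k).card : ℚ) • m (t (k • a) (-(k • b))) e := by
  obtain ⟨E, hE⟩ : ∃ E : A → G, ∀ x, E x = g (k • x) + c + if k • x = 0 then e else 0 :=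
    ⟨_, fun _ => rfl⟩
  have hd : ∀ x, ∑ i ∈ tors A k, g (x + i) = E x := fun x => by rw [hE]; exact hd x
  have h1 : ∑ i ∈ tors A k, ∑ j ∈ tors A k, gam m t g (a + i) (b + j) =
      ∑ x, m (∑ i ∈ tors A k, t (a + i) x) (E (x + b)) := by
    unfold gam
    have : ∀ i ∈ tors A k, ∑ j ∈ tors A k, ∑ x, m (t (a + i) x) (g (x + (b + j))) =
        ∑ x, m (t (a + i) x) (E (x + b)) := by
      intro i _
      rw [Finset.sum_comm]
      refine Finset.sum_congr rfl fun x _ => ?_
      rw [← hd (x + b), map_sum]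
      refine Finset.sum_congr rfl fun j _ => ?_
      congr 2; abel
    rw [Finset.sum_congr rfl this, Finset.sum_comm]
    refine Finset.sum_congr rfl fun x _ => ?_
    rw [map_sum, LinearMap.sum_apply]
  have h2 : ((tors A k).card : ℚ) • ∑ x, m (∑ i ∈ tors A k, t (a + i) x) (E (x + b)) =
      ∑ x, m (t (k • a) (k • x)) (E (x + b)) := by
    have : ∀ j ∈ tors A k, ∑ x, m (∑ i ∈ tors A k, t (a + i) (x + j)) (E (x + b)) =
        ∑ x, m (∑ i ∈ tors A k, t (a + i) x) (E (x + b)) := by
      intro j hj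
      conv_rhs => rw [← Equiv.sum_comp (Equiv.addRight j) _]
      simp only [Equiv.coe_addRight]
      refine Finset.sum_congr rfl fun x _ => ?_
      congr 1
      rw [hE, hE]
      have hk : k • (x + j + b) = k • (x + b) := by
        rw [smul_add, smul_add, smul_add, mem_tors.mp hj, add_zero]
      rw [hk]
    have h3 : ∑ j ∈ tors A k, ∑ x, m (∑ i ∈ tors A k, t (a + i) (x + j)) (E (x + b)) =
        ((tors A k).card : ℚ) • ∑ x, m (∑ i ∈ tors A k, t (a + i) x) (E (x + b)) := by
      rw [Finset.sum_congr rfl this, Finset.sum_const, ← Nat.cast_smul_eq_nsmul ℚ]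
    rw [← h3, Finset.sum_comm]
    refine Finset.sum_congr rfl fun x _ => ?_
    rw [← hdt a x, ← LinearMap.sum_apply, ← map_sum, Finset.sum_comm]
  rw [h1, h2]
  have h4 : ∀ x, m (t (k • a) (k • x)) (E (x + b)) = m (t (k • a) (k • x)) (g (k • x + k • b))
      + m (t (k • a) (k • x)) c + (if k • x + k • b = 0 then m (t (k • a) (k • x)) e else 0) := by
    intro x
    rw [hE, smul_add, map_add, map_add]
    congr 1
    split_ifs
    · rfl
    · exact map_zero _
  simp only [h4, Finset.sum_add_distrib]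
  have h5 : ∑ x, m (t (k • a) (k • x)) c = 0 := sum_left _ _ (sum_t_mul ht hdt a)
  have h6 : ∑ x : A, (if k • x + k • b = 0 then m (t (k • a) (k • x)) e else 0) =
      ((tors A k).card : ℚ) • m (t (k • a) (-(k • b))) e := by
    rw [← Finset.sum_filter]
    have : ∀ x ∈ univ.filter (fun x : A => k • x + k • b = 0),
        m (t (k • a) (k • x)) e = m (t (k • a) (-(k • b))) e := by
      intro x hx
      rw [Finset.mem_filter] at hx
      rw [eq_neg_of_add_eq_zero_left hx.2]
    rw [Finset.sum_congr rfl this, Finset.sum_const, ← Nat.cast_smul_eq_nsmul ℚ]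
    congr 2
    refine Finset.card_bij' (fun x _ => x + b) (fun x _ => x - b) ?_ ?_ ?_ ?_
    · intro x hx; rw [Finset.mem_filter] at hx; rw [mem_tors, smul_add]; exact hx.2
    · intro x hx
      rw [mem_tors] at hx
      rw [Finset.mem_filter]
      refine ⟨Finset.mem_univ _, ?_⟩
      rw [smul_sub, hx]; abel
    · intro x _; abel
    · intro x _; abel
  rw [h5, h6]; abel

/-- (D1) -/
theorem D1 (ht : IsT t) (hg : IsG g) (hr : ∀ P, Rel m t g P) {k : ℕ} {c e : G}
    (hd : DG g k c e)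
    (hdt : ∀ a b, ∑ i ∈ tors A k, ∑ j ∈ tors A k, t (a + i) (b + j) = t (k • a) (k • b)) (a b : A) :
    ∑ i ∈ tors A k, ∑ j ∈ tors A k, xi m t g (a + i) (b + j) =
      ((tors A k).card : ℚ)⁻¹ • xi m t g (k • a) (k • b) := by
  have hn : (Fintype.card A : ℚ) ≠ 0 := Nat.cast_ne_zero.mpr Fintype.card_ne_zero
  have hN := tors_ne (A := A) k
  -- the relations for `t_k(a,b) = t(ka,kb)`, `g_k(a) = g(ka)`
  have ht' : IsT (fun a b => t (k • a) (k • b)) :=
    { swap := fun a b => ht.swap _ _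
      rot := fun a b => by
        rw [← ht.rot (k • a) (k • b)]; congr 1; rw [smul_sub, smul_neg]
      even := fun a b => by rw [smul_neg, smul_neg]; exact ht.even _ _ }
  have hg' : IsG (fun a => g (k • a)) := fun a => by
    show g (k • -a) = g (k • a)
    rw [smul_neg]; exact hg _
  have hr' : ∀ P, Rel m (fun a b => t (k • a) (k • b)) (fun a => g (k • a)) P := by
    intro P a b c d _ _ _ _ _ _ _ _ _ _ _ _
    have hth : ∀ x y z, th (fun a b => t (k • a) (k • b)) P x y z =
        th t (k • P) (k • x) (k • y) (k • z) := by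
      intro x y z
      unfold th
      simp only [smul_add, smul_sub, smul_neg]
    have hss : ∀ x y, ss (fun a => g (k • a)) P x y = ss g (k • P) (k • x) (k • y) := by
      intro x y
      unfold ss
      simp only [smul_add, smul_sub]
    unfold CR
    rw [hth, hth, hth, hth, hss, hss, hss, hss]
    exact rel_all ht (hr (k • P)) (k • a) (k • b) (k • c) (k • d)
  have F := xi_gam (m := m) ht' hg' hr' a b
  unfold gam xi at F
  simp only [smul_add] at F
  have S : ((tors A k).card : ℚ) • ((Fintype.card A : ℚ) •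
      ∑ i ∈ tors A k, ∑ j ∈ tors A k, xi m t g (a + i) (b + j)) =
      (Fintype.card A : ℚ) • xi m t g (k • a) (k • b) := by
    have h1 : (Fintype.card A : ℚ) • ∑ i ∈ tors A k, ∑ j ∈ tors A k, xi m t g (a + i) (b + j) =
        (3 : ℚ) • (∑ i ∈ tors A k, ∑ j ∈ tors A k, gam m t g (a + i) (b + j)
          + ∑ i ∈ tors A k, ∑ j ∈ tors A k, gam m t g (b + i) (a + j)) := by
      rw [Finset.sum_comm (f := fun i j => gam m t g (b + i) (a + j)), ← Finset.sum_add_distrib]
      simp only [Finset.smul_sum, ← Finset.sum_add_distrib]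
      refine Finset.sum_congr rfl fun i _ => Finset.sum_congr rfl fun j _ => ?_
      exact xi_gam ht hg hr _ _
    rw [h1, smul_smul, mul_comm, ← smul_smul, smul_add, sum_gam_tors ht hd hdt,
      sum_gam_tors ht hd hdt]
    have h2 : t (k • b) (-(k • a)) = - t (k • a) (-(k • b)) := by
      rw [← ht.even (k • b), neg_neg, ht.swap]
    unfold xi
    rw [F, h2, map_neg, LinearMap.neg_apply]
    module
  rw [← smul_right_injective H hn |>.eq_iff]
  rw [← smul_right_injective H hN |>.eq_iff]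
  show ((tors A k).card : ℚ) • ((Fintype.card A : ℚ) • _) =
    ((tors A k).card : ℚ) • ((Fintype.card A : ℚ) • _)
  rw [S, smul_smul, smul_smul]
  congr 1
  field_simp

end Pool.Agent.K4ParP
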