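import Pool.Agent.Lib_helper86.K4.Delta
import Pool.Agent.Lib_helper60.K4M.TStr

set_option autoImplicit false
set_option linter.unusedSectionVars false
set_option linter.unnecessarySeqFocus false
set_option linter.unusedTactic false
set_option linter.unreachableTactic false

/-!
T-structure for an arbitrary finite abelian group, all pencils.
`f P a b c d` = symbol of the cross ratio of the four lines through `P` and `a, b, c, d`,
for `P, a, b, c, d` in the finite abelian group `A`. On the multiples of three in `A` (hence, if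
every point is divisible by three in a bigger group, on every group) `f = CR t` with `t`
alternating in `(a, b, -a-b)` and even.
-/

namespace Pool.Agent.K4ParP

open Finset K4M

variable {A B : Type*} [AddCommGroup A] [AddCommGroup B] [Module ℚ B]

/-- the properties of the cross ratio symbols `f(P; a,b,c,d)` of the pencils `P ∈ A` -/
structure IsF (f : A → A → A → A → A → B) : Prop where
  s12 : ∀ P a b c d, f P b a c d = - f P a b c d
  s23 : ∀ P a b c d, f P a c b d = - f P a b c d
  s34 : ∀ P a b c d, f P a b d c = - f P a b c d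
  ev : ∀ P a b c d, f P (-P - a) b c d = f P a b c d
  coc : ∀ P a b c d e,
    f P b c d e - f P a c d e + f P a b d e - f P a b c e + f P a b c d = 0
  tr : ∀ P s a b c d, f (P - (s + s)) (a + s) (b + s) (c + s) (d + s) = f P a b c d
  pl : ∀ p0 p1 p2 p3 p4 : A, f p0 p1 p2 p3 p4 - f p1 p0 p2 p3 p4 + f p2 p0 p1 p3 p4
    - f p3 p0 p1 p2 p4 + f p4 p0 p1 p2 p3 = 0

variable [Fintype A] {f : A → A → A → A → A → B}

/-- `κ_P(a,b,c)` is minus the average of `f(P;a,b,c,d)` over `d` -/
noncomputable def kp (f : A → A → A → A → A → B) (P a b c : A) : B := - av fun d => f P a b c d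

/-- `L(a,b,c)`: average over the pencils -/
noncomputable def LL (f : A → A → A → A → A → B) (a b c : A) : B := av fun P => kp f P a b c

section

variable (hf : IsF f)
include hf

lemma IsF.ev2 (P a b c d : A) : f P a (-P - b) c d = f P a b c d := by
  rw [hf.s12 P (-P - b) a c d, hf.ev, hf.s12 P a b c d, neg_neg]

lemma IsF.ev3 (P a b c d : A) : f P a b (-P - c) d = f P a b c d := by
  rw [hf.s23 P a (-P - c) b d, hf.ev2, hf.s23 P a b c d, neg_neg]

lemma kp_s12 (P a b c : A) : kp f P b a c = - kp f P a b c := by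
  unfold kp
  rw [← av_neg, ← av_neg]
  simp only [hf.s12 P a b c, av_neg]

lemma kp_s23 (P a b c : A) : kp f P a c b = - kp f P a b c := by
  unfold kp
  rw [← av_neg, ← av_neg]
  simp only [hf.s23 P a b c, av_neg]

lemma kp_ev1 (P a b c : A) : kp f P (-P - a) b c = kp f P a b c := by
  unfold kp
  simp only [hf.ev]

lemma kp_ev2 (P a b c : A) : kp f P a (-P - b) c = kp f P a b c := by
  unfold kp
  simp only [hf.ev2]

lemma kp_ev3 (P a b c : A) : kp f P a b (-P - c) = kp f P a b c := by
  unfold kp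
  simp only [hf.ev3]

lemma kp_tr (P s a b c : A) : kp f (P - (s + s)) (a + s) (b + s) (c + s) = kp f P a b c := by
  unfold kp
  congr 1
  rw [← av_shift (fun d => f (P - (s + s)) (a + s) (b + s) (c + s) d) s]
  simp only [hf.tr]

lemma kp_av3 (P a b : A) : (av fun c => kp f P a b c) = 0 := by
  apply eq_zero_of_neg
  unfold kp
  rw [av_neg]
  nth_rw 1 [av_comm]
  rw [neg_neg, ← av_neg]
  apply av_congr; intro x
  rw [← av_neg]
  apply av_congr; intro y
  rw [hf.s34 P a b y x]

lemma f_eq (P a b c d : A) :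
    f P a b c d = kp f P b c d - kp f P a c d + kp f P a b d - kp f P a b c := by
  have h : av (fun e => f P b c d e - f P a c d e + f P a b d e - f P a b c e + f P a b c d) = 0 := by
    rw [av_congr (fun e => hf.coc P a b c d e), av_const]
  rw [av_add, av_sub, av_add, av_sub, av_const] at h
  have := eq_neg_of_add_eq_zero_right h
  rw [this]
  unfold kp
  abel

lemma LL_s12 (a b c : A) : LL f b a c = - LL f a b c := by
  unfold LL
  rw [← av_neg]
  exact av_congr fun P => kp_s12 hf P a b c

lemma LL_s23 (a b c : A) : LL f a c b = - LL f a b c := by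
  unfold LL
  rw [← av_neg]
  exact av_congr fun P => kp_s23 hf P a b c

lemma LL_cyc (a b c : A) : LL f b c a = LL f a b c := by
  rw [LL_s23 hf b a c, LL_s12 hf a b c, neg_neg]

lemma LL_tr (s a b c : A) : LL f (a + s) (b + s) (c + s) = LL f a b c := by
  unfold LL
  rw [← av_shift (fun P => kp f P (a + s) (b + s) (c + s)) (-(s + s))]
  refine av_congr fun P => ?_
  rw [← sub_eq_add_neg]
  exact kp_tr hf P s a b c

lemma LL_neg (a b c : A) : LL f (-a) (-b) (-c) = LL f a b c := by
  unfold LL
  rw [← av_refl (fun P => kp f P a b c)]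
  refine av_congr fun P => ?_
  rw [← kp_ev1 hf P (-a), ← kp_ev2 hf P _ (-b), ← kp_ev3 hf P _ _ (-c),
    ← kp_tr hf P P (-P - -a) (-P - -b) (-P - -c)]
  congr 1 <;> abel

/-- `x` is of the form `3 s` -/
def T3 (x : A) : Prop := ∃ s : A, x = s + s + s

omit hf in
lemma T3.add' {x y : A} (hx : T3 x) (hy : T3 y) : T3 (x + y) := by
  obtain ⟨s, rfl⟩ := hx
  obtain ⟨r, rfl⟩ := hy
  exact ⟨s + r, by abel⟩

omit hf in
lemma T3.neg' {x : A} (hx : T3 x) : T3 (-x) := by
  obtain ⟨s, rfl⟩ := hx
  exact ⟨-s, by abel⟩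

omit hf in
lemma T3.sub' {x y : A} (hx : T3 x) (hy : T3 y) : T3 (x - y) := by
  rw [sub_eq_add_neg]; exact hx.add' hy.neg'

/-- `L_a(x,y,z)`: average over the pencils in the class of `a` modulo `3` -/
noncomputable def La (f : A → A → A → A → A → B) (a x y z : A) : B :=
  av fun s => kp f (a + (s + s + s)) x y z

/-- average of `L(·,b,c)` over the class of `P` modulo `3` -/
noncomputable def MM (f : A → A → A → A → A → B) (P b c : A) : B :=
  av fun s => LL f (P - (s + s + s)) b c

/-- `t(u,v) = L_0(u,0,-v)` -/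
noncomputable def tp (f : A → A → A → A → A → B) (u v : A) : B := La f 0 u 0 (-v)

omit hf in
lemma La_T3 {a : A} (ha : T3 a) (x y z : A) : La f a x y z = La f 0 x y z := by
  obtain ⟨r, rfl⟩ := ha
  unfold La
  rw [← av_shift (fun s => kp f (0 + (s + s + s)) x y z) r]
  refine av_congr fun s => ?_
  congr 1; abel

/-- (ii') -/
lemma kp_plane (p0 p1 p2 p3 : A) :
    kp f p0 p1 p2 p3 = kp f p1 p0 p2 p3 - kp f p2 p0 p1 p3 + kp f p3 p0 p1 p2
      + LL f p1 p2 p3 - LL f p0 p2 p3 + LL f p0 p1 p3 - LL f p0 p1 p2 := by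
  have h : av (fun p4 => f p0 p1 p2 p3 p4 - f p1 p0 p2 p3 p4 + f p2 p0 p1 p3 p4
      - f p3 p0 p1 p2 p4 + f p4 p0 p1 p2 p3) = 0 := by
    rw [av_congr (fun p4 => hf.pl p0 p1 p2 p3 p4), av_const]
  rw [av_add, av_sub, av_add, av_sub] at h
  have e : av (fun p4 => f p4 p0 p1 p2 p3) =
      LL f p1 p2 p3 - LL f p0 p2 p3 + LL f p0 p1 p3 - LL f p0 p1 p2 := by
    rw [av_congr (fun p4 => f_eq hf p4 p0 p1 p2 p3), av_sub, av_add, av_sub]
    rfl
  rw [e] at h
  have h1 : kp f p0 p1 p2 p3 = - av fun d => f p0 p1 p2 p3 d := rfl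
  have h2 : kp f p1 p0 p2 p3 = - av fun d => f p1 p0 p2 p3 d := rfl
  have h3 : kp f p2 p0 p1 p3 = - av fun d => f p2 p0 p1 p3 d := rfl
  have h4 : kp f p3 p0 p1 p2 = - av fun d => f p3 p0 p1 p2 d := rfl
  rw [h1, h2, h3, h4]
  linear_combination (norm := module) -h

/-- the structure of `κ` -/
lemma kp_eq (P a b c : A) :
    kp f P a b c = LL f a b c + La f a (-P - a) b c + La f b a (-P - b) c + La f c a b (-P - c)
      - MM f P b c + MM f P a c - MM f P a b := by
  have h : ∀ s : A, kp f P a b c = kp f (a + (s + s + s)) (-P - a) b c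
      + kp f (b + (s + s + s)) a (-P - b) c + kp f (c + (s + s + s)) a b (-P - c)
      + LL f a b c - LL f (P - (s + s + s)) b c + LL f (P - (s + s + s)) a c
      - LL f (P - (s + s + s)) a b := by
    intro s
    have key := kp_plane hf (P - (s + s)) (a + s) (b + s) (c + s)
    rw [kp_tr hf, LL_tr hf] at key
    have e1 : ∀ x y z : A, kp f (x + s) (P - (s + s)) (y + s) (z + s) =
        kp f (x + (s + s + s)) (-P - x) y z := by
      intro x y z
      rw [← kp_tr hf (x + (s + s + s)) s (-P - x) y z, ← kp_ev1 hf _ (P - (s + s))]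
      congr 1 <;> abel
    have e2 : ∀ y z : A, LL f (P - (s + s)) (y + s) (z + s) = LL f (P - (s + s + s)) y z := by
      intro y z
      rw [← LL_tr hf s (P - (s + s + s)) y z]
      congr 1; abel
    rw [e1, e1, e1, e2, e2, e2] at key
    rw [key, kp_s12 hf (b + (s + s + s)) a (-P - b) c]
    have e3 : kp f (c + (s + s + s)) (-P - c) a b = kp f (c + (s + s + s)) a b (-P - c) := by
      rw [kp_s23 hf _ a (-P - c) b, kp_s12 hf _ (-P - c) a b]
      abel
    rw [e3]
    abel
  have h2 := av_const (A := A) (kp f P a b c)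
  rw [← h2, av_congr h]
  rw [av_sub, av_add, av_sub, av_add, av_add, av_add, av_const]
  unfold La MM
  abel

lemma La_s12 (a x y z : A) : La f a y x z = - La f a x y z := by
  unfold La
  rw [← av_neg]
  exact av_congr fun s => kp_s12 hf _ x y z

lemma La_s23 (a x y z : A) : La f a x z y = - La f a x y z := by
  unfold La
  rw [← av_neg]
  exact av_congr fun s => kp_s23 hf _ x y z

lemma La_tr {s : A} (hs : T3 s) (x y z : A) : La f 0 (x + s) (y + s) (z + s) = La f 0 x y z := by
  obtain ⟨r, rfl⟩ := hs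
  unfold La
  rw [← av_shift (fun s => kp f (0 + (s + s + s)) x y z) (r + r)]
  refine av_congr fun s => ?_
  rw [← kp_tr hf _ (r + r + r) x y z]
  congr 1; abel

lemma La_neg (x y z : A) : La f 0 (-x) (-y) (-z) = La f 0 x y z := by
  unfold La
  rw [← av_refl (fun s => kp f (0 + (s + s + s)) x y z)]
  refine av_congr fun s => ?_
  have e : ∀ x : A, -(0 + (s + s + s)) - x + (s + s + s) = -x := fun x => by abel
  rw [← kp_ev1 hf (0 + (s + s + s)) (-x), ← kp_ev2 hf _ _ (-y), ← kp_ev3 hf _ _ _ (-z),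
    ← kp_tr hf (0 + (s + s + s)) (s + s + s) _ _ _]
  congr 1 <;> abel

/-- the four terms with reflections -/
noncomputable def th4 (f : A → A → A → A → A → B) (P a b c : A) : B :=
  La f 0 a b c + La f 0 (-P - a) b c + La f 0 a (-P - b) c + La f 0 a b (-P - c)

lemma th4_ev1 {P : A} (hP : T3 P) (a b c : A) : th4 f P (-P - a) b c = th4 f P a b c := by
  unfold th4
  have e1 : La f 0 (-P - a) (-P - b) c = La f 0 a b (-P - c) := by
    rw [← La_neg hf, ← La_tr hf hP.neg']
    congr 1 <;> abel
  have e2 : La f 0 (-P - a) b (-P - c) = La f 0 a (-P - b) c := by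
    rw [← La_neg hf, ← La_tr hf hP.neg']
    congr 1 <;> abel
  rw [e1, e2, show -P - (-P - a) = a by abel]
  abel

/-- `Δ = L - L_0` -/
noncomputable def De (f : A → A → A → A → A → B) (a b c : A) : B := LL f a b c - La f 0 a b c

lemma De_s12 (a b c : A) : De f b a c = - De f a b c := by
  unfold De
  rw [LL_s12 hf, La_s12 hf]; abel

lemma De_s23 (a b c : A) : De f a c b = - De f a b c := by
  unfold De
  rw [LL_s23 hf, La_s23 hf]; abel

/-- `f = δ(θ' + Δ)` -/
lemma f_eq4 (P : A) {a b c d : A} (ha : T3 a) (hb : T3 b) (hc : T3 c) (hd : T3 d) :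
    f P a b c d = (th4 f P b c d - th4 f P a c d + th4 f P a b d - th4 f P a b c)
      + (De f b c d - De f a c d + De f a b d - De f a b c) := by
  rw [f_eq hf, kp_eq hf, kp_eq hf, kp_eq hf, kp_eq hf]
  simp only [La_T3 ha, La_T3 hb, La_T3 hc, La_T3 hd]
  unfold th4 De
  abel

/-- `δΔ = 0` on the multiples of three -/
lemma delta_De {a b c d : A} (ha : T3 a) (hb : T3 b) (hc : T3 c) (hd : T3 d) :
    De f b c d - De f a c d + De f a b d - De f a b c = 0 := by
  -- independence of the first variable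
  have key : ∀ x y : A, T3 x → T3 y →
      - De f x c d + De f x b d - De f x b c = - De f y c d + De f y b d - De f y b c := by
    intro x y hx hy
    have hP : T3 (-x - y) := by
      rw [sub_eq_add_neg]; exact hx.neg'.add' hy.neg'
    have h1 := f_eq4 hf (-x - y) hx hb hc hd
    have h2 := f_eq4 hf (-x - y) hy hb hc hd
    have h3 := hf.ev (-x - y) x b c d
    have e : ∀ u v : A, th4 f (-x - y) y u v = th4 f (-x - y) x u v := by
      intro u v
      rw [← th4_ev1 hf hP x u v]
      congr 1; abel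
    rw [show -(-x - y) - x = y by abel] at h3
    rw [h1, h2, e, e, e] at h3
    have := h3
    linear_combination (norm := module) -h3
  have h4 := key a b ha hb
  have hbb : ∀ u : A, De f b b u = 0 := fun u =>
    eq_zero_of_neg (De_s12 hf b b u)
  rw [hbb, hbb] at h4
  linear_combination (norm := module) h4

lemma th4_eq {P b : A} (a c : A) (hP : T3 P) (hb : T3 b) :
    th4 f P a b c = th (tp f) P a b c := by
  have hb' : T3 (-P - b) := by rw [sub_eq_add_neg]; exact hP.neg'.add' hb.neg'
  unfold th4 th tp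
  have e1 : La f 0 (a - b) 0 (-(b - c)) = La f 0 a b c := by
    rw [← La_tr hf hb.neg' a b c]; congr 1 <;> abel
  have e2 : La f 0 (a - b) 0 (-(b + c + P)) = La f 0 a b (-P - c) := by
    rw [← La_tr hf hb.neg' a b (-P - c)]; congr 1 <;> abel
  have e3 : La f 0 (a + b + P) 0 (-(-P - b - c)) = La f 0 a (-P - b) c := by
    rw [← La_tr hf hb'.neg' a (-P - b) c]; congr 1 <;> abel
  have e4 : La f 0 (-P - a - b) 0 (-(b - c)) = La f 0 (-P - a) b c := by
    rw [← La_tr hf hb.neg' (-P - a) b c]; congr 1 <;> abel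
  rw [e1, e2, e3, e4]
  abel

/-- the structure of the cross ratio symbols on the multiples of three -/
theorem f_eq_CR {P a b c d : A} (hP : T3 P) (ha : T3 a) (hb : T3 b) (hc : T3 c) (hd : T3 d) :
    f P a b c d = CR (tp f) P a b c d := by
  rw [f_eq4 hf P ha hb hc hd, delta_De hf ha hb hc hd, add_zero]
  unfold CR
  rw [th4_eq hf b d hP hc, th4_eq hf a d hP hc, th4_eq hf a d hP hb, th4_eq hf a c hP hb]

lemma tp_swap (u v : A) : tp f v u = - tp f u v := by
  unfold tp
  rw [← La_neg hf v 0 (-u), neg_zero, neg_neg, La_s12 hf, La_s23 hf, La_s12 hf, neg_neg]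

lemma tp_even (u v : A) : tp f (-u) (-v) = tp f u v := by
  unfold tp
  rw [← La_neg hf u 0 (-v), neg_zero]

lemma tp_rot (u : A) {v : A} (hv : T3 v) : tp f v (-u - v) = tp f u v := by
  unfold tp
  have e : La f 0 v 0 (-(-u - v)) = La f 0 0 (-v) u := by
    rw [← La_tr hf hv 0 (-v) u]; congr 1 <;> abel
  rw [e, La_s23 hf 0 0 u (-v), La_s12 hf 0 u 0 (-v), neg_neg]

/-- The structure theorem: every group `A₀` which maps into the multiples of three. -/
theorem exists_isT {A₀ : Type*} [AddCommGroup A₀] (ι : A₀ →+ A) (h3 : ∀ x, T3 (ι x)) :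
    IsT (fun u v => tp f (ι u) (ι v)) ∧ ∀ P a b c d : A₀,
      f (ι P) (ι a) (ι b) (ι c) (ι d) = CR (fun u v => tp f (ι u) (ι v)) P a b c d := by
  refine ⟨⟨fun u v => tp_swap hf _ _, fun u v => ?_, fun u v => ?_⟩, fun P a b c d => ?_⟩
  · show tp f (ι v) (ι (-u - v)) = tp f (ι u) (ι v)
    rw [map_sub, map_neg]; exact tp_rot hf _ (h3 v)
  · show tp f (ι (-u)) (ι (-v)) = tp f (ι u) (ι v)
    rw [map_neg, map_neg]; exact tp_even hf _ _
  · rw [f_eq_CR hf (h3 P) (h3 a) (h3 b) (h3 c) (h3 d)]
    unfold CR th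
    simp only [map_add, map_sub, map_neg]

end

end Pool.Agent.K4ParP
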