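import Pool.Agent.Lib_helper86.K4.S2

set_option autoImplicit false
set_option linter.unusedSectionVars false
set_option linter.unnecessarySeqFocus false
set_option linter.style.longLine false

/-!
The honest second order relation for the 2-torsion:
`Σ_{i ∈ T[2]} t(u, v+i) = t(u,2v) + t(u,u+2v) + Σ_{i ∈ T[2]} t(u+2v, -v+i)`.
Input: the concurrency relation and the distribution relation of `t` for `T[2]`.
-/

namespace Pool.Agent.K4ParP

open Finset

section Z2

variable {A B : Type*} [AddCommGroup A] [AddCommGroup B] [Module ℚ B] {t : A → A → B}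

lemma t_id (_ht : IsT t) {a b X Y : A} (hX : X = a) (hY : Y = b) : t a b = t X Y := by rw [hX, hY]

lemma t_bc (ht : IsT t) {a b X Y : A} (hX : X = b) (hY : Y = -a - b) : t a b = t X Y := by
  rw [hX, hY, ht.rot]

lemma t_ca (ht : IsT t) {a b X Y : A} (hX : X = -a - b) (hY : Y = a) : t a b = t X Y := by
  refine t_bc ht (a := X) (b := Y) hY.symm ?_ |>.symm
  rw [hX, hY]; abel

lemma t_ba (ht : IsT t) {a b X Y : A} (hX : X = b) (hY : Y = a) : t a b = -t X Y := by
  rw [hX, hY, ht.swap a b, neg_neg]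

lemma t_ac (ht : IsT t) {a b X Y : A} (hX : X = a) (hY : Y = -a - b) : t a b = -t X Y := by
  rw [hX, hY, ht.swap13, neg_neg]

lemma t_cb (ht : IsT t) {a b X Y : A} (hX : X = -a - b) (hY : Y = b) : t a b = -t X Y := by
  rw [t_bc ht (a := a) (b := b) rfl rfl]
  exact t_ba ht hX hY

lemma t_idn (ht : IsT t) {a b X Y : A} (hX : X = -(a)) (hY : Y = -(b)) : t a b = t X Y := by
  rw [← ht.even X Y]
  exact t_id ht (by rw [hX, neg_neg]) (by rw [hY, neg_neg])

lemma t_bcn (ht : IsT t) {a b X Y : A} (hX : X = -(b)) (hY : Y = -(-a - b)) : t a b = t X Y := by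
  rw [← ht.even X Y]
  exact t_bc ht (by rw [hX, neg_neg]) (by rw [hY, neg_neg])

lemma t_can (ht : IsT t) {a b X Y : A} (hX : X = -(-a - b)) (hY : Y = -(a)) : t a b = t X Y := by
  rw [← ht.even X Y]
  exact t_ca ht (by rw [hX, neg_neg]) (by rw [hY, neg_neg])

lemma t_ban (ht : IsT t) {a b X Y : A} (hX : X = -(b)) (hY : Y = -(a)) : t a b = -t X Y := by
  rw [← ht.even X Y]
  exact t_ba ht (by rw [hX, neg_neg]) (by rw [hY, neg_neg])

lemma t_acn (ht : IsT t) {a b X Y : A} (hX : X = -(a)) (hY : Y = -(-a - b)) : t a b = -t X Y := by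
  rw [← ht.even X Y]
  exact t_ac ht (by rw [hX, neg_neg]) (by rw [hY, neg_neg])

lemma t_cbn (ht : IsT t) {a b X Y : A} (hX : X = -(-a - b)) (hY : Y = -(b)) : t a b = -t X Y := by
  rw [← ht.even X Y]
  exact t_cb ht (by rw [hX, neg_neg]) (by rw [hY, neg_neg])

lemma t_zab (ht : IsT t) {a b : A} (h : a = b) : t a b = 0 :=
  eq_zero_of_neg (t_ba ht h h.symm)

lemma t_zac (ht : IsT t) {a b : A} (h : a = -(a + b)) : t a b = 0 :=
  eq_zero_of_neg (t_cb ht (by rw [← sub_eq_zero]; rw [← sub_eq_zero] at h; rw [← h]; abel) rfl)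

lemma t_zbc (ht : IsT t) {a b : A} (h : b = -(a + b)) : t a b = 0 :=
  eq_zero_of_neg (t_ac ht rfl (by rw [← sub_eq_zero]; rw [← sub_eq_zero] at h; rw [← h]; abel))

/-- the defect of the second order relation, `T[2] = {0, e, f, e+f}` -/
def z4 (t : A → A → B) (e f u v : A) : B :=
  t u v + t u (v + e) + t u (v + f) + t u (v + (e + f)) - t u (v + v) - t u (u + (v + v))
    - t (u + (v + v)) (-v) - t (u + (v + v)) (-v + e) - t (u + (v + v)) (-v + f)
    - t (u + (v + v)) (-v + (e + f))

theorem z4_shift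
    (ht : IsT t) {e f : A} (he : e + e = 0) (hf : f + f = 0) (u v : A) :
    CR t e f (-u - v) (-v) (u + v) - CR t (u + v) v (-u - v) (-v) e
      = z4 t e f (u + e) v - z4 t e f u v := by
  have h1 : t (-u - v - (-v)) (-v - (u + v)) = t ((2:ℤ) • u + (2:ℤ) • v) (-u) := t_ca ht (by module) (by module)
  have h2 : t (-u - v - (-v)) (-v + (u + v) + e) = t (u + e) (e) := t_bc ht (by module) (by linear_combination (norm := module) (1:ℤ) • he)
  have h3 : t (-u - v + (-v) + e) (-e - (-v) - (u + v)) = -t ((2:ℤ) • u + (2:ℤ) • v) (-u + e) := t_cb ht (by module) (by linear_combination (norm := module) (1:ℤ) • he)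
  have h4 : t (-e - (-u - v) - (-v)) (-v - (u + v)) = -t (u + (2:ℤ) • v + e) (e) := t_ac ht (by linear_combination (norm := module) (1:ℤ) • he) (by module)
  have h5 : t (f - (-v)) (-v - (u + v)) = -t (u + (2:ℤ) • v) (-v + f) := t_ban ht (by module) (by linear_combination (norm := module) (1:ℤ) • hf)
  have h6 : t (f - (-v)) (-v + (u + v) + e) = t (u + v + e + f) (-v + f) := t_can ht (by module) (by linear_combination (norm := module) (1:ℤ) • hf)
  have h7 : t (f + (-v) + e) (-e - (-v) - (u + v)) = t (u + v + f) (-v + e + f) := t_ca ht (by linear_combination (norm := module) (1:ℤ) • hf) (by module)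
  have h8 : t (-e - f - (-v)) (-v - (u + v)) = -t (u + (2:ℤ) • v) (-v + e + f) := t_ban ht (by module) (by module)
  have h9 : t (f - (-u - v)) (-u - v - (u + v)) = 0 := t_zac ht (by linear_combination (norm := module) (1:ℤ) • hf)
  have h10 : t (f - (-u - v)) (-u - v + (u + v) + e) = -t (u + v + e + f) (e) := t_cbn ht (by module) (by linear_combination (norm := module) (1:ℤ) • he)
  have h11 : t (f + (-u - v) + e) (-e - (-u - v) - (u + v)) = t (u + v + e + f) (e) := t_idn ht (by linear_combination (norm := module) (1:ℤ) • he + (1:ℤ) • hf) (by module)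
  have h12 : t (-e - f - (-u - v)) (-u - v - (u + v)) = 0 := t_zac ht (by linear_combination (norm := module) (-1:ℤ) • he + (-1:ℤ) • hf)
  have h13 : t (f - (-u - v)) (-u - v - (-v)) = -t (u + v + f) (-v + f) := t_ac ht (by module) (by linear_combination (norm := module) (1:ℤ) • hf)
  have h14 : t (f - (-u - v)) (-u - v + (-v) + e) = t (u + (2:ℤ) • v + e) (-v + e + f) := t_bcn ht (by linear_combination (norm := module) (1:ℤ) • he) (by module)
  have h15 : t (f + (-u - v) + e) (-e - (-u - v) - (-v)) = t (u + (2:ℤ) • v + e) (-v + f) := t_bc ht (by linear_combination (norm := module) (1:ℤ) • he) (by linear_combination (norm := module) (1:ℤ) • hf)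
  have h16 : t (-e - f - (-u - v)) (-u - v - (-v)) = -t (u + v + e + f) (-v + e + f) := t_ac ht (by linear_combination (norm := module) (1:ℤ) • he + (1:ℤ) • hf) (by module)
  have h17 : t (-u - v - (-v)) (-v - e) = -t (u + v + e) (-v + e) := t_cb ht (by module) (by linear_combination (norm := module) (1:ℤ) • he)
  have h18 : t (-u - v - (-v)) (-v + e + (u + v)) = t (u + e) (e) := t_bc ht (by module) (by linear_combination (norm := module) (1:ℤ) • he)
  have h19 : t (-u - v + (-v) + (u + v)) (-(u + v) - (-v) - e) = t (u + v + e) (-v) := t_ca ht (by module) (by module)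
  have h20 : t (-(u + v) - (-u - v) - (-v)) (-v - e) = t (v + e) (e) := t_bcn ht (by module) (by linear_combination (norm := module) (1:ℤ) • he)
  have h21 : t (v - (-v)) (-v - e) = 0 := t_zbc ht (by linear_combination (norm := module) (-1:ℤ) • he)
  have h22 : t (v - (-v)) (-v + e + (u + v)) = t (u + (2:ℤ) • v + e) (-(2:ℤ) • v) := t_can ht (by module) (by module)
  have h23 : t (v + (-v) + (u + v)) (-(u + v) - (-v) - e) = -t (u + v) (-v + e) := t_ac ht (by module) (by module)
  have h24 : t (-(u + v) - v - (-v)) (-v - e) = -t (u + (2:ℤ) • v + e) (-v + e) := t_cb ht (by module) (by linear_combination (norm := module) (1:ℤ) • he)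
  have h25 : t (v - (-u - v)) (-u - v - e) = -t (u + (2:ℤ) • v) (-v + e) := t_ac ht (by module) (by module)
  have h26 : t (v - (-u - v)) (-u - v + e + (u + v)) = -t (u + (2:ℤ) • v + e) (e) := t_cbn ht (by module) (by linear_combination (norm := module) (1:ℤ) • he)
  have h27 : t (v + (-u - v) + (u + v)) (-(u + v) - (-u - v) - e) = -t (v + e) (e) := t_cbn ht (by linear_combination (norm := module) (1:ℤ) • he) (by module)
  have h28 : t (-(u + v) - v - (-u - v)) (-u - v - e) = t (u + (2:ℤ) • v + e) (-v) := t_ca ht (by module) (by module)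
  have h29 : t (v - (-u - v)) (-u - v - (-v)) = -t (u + (2:ℤ) • v) (-(2:ℤ) • v) := t_ac ht (by module) (by module)
  have h30 : t (v - (-u - v)) (-u - v + (-v) + (u + v)) = t (u + (2:ℤ) • v) (-v) := t_id ht (by module) (by module)
  have h31 : t (v + (-u - v) + (u + v)) (-(u + v) - (-u - v) - (-v)) = 0 := t_zab ht (by module)
  have h32 : t (-(u + v) - v - (-u - v)) (-u - v - (-v)) = t (u + v) (-v) := t_ca ht (by module) (by module)
  have h33 : t (u + e) (v) = -t (u + v + e) (-v) := t_cbn ht (by module) (by module)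
  have h34 : t (u + e) (v + e) = -t (u + v) (-v + e) := t_cbn ht (by linear_combination (norm := module) (-1:ℤ) • he) (by linear_combination (norm := module) (1:ℤ) • he)
  have h35 : t (u + e) (v + f) = -t (u + v + e + f) (-v + f) := t_cbn ht (by module) (by linear_combination (norm := module) (1:ℤ) • hf)
  have h36 : t (u + e) (v + (e + f)) = -t (u + v + f) (-v + e + f) := t_cbn ht (by linear_combination (norm := module) (-1:ℤ) • he) (by linear_combination (norm := module) (1:ℤ) • he + (1:ℤ) • hf)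
  have h37 : t (u + e) (v + v) = -t (u + (2:ℤ) • v + e) (-(2:ℤ) • v) := t_cbn ht (by module) (by module)
  have h38 : t (u + e) (u + e + (v + v)) = t ((2:ℤ) • u + (2:ℤ) • v) (-u + e) := t_can ht (by linear_combination (norm := module) (-1:ℤ) • he) (by linear_combination (norm := module) (1:ℤ) • he)
  have h39 : t (u + e + (v + v)) (-v) = t (u + (2:ℤ) • v + e) (-v) := t_id ht (by module) (by module)
  have h40 : t (u + e + (v + v)) (-v + e) = t (u + (2:ℤ) • v + e) (-v + e) := t_id ht (by module) (by module)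
  have h41 : t (u + e + (v + v)) (-v + f) = t (u + (2:ℤ) • v + e) (-v + f) := t_id ht (by module) (by module)
  have h42 : t (u + e + (v + v)) (-v + (e + f)) = t (u + (2:ℤ) • v + e) (-v + e + f) := t_id ht (by module) (by module)
  have h43 : t (u) (v) = -t (u + v) (-v) := t_cbn ht (by module) (by module)
  have h44 : t (u) (v + e) = -t (u + v + e) (-v + e) := t_cbn ht (by module) (by linear_combination (norm := module) (1:ℤ) • he)
  have h45 : t (u) (v + f) = -t (u + v + f) (-v + f) := t_cbn ht (by module) (by linear_combination (norm := module) (1:ℤ) • hf)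
  have h46 : t (u) (v + (e + f)) = -t (u + v + e + f) (-v + e + f) := t_cbn ht (by module) (by linear_combination (norm := module) (1:ℤ) • he + (1:ℤ) • hf)
  have h47 : t (u) (v + v) = -t (u + (2:ℤ) • v) (-(2:ℤ) • v) := t_cbn ht (by module) (by module)
  have h48 : t (u) (u + (v + v)) = t ((2:ℤ) • u + (2:ℤ) • v) (-u) := t_can ht (by module) (by module)
  have h49 : t (u + (v + v)) (-v) = t (u + (2:ℤ) • v) (-v) := t_id ht (by module) (by module)
  have h50 : t (u + (v + v)) (-v + e) = t (u + (2:ℤ) • v) (-v + e) := t_id ht (by module) (by module)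
  have h51 : t (u + (v + v)) (-v + f) = t (u + (2:ℤ) • v) (-v + f) := t_id ht (by module) (by module)
  have h52 : t (u + (v + v)) (-v + (e + f)) = t (u + (2:ℤ) • v) (-v + e + f) := t_id ht (by module) (by module)
  unfold z4
  simp only [CR, th]
  linear_combination (norm := module) (1:ℤ) • h1 + (1:ℤ) • h2 + (1:ℤ) • h3 + (1:ℤ) • h4 + (-1:ℤ) • h5 + (-1:ℤ) • h6 + (-1:ℤ) • h7 + (-1:ℤ) • h8 + (1:ℤ) • h9 + (1:ℤ) • h10 + (1:ℤ) • h11 + (1:ℤ) • h12 + (-1:ℤ) • h13 + (-1:ℤ) • h14 + (-1:ℤ) • h15 + (-1:ℤ) • h16 + (-1:ℤ) • h17 + (-1:ℤ) • h18 + (-1:ℤ) • h19 + (-1:ℤ) • h20 + (1:ℤ) • h21 + (1:ℤ) • h22 + (1:ℤ) • h23 + (1:ℤ) • h24 + (-1:ℤ) • h25 + (-1:ℤ) • h26 + (-1:ℤ) • h27 + (-1:ℤ) • h28 + (1:ℤ) • h29 + (1:ℤ) • h30 + (1:ℤ) • h31 + (1:ℤ) • h32 + (-1:ℤ) • h33 + (-1:ℤ) • h34 + (-1:ℤ) • h35 + (-1:ℤ) • h36 + (1:ℤ) • h37 + (1:ℤ) • h38 + (1:ℤ) • h39 + (1:ℤ) • h40 + (1:ℤ) • h41 + (1:ℤ) • h42 + (1:ℤ) • h43 + (1:ℤ) • h44 + (1:ℤ) • h45 + (1:ℤ) • h46 + (-1:ℤ) • h47 + (-1:ℤ) • h48 + (-1:ℤ) • h49 + (-1:ℤ)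 • h50 + (-1:ℤ) • h51 + (-1:ℤ) • h52

end Z2

end Pool.Agent.K4ParP
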